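import Pool.Agent.H376R2.MR.Fej
import Pool.Agent.H376R2.MR.Ls

/-! Fejér's kernel against families of points with a bounded number in every cell. -/

set_option autoImplicit false

namespace Pool.Agent.Y851.PS
open Finset
open Pool.Agent.H376R2.MR (Fj FK ch Fj_nonneg Fj_le Fj_le_sq fej_exp fej_eq_norm ls_norm_ch ls_ch_mul ls_ch_cont ls_orth)

lemma Fj_per (K : ℕ) (u : ℝ) : Fj K (u - 2 * Real.pi) = Fj K u := by
  rcases Nat.eq_zero_or_pos K with h | h
  · subst h
    rw [Pool.Agent.H376R2.MR.Fj_zero, Pool.Agent.H376R2.MR.Fj_zero]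
  · have hK : (0 : ℝ) < K := by exact_mod_cast h
    have e : Complex.exp (Complex.I * ((u - 2 * Real.pi : ℝ) : ℂ)) = Complex.exp (Complex.I * (u : ℂ)) := by
      have : Complex.I * ((u - 2 * Real.pi : ℝ) : ℂ) = Complex.I * (u : ℂ) - 2 * Real.pi * Complex.I := by
        push_cast; ring
      rw [this, Complex.exp_sub, Complex.exp_two_pi_mul_I, div_one]
    have h1 := fej_eq_norm K (u - 2 * Real.pi)
    rw [e, ← fej_eq_norm] at h1
    exact mul_left_cancel₀ hK.ne' h1

lemma Fj_neg (K : ℕ) (u : ℝ) : Fj K (-u) = Fj K u := by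
  unfold Pool.Agent.H376R2.MR.Fj
  apply sum_congr rfl
  intro k _
  rw [mul_neg, Real.cos_neg]

/-- decay up to distance `4` -/
lemma Fj_dec {K : ℕ} (hK : 1 ≤ K) {u : ℝ} (hu : u ≠ 0) (hu4 : |u| ≤ 4) : Fj K u ≤ 40 / (K * u ^ 2) := by
  have hK0 : (0 : ℝ) < K := by exact_mod_cast hK
  have hpi := Real.pi_gt_d2
  have hpi2 := Real.pi_lt_d2
  have h10 : Real.pi ^ 2 ≤ 10 := by nlinarith
  -- positive case
  have key : ∀ u : ℝ, 0 < u → u ≤ 4 → Fj K u ≤ 40 / (K * u ^ 2) := by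
    intro u hu hu4
    rcases le_or_gt u Real.pi with h | h
    · refine (Fj_le_sq hK hu.ne' (by rw [abs_of_pos hu]; exact h)).trans ?_
      apply div_le_div_of_nonneg_right _ (by positivity)
      linarith
    · rw [← Fj_per]
      have hne : u - 2 * Real.pi ≠ 0 := by
        intro h0; linarith
      refine (Fj_le_sq hK hne (by rw [abs_of_neg (by linarith)]; linarith)).trans ?_
      rw [div_le_div_iff₀ (by positivity) (by positivity)]
      have h1 : (u / 2) ^ 2 ≤ (u - 2 * Real.pi) ^ 2 := by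
        have : u / 2 ≤ 2 * Real.pi - u := by linarith
        have h2 : (u - 2 * Real.pi) ^ 2 = (2 * Real.pi - u) ^ 2 := by ring
        rw [h2]
        exact pow_le_pow_left₀ (by linarith) this 2
      have h2 : Real.pi ^ 2 * (K * u ^ 2) ≤ 10 * (K * u ^ 2) := mul_le_mul_of_nonneg_right h10 (by positivity)
      have h3 : 40 * (K * (u / 2) ^ 2) ≤ 40 * (K * (u - 2 * Real.pi) ^ 2) := by gcongr
      calc Real.pi ^ 2 * (K * u ^ 2) ≤ 10 * (K * u ^ 2) := h2
        _ = 40 * (K * (u / 2) ^ 2) := by ring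
        _ ≤ _ := h3
  rcases lt_or_gt_of_ne hu with h | h
  · rw [← Fj_neg]
    have := key (-u) (by linarith) (by rw [abs_of_neg h] at hu4; exact hu4)
    rwa [neg_sq] at this
  · exact key u h (by rw [abs_of_pos h] at hu4; exact hu4)

/-- sums over cells -/
lemma cell_gen {ι : Type} (S : Finset ι) (x l : ι → ℝ) (hx : ∀ i ∈ S, 0 ≤ x i) (K : ℕ) (hK : 1 ≤ K) (Q : ℝ)
    (hcell : ∀ u : ℝ, ∑ i ∈ S.filter (fun i => u ≤ l i ∧ l i < u + 1 / K), x i ≤ Q / K)
    (v : ℝ) (φ : ι → ℝ) (b : ℤ → ℝ) (J : Finset ℤ) (hb : ∀ j ∈ J, 0 ≤ b j)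
    (hJ : ∀ i ∈ S, ⌊(K : ℝ) * (l i - v)⌋ ∈ J) (hφ : ∀ i ∈ S, φ i ≤ b ⌊(K : ℝ) * (l i - v)⌋) :
    ∑ i ∈ S, x i * φ i ≤ Q / K * ∑ j ∈ J, b j := by
  have hK0 : (0 : ℝ) < K := by exact_mod_cast hK
  rw [← sum_fiberwise_of_maps_to hJ, mul_sum]
  apply sum_le_sum
  intro j hj
  have h1 : ∑ i ∈ S.filter (fun i => ⌊(K : ℝ) * (l i - v)⌋ = j), x i * φ i ≤
      ∑ i ∈ S.filter (fun i => ⌊(K : ℝ) * (l i - v)⌋ = j), x i * b j := by
    apply sum_le_sum
    intro i hi
    rw [mem_filter] at hi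
    apply mul_le_mul_of_nonneg_left _ (hx i hi.1)
    have := hφ i hi.1
    rwa [hi.2] at this
  refine h1.trans ?_
  rw [← sum_mul]
  apply mul_le_mul_of_nonneg_right _ (hb j hj)
  refine le_trans (le_of_eq ?_) (hcell (v + j / K))
  apply sum_congr _ fun _ _ => rfl
  apply filter_congr
  intro i _
  rw [Int.floor_eq_iff]
  constructor
  · rintro ⟨h2, h3⟩
    constructor
    · have : (j : ℝ) / K ≤ l i - v := by
        rw [div_le_iff₀ hK0]; linarith
      linarith
    · have : l i - v < (j + 1) / K := by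
        rw [lt_div_iff₀ hK0]; linarith
      rw [add_div] at this
      linarith
  · rintro ⟨h2, h3⟩
    constructor
    · have : (j : ℝ) / K ≤ l i - v := by linarith
      rw [div_le_iff₀ hK0] at this
      linarith
    · have : l i - v < (j + 1) / K := by rw [add_div]; linarith
      rw [lt_div_iff₀ hK0] at this
      linarith

/-- `∑ 1 / (1 + j²) ≤ 8` -/
lemma sum_beta (J : Finset ℤ) : ∑ j ∈ J, 1 / (1 + (j : ℝ) ^ 2) ≤ 8 := by
  have hnat : ∀ n : ℕ, ∑ m ∈ range (n + 1), 1 / (1 + (m : ℝ) ^ 2) ≤ 4 - 2 / ((n : ℝ) + 1) := by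
    intro n
    induction n with
    | zero => simp; norm_num
    | succ n ih =>
      rw [sum_range_succ]
      have h1 : 1 / (1 + ((n + 1 : ℕ) : ℝ) ^ 2) ≤ 2 / ((n : ℝ) + 1) - 2 / (((n + 1 : ℕ) : ℝ) + 1) := by
        push_cast
        have h2 : (2 : ℝ) / ((n : ℝ) + 1) - 2 / ((n : ℝ) + 1 + 1) = 2 / ((n + 1) * (n + 2)) := by field_simp; ring
        rw [h2, div_le_div_iff₀ (by positivity) (by positivity)]
        nlinarith
      linarith
  have hnat2 : ∀ n : ℕ, ∑ m ∈ range (n + 1), 1 / (1 + (m : ℝ) ^ 2) ≤ 4 := by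
    intro n
    refine (hnat n).trans ?_
    have : (0 : ℝ) ≤ 2 / ((n : ℝ) + 1) := by positivity
    linarith
  -- a bound for sets of one sign
  have key : ∀ I : Finset ℤ, (Set.InjOn Int.natAbs (I : Set ℤ)) → ∑ j ∈ I, 1 / (1 + (j : ℝ) ^ 2) ≤ 4 := by
    intro I hI
    have h1 : ∑ j ∈ I, 1 / (1 + (j : ℝ) ^ 2) = ∑ m ∈ I.image Int.natAbs, 1 / (1 + (m : ℝ) ^ 2) := by
      rw [sum_image hI]
      apply sum_congr rfl
      intro j _
      have : ((j.natAbs : ℕ) : ℝ) ^ 2 = (j : ℝ) ^ 2 := by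
        rw [Nat.cast_natAbs, Int.cast_abs, sq_abs]
      rw [this]
    rw [h1]
    refine le_trans (sum_le_sum_of_subset_of_nonneg (t := range ((I.image Int.natAbs).sup id + 1)) ?_ ?_) (hnat2 _)
    · intro m hm
      rw [mem_range]
      have := le_sup (f := id) hm
      simp only [id] at this
      omega
    · intro _ _ _; positivity
  rw [← sum_filter_add_sum_filter_not J (fun j => 0 ≤ j)]
  have h1 := key (J.filter (fun j => 0 ≤ j)) (by
    intro a ha b hb hab
    simp only [coe_filter, Set.mem_setOf_eq] at ha hb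
    omega)
  have h2 := key (J.filter (fun j => ¬ 0 ≤ j)) (by
    intro a ha b hb hab
    simp only [coe_filter, Set.mem_setOf_eq] at ha hb
    omega)
  linarith

/-- **Fejér's kernel against a family with bounded cells** -/
lemma cell_Fj {ι : Type} (S : Finset ι) (x l : ι → ℝ) (hx : ∀ i ∈ S, 0 ≤ x i) (K : ℕ) (hK : 1 ≤ K) (Q : ℝ)
    (hcell : ∀ u : ℝ, ∑ i ∈ S.filter (fun i => u ≤ l i ∧ l i < u + 1 / K), x i ≤ Q / K) (hQ : 0 ≤ Q)
    (v : ℝ) (hv : ∀ i ∈ S, |l i - v| ≤ 4) :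
    ∑ i ∈ S, x i * Fj K (l i - v) ≤ 1600 * Q := by
  classical
  have hK0 : (0 : ℝ) < K := by exact_mod_cast hK
  have h := cell_gen S x l hx K hK Q hcell v (fun i => Fj K (l i - v)) (fun j => 200 * K * (1 / (1 + (j : ℝ) ^ 2)))
    (S.image (fun i => ⌊(K : ℝ) * (l i - v)⌋)) (fun j _ => by positivity) (fun i hi => mem_image_of_mem _ hi) (by
      intro i hi
      set u := l i - v with hu
      set j := ⌊(K : ℝ) * u⌋ with hj
      have h1 : (j : ℝ) ≤ K * u := Int.floor_le _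
      have h2 : (K : ℝ) * u < j + 1 := Int.lt_floor_add_one _
      have hu4 := hv i hi
      rw [← hu] at hu4
      by_cases hj0 : j = 0 ∨ j = -1
      · have h3 : (j : ℝ) ^ 2 ≤ 1 := by
          rcases hj0 with h0 | h0 <;> rw [h0] <;> norm_num
        refine (Fj_le K u).trans ?_
        have h4 : (1 : ℝ) / 2 ≤ 1 / (1 + (j : ℝ) ^ 2) := by
          apply one_div_le_one_div_of_le (by positivity); linarith
        nlinarith
      · push Not at hj0
        -- `|j| ≤ 2 K |u|`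
        have h3 : (j : ℝ) ^ 2 ≤ 4 * (K * u) ^ 2 ∧ 1 ≤ (K * u) ^ 2 := by
          rcases lt_or_gt_of_ne hj0.1 with h4 | h4
          · have h5 : j ≤ -2 := by omega
            have h6 : (j : ℝ) ≤ -2 := by exact_mod_cast h5
            have h7 : K * u < -1 := by linarith
            constructor
            · nlinarith
            · nlinarith
          · have h5 : 1 ≤ j := by omega
            have h6 : (1 : ℝ) ≤ j := by exact_mod_cast h5
            constructor
            · nlinarith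
            · nlinarith
        have hu0 : u ≠ 0 := by
          intro h0
          rw [h0] at h3
          norm_num at h3
        refine (Fj_dec hK hu0 hu4).trans ?_
        have hu2 : 0 < u ^ 2 := by positivity
        have e : 200 * K * (1 / (1 + (j : ℝ) ^ 2)) = 200 * K / (1 + (j : ℝ) ^ 2) := by ring
        rw [e, div_le_div_iff₀ (by positivity) (by positivity)]
        have h4 : 1 + (j : ℝ) ^ 2 ≤ 5 * (K * u) ^ 2 := by linarith [h3.1, h3.2]
        calc 40 * (1 + (j : ℝ) ^ 2) ≤ 40 * (5 * (K * u) ^ 2) := by linarith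
          _ = 200 * K * (K * u ^ 2) := by ring)
  refine h.trans ?_
  rw [← mul_sum]
  have h2 := sum_beta (S.image (fun i => ⌊(K : ℝ) * (l i - v)⌋))
  calc Q / K * (200 * K * ∑ j ∈ S.image (fun i => ⌊(K : ℝ) * (l i - v)⌋), 1 / (1 + (j : ℝ) ^ 2))
      = Q * 200 * ∑ j ∈ S.image (fun i => ⌊(K : ℝ) * (l i - v)⌋), 1 / (1 + (j : ℝ) ^ 2) := by field_simp
    _ ≤ Q * 200 * 8 := by gcongr
    _ = 1600 * Q := by ring

/-- harmonic sums -/
lemma sum_gamma (n : ℕ) : ∑ j ∈ Icc (-(n : ℤ)) n, 1 / (1 + |(j : ℝ)|) ≤ 2 * (1 + Real.log (n + 1)) := by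
  have hnat : ∑ m ∈ range (n + 1), 1 / (1 + (m : ℝ)) ≤ 1 + Real.log (n + 1) := by
    have h1 := harmonic_le_one_add_log (n + 1)
    have h2 : ((harmonic (n + 1) : ℚ) : ℝ) = ∑ m ∈ range (n + 1), 1 / (1 + (m : ℝ)) := by
      rw [harmonic]
      push_cast
      apply sum_congr rfl
      intro m _
      rw [one_div, add_comm]
    rw [h2] at h1
    push_cast at h1
    exact h1
  have key : ∀ I : Finset ℤ, (Set.InjOn Int.natAbs (I : Set ℤ)) → (∀ j ∈ I, j.natAbs ≤ n) →
      ∑ j ∈ I, 1 / (1 + |(j : ℝ)|) ≤ 1 + Real.log (n + 1) := by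
    intro I hI hIn
    have h1 : ∑ j ∈ I, 1 / (1 + |(j : ℝ)|) = ∑ m ∈ I.image Int.natAbs, 1 / (1 + (m : ℝ)) := by
      rw [sum_image hI]
      apply sum_congr rfl
      intro j _
      have : ((j.natAbs : ℕ) : ℝ) = |(j : ℝ)| := by
        rw [Nat.cast_natAbs, Int.cast_abs]
      rw [this]
    rw [h1]
    refine le_trans (sum_le_sum_of_subset_of_nonneg (t := range (n + 1)) ?_ ?_) hnat
    · intro m hm
      rw [mem_image] at hm
      obtain ⟨j, hj, rfl⟩ := hm
      rw [mem_range]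
      have := hIn j hj
      omega
    · intro _ _ _; positivity
  rw [← sum_filter_add_sum_filter_not (Icc (-(n : ℤ)) n) (fun j => 0 ≤ j)]
  have h1 := key ((Icc (-(n : ℤ)) n).filter (fun j => 0 ≤ j)) (by
    intro a ha b hb hab
    simp only [coe_filter, Set.mem_setOf_eq] at ha hb
    omega) (by
    intro j hj
    rw [mem_filter, mem_Icc] at hj
    omega)
  have h2 := key ((Icc (-(n : ℤ)) n).filter (fun j => ¬ 0 ≤ j)) (by
    intro a ha b hb hab
    simp only [coe_filter, Set.mem_setOf_eq] at ha hb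
    omega) (by
    intro j hj
    rw [mem_filter, mem_Icc] at hj
    omega)
  linarith

/-- the kernel `14 / (1 + K |u|)` against a family with bounded cells -/
lemma cell_log {ι : Type} (S : Finset ι) (x l : ι → ℝ) (hx : ∀ i ∈ S, 0 ≤ x i) (K : ℕ) (hK : 1 ≤ K) (Q : ℝ)
    (hcell : ∀ u : ℝ, ∑ i ∈ S.filter (fun i => u ≤ l i ∧ l i < u + 1 / K), x i ≤ Q / K) (hQ : 0 ≤ Q)
    (v : ℝ) (hv : ∀ i ∈ S, |l i - v| ≤ 4) :
    ∑ i ∈ S, x i * (14 / (1 + K * |l i - v|)) ≤ 56 * Q * (1 + Real.log (4 * K + 2)) / K := by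
  classical
  have hK0 : (0 : ℝ) < K := by exact_mod_cast hK
  have h := cell_gen S x l hx K hK Q hcell v (fun i => 14 / (1 + K * |l i - v|)) (fun j => 28 * (1 / (1 + |(j : ℝ)|)))
    (Icc (-((4 * K + 1 : ℕ) : ℤ)) ((4 * K + 1 : ℕ) : ℤ)) (fun j _ => by positivity) (by
      intro i hi
      have h1 := abs_le.1 (hv i hi)
      rw [mem_Icc]
      constructor
      · rw [Int.le_floor]
        push_cast
        nlinarith
      · have h2 : ((⌊(K : ℝ) * (l i - v)⌋ : ℤ) : ℝ) ≤ K * (l i - v) := Int.floor_le _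
        have h3 : ((⌊(K : ℝ) * (l i - v)⌋ : ℤ) : ℝ) ≤ ((4 * K + 1 : ℕ) : ℝ) := by
          push_cast; nlinarith
        exact_mod_cast h3) (by
      intro i hi
      set u := l i - v with hu
      set j := ⌊(K : ℝ) * u⌋ with hj
      have h1 : (j : ℝ) ≤ K * u := Int.floor_le _
      have h2 : (K : ℝ) * u < j + 1 := Int.lt_floor_add_one _
      have h3 : |(j : ℝ)| ≤ K * |u| + 1 := by
        have e : K * |u| = |K * u| := by rw [abs_mul, abs_of_pos hK0]
        rw [e, abs_le]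
        constructor
        · have := neg_abs_le (K * u)
          linarith
        · have := le_abs_self (K * u)
          linarith
      have e : 28 * (1 / (1 + |(j : ℝ)|)) = 28 / (1 + |(j : ℝ)|) := by ring
      have h4 : 0 ≤ K * |u| := by positivity
      show 14 / (1 + K * |u|) ≤ 28 * (1 / (1 + |(j : ℝ)|))
      rw [e, div_le_div_iff₀ (by positivity) (by positivity)]
      linarith)
  refine h.trans ?_
  rw [← mul_sum]
  have h2 := sum_gamma (4 * K + 1)
  have e : ((4 * K + 1 : ℕ) : ℝ) + 1 = 4 * K + 2 := by push_cast; ring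
  rw [e] at h2
  calc Q / K * (28 * ∑ j ∈ Icc (-((4 * K + 1 : ℕ) : ℤ)) ((4 * K + 1 : ℕ) : ℤ), 1 / (1 + |(j : ℝ)|))
      ≤ Q / K * (28 * (2 * (1 + Real.log (4 * K + 2)))) := by gcongr
    _ = 56 * Q * (1 + Real.log (4 * K + 2)) / K := by ring

end Pool.Agent.Y851.PS
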