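import Mathlib

/-! Functions on `A × C` with small cut norm: tuples. -/

set_option autoImplicit false

namespace Pool.Agent.Y851.PS
open Finset

section Cut
variable {α β : Type} (A : Finset α) (C : Finset β) (Z : α → β → ℝ)

/-- small cut norm -/
def Cut (δ : ℝ) : Prop := ∀ A' : Finset α, A' ⊆ A → ∀ C' : Finset β, C' ⊆ C →
  |∑ a ∈ A', ∑ c ∈ C', (Z a c - 1)| ≤ δ * (A.card * C.card)

variable {A C Z}

lemma cut_one_side {δ : ℝ} (h : Cut A C Z δ) (u : α → ℝ) (L : ℝ) (hL : 0 ≤ L) (hu0 : ∀ a ∈ A, 0 ≤ u a) (hu1 : ∀ a ∈ A, u a ≤ L)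
    (C' : Finset β) (hC' : C' ⊆ C) : |∑ c ∈ C', ∑ a ∈ A, u a * (Z a c - 1)| ≤ L * (δ * (A.card * C.card)) := by
  classical
  -- the function of `a`
  set F : α → ℝ := fun a => ∑ c ∈ C', (Z a c - 1) with hF
  have e : ∑ c ∈ C', ∑ a ∈ A, u a * (Z a c - 1) = ∑ a ∈ A, u a * F a := by
    rw [sum_comm]
    apply sum_congr rfl
    intro a _
    rw [hF, mul_sum]
  rw [e, abs_le]
  constructor
  · have h1 : ∑ a ∈ A, u a * F a ≥ ∑ a ∈ A.filter (fun a => F a < 0), L * F a := by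
      rw [sum_filter]
      apply sum_le_sum
      intro a ha
      split_ifs with h2
      · nlinarith [hu1 a ha]
      · exact mul_nonneg (hu0 a ha) (not_lt.1 h2)
    have h2 := h (A.filter (fun a => F a < 0)) (filter_subset _ _) C' hC'
    rw [← mul_sum] at h1
    have h3 := (abs_le.1 h2).1
    have h4 : L * -(δ * (A.card * C.card)) ≤ L * ∑ a ∈ A.filter (fun a => F a < 0), F a := mul_le_mul_of_nonneg_left h3 hL
    linarith
  · have h1 : ∑ a ∈ A, u a * F a ≤ ∑ a ∈ A.filter (fun a => 0 ≤ F a), L * F a := by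
      rw [sum_filter]
      apply sum_le_sum
      intro a ha
      split_ifs with h2
      · exact mul_le_mul_of_nonneg_right (hu1 a ha) h2
      · exact mul_nonpos_of_nonneg_of_nonpos (hu0 a ha) (not_le.1 h2).le
    have h2 := h (A.filter (fun a => 0 ≤ F a)) (filter_subset _ _) C' hC'
    rw [← mul_sum] at h1
    have h3 := (abs_le.1 h2).2
    have h4 : L * ∑ a ∈ A.filter (fun a => 0 ≤ F a), F a ≤ L * (δ * (A.card * C.card)) := mul_le_mul_of_nonneg_left h3 hL
    linarith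

lemma cut_abs {δ : ℝ} (h : Cut A C Z δ) (u : α → ℝ) (L : ℝ) (hL : 0 ≤ L) (hu0 : ∀ a ∈ A, 0 ≤ u a) (hu1 : ∀ a ∈ A, u a ≤ L) :
    ∑ c ∈ C, |∑ a ∈ A, u a * (Z a c - 1)| ≤ 2 * L * (δ * (A.card * C.card)) := by
  classical
  rw [← sum_filter_add_sum_filter_not C (fun c => 0 ≤ ∑ a ∈ A, u a * (Z a c - 1))]
  have h1 := cut_one_side h u L hL hu0 hu1 (C.filter (fun c => 0 ≤ ∑ a ∈ A, u a * (Z a c - 1))) (filter_subset _ _)
  have h2 := cut_one_side h u L hL hu0 hu1 (C.filter (fun c => ¬ 0 ≤ ∑ a ∈ A, u a * (Z a c - 1))) (filter_subset _ _)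
  have e1 : ∑ c ∈ C.filter (fun c => 0 ≤ ∑ a ∈ A, u a * (Z a c - 1)), |∑ a ∈ A, u a * (Z a c - 1)| =
      ∑ c ∈ C.filter (fun c => 0 ≤ ∑ a ∈ A, u a * (Z a c - 1)), ∑ a ∈ A, u a * (Z a c - 1) := by
    apply sum_congr rfl
    intro c hc
    rw [mem_filter] at hc
    exact abs_of_nonneg hc.2
  have e2 : ∑ c ∈ C.filter (fun c => ¬ 0 ≤ ∑ a ∈ A, u a * (Z a c - 1)), |∑ a ∈ A, u a * (Z a c - 1)| =
      -∑ c ∈ C.filter (fun c => ¬ 0 ≤ ∑ a ∈ A, u a * (Z a c - 1)), ∑ a ∈ A, u a * (Z a c - 1) := by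
    rw [← sum_neg_distrib]
    apply sum_congr rfl
    intro c hc
    rw [mem_filter] at hc
    exact abs_of_neg (not_le.1 hc.2)
  rw [e1, e2]
  have h3 := (abs_le.1 h1).2
  have h4 := (abs_le.1 h2).1
  linarith

/-- sums over tuples -/
lemma sum_cons (n : ℕ) (f : (Fin (n + 1) → β) → ℝ) :
    ∑ y ∈ Fintype.piFinset (fun _ : Fin (n + 1) => C), f y =
      ∑ y ∈ Fintype.piFinset (fun _ : Fin n => C), ∑ c ∈ C, f (Fin.cons c y) := by
  rw [← sum_product']
  symm
  refine sum_bij' (fun p _ => (Fin.cons p.2 p.1 : Fin (n + 1) → β)) (fun y _ => (Fin.tail y, y 0)) ?_ ?_ ?_ ?_ ?_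
  · intro p hp
    rw [mem_product, Fintype.mem_piFinset] at hp
    rw [Fintype.mem_piFinset]
    intro i
    refine Fin.cases ?_ ?_ i
    · exact hp.2
    · intro j; exact hp.1 j
  · intro y hy
    rw [Fintype.mem_piFinset] at hy
    rw [mem_product, Fintype.mem_piFinset]
    exact ⟨fun j => hy j.succ, hy 0⟩
  · intro p _
    simp
  · intro y _
    simp
  · intro p _
    rfl

/-- the masked product -/
def mk (s : ℕ → Bool) (j : ℕ) (z : ℝ) : ℝ := if s j then z else 1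

lemma mk_nonneg (s : ℕ → Bool) (j : ℕ) {z : ℝ} (hz : 0 ≤ z) : 0 ≤ mk s j z := by
  unfold mk; split_ifs
  · exact hz
  · exact zero_le_one

lemma mk_le (s : ℕ → Bool) (j : ℕ) {z L : ℝ} (hL : 1 ≤ L) (hz : z ≤ L) : mk s j z ≤ L := by
  unfold mk; split_ifs
  · exact hz
  · exact hL

/-- **tuples** -/
theorem cut_tuples {δ L : ℝ} (hδ : 0 ≤ δ) (hL : 1 ≤ L) (h : Cut A C Z δ) (h0 : ∀ a ∈ A, ∀ c ∈ C, 0 ≤ Z a c)
    (h1 : ∀ a ∈ A, ∀ c ∈ C, Z a c ≤ L) (n : ℕ) (s : ℕ → Bool) :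
    ∑ y ∈ Fintype.piFinset (fun _ : Fin n => C), |∑ a ∈ A, ∏ j : Fin n, mk s j (Z a (y j)) - A.card| ≤
      2 * n * L ^ n * δ * (A.card * (C.card : ℝ) ^ n) := by
  induction n generalizing s with
  | zero => simp
  | succ n ih =>
    rw [sum_cons]
    have ih' := ih (fun j => s (j + 1))
    have key : ∀ y ∈ Fintype.piFinset (fun _ : Fin n => C), ∑ c ∈ C, |∑ a ∈ A, ∏ j : Fin (n + 1), mk s j (Z a ((Fin.cons c y : Fin (n + 1) → β) j)) - A.card| ≤
        2 * L ^ n * (δ * (A.card * C.card)) + C.card * |∑ a ∈ A, ∏ j : Fin n, mk (fun j => s (j + 1)) j (Z a (y j)) - A.card| := by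
      intro y hy
      rw [Fintype.mem_piFinset] at hy
      set u : α → ℝ := fun a => ∏ j : Fin n, mk (fun j => s (j + 1)) j (Z a (y j)) with hu
      have hu0 : ∀ a ∈ A, 0 ≤ u a := fun a ha => prod_nonneg fun j _ => mk_nonneg _ _ (h0 a ha _ (hy j))
      have hu1 : ∀ a ∈ A, u a ≤ L ^ n := by
        intro a ha
        calc u a ≤ ∏ _j : Fin n, L := prod_le_prod (fun j _ => mk_nonneg _ _ (h0 a ha _ (hy j))) fun j _ => mk_le _ _ hL (h1 a ha _ (hy j))
          _ = L ^ n := by simp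
      have e : ∀ c ∈ C, |∑ a ∈ A, ∏ j : Fin (n + 1), mk s j (Z a ((Fin.cons c y : Fin (n + 1) → β) j)) - A.card| ≤
          |∑ a ∈ A, u a * (Z a c - 1)| + |∑ a ∈ A, u a - A.card| := by
        intro c _
        have e1 : ∑ a ∈ A, ∏ j : Fin (n + 1), mk s j (Z a ((Fin.cons c y : Fin (n + 1) → β) j)) = ∑ a ∈ A, mk s 0 (Z a c) * u a := by
          apply sum_congr rfl
          intro a _
          rw [Fin.prod_univ_succ]
          congr 1
        rw [e1]
        by_cases hs : s 0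
        · have e2 : ∑ a ∈ A, mk s 0 (Z a c) * u a - A.card = (∑ a ∈ A, u a * (Z a c - 1)) + (∑ a ∈ A, u a - A.card) := by
            have : ∀ a ∈ A, mk s 0 (Z a c) * u a = u a * (Z a c - 1) + u a := by
              intro a _
              unfold mk
              rw [if_pos hs]; ring
            rw [sum_congr rfl this, sum_add_distrib]
            ring
          rw [e2]
          exact abs_add_le _ _
        · have e2 : ∑ a ∈ A, mk s 0 (Z a c) * u a = ∑ a ∈ A, u a := by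
            apply sum_congr rfl
            intro a _
            unfold mk
            rw [if_neg hs, one_mul]
          rw [e2]
          linarith [abs_nonneg (∑ a ∈ A, u a * (Z a c - 1))]
      refine (sum_le_sum e).trans ?_
      rw [sum_add_distrib, sum_const, nsmul_eq_mul]
      have := cut_abs h u (L ^ n) (by positivity) hu0 hu1
      linarith
    refine (sum_le_sum key).trans ?_
    rw [sum_add_distrib, sum_const, nsmul_eq_mul, ← mul_sum, Fintype.card_piFinset, prod_const, Finset.card_univ, Fintype.card_fin]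
    push_cast
    have hLn : (0 : ℝ) ≤ L ^ n := by positivity
    have hAC : (0 : ℝ) ≤ A.card * (C.card : ℝ) ^ (n + 1) := by positivity
    have hmul : (C.card : ℝ) * ∑ y ∈ Fintype.piFinset (fun _ : Fin n => C), |∑ a ∈ A, ∏ j : Fin n, mk (fun j => s (j + 1)) j (Z a (y j)) - A.card| ≤
        C.card * (2 * n * L ^ n * δ * (A.card * (C.card : ℝ) ^ n)) := mul_le_mul_of_nonneg_left ih' (Nat.cast_nonneg _)
    have hLL : L ^ n ≤ L ^ (n + 1) := pow_le_pow_right₀ hL (Nat.le_succ n)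
    calc _ ≤ (C.card : ℝ) ^ n * (2 * L ^ n * (δ * (A.card * C.card))) + C.card * (2 * n * L ^ n * δ * (A.card * (C.card : ℝ) ^ n)) := by
          linarith
      _ = 2 * (n + 1) * L ^ n * δ * (A.card * (C.card : ℝ) ^ (n + 1)) := by ring
      _ ≤ 2 * (n + 1) * L ^ (n + 1) * δ * (A.card * (C.card : ℝ) ^ (n + 1)) := by gcongr

/-- sums of functions of one coordinate -/
lemma sum_coord (n : ℕ) (j : Fin n) (F : β → ℝ) :
    ∑ y ∈ Fintype.piFinset (fun _ : Fin n => C), F (y j) = (C.card : ℝ) ^ (n - 1) * ∑ c ∈ C, F c := by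
  classical
  have h := Finset.prod_univ_sum (fun _ : Fin n => C) (fun i c => if i = j then F c else 1)
  have e1 : ∏ i : Fin n, ∑ c ∈ C, (if i = j then F c else 1) = (∑ c ∈ C, F c) * (C.card : ℝ) ^ (n - 1) := by
    rw [← mul_prod_erase univ _ (mem_univ j)]
    congr 1
    · simp
    · rw [prod_congr rfl (g := fun _ => (C.card : ℝ))]
      · rw [prod_const, card_erase_of_mem (mem_univ j), Finset.card_univ, Fintype.card_fin]
      · intro i hi
        rw [mem_erase] at hi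
        simp [hi.1]
  have e2 : ∀ y ∈ Fintype.piFinset (fun _ : Fin n => C), ∏ i : Fin n, (if i = j then F (y i) else 1) = F (y j) := by
    intro y _
    rw [prod_ite_eq' univ j (fun i => F (y i)), if_pos (mem_univ j)]
  rw [e1, sum_congr rfl e2] at h
  rw [← h, mul_comm]

/-- Markov's inequality for finite sets -/
lemma markov {γ : Type} (S : Finset γ) (f : γ → ℝ) (hf : ∀ y ∈ S, 0 ≤ f y) (T c : ℝ) (hc : 0 < c) (hT : ∑ y ∈ S, f y ≤ T)
    (p : γ → Prop) [DecidablePred p] (hp : ∀ y ∈ S, p y → c ≤ f y) : ((S.filter p).card : ℝ) ≤ T / c := by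
  rw [le_div_iff₀ hc]
  calc ((S.filter p).card : ℝ) * c = ∑ y ∈ S.filter p, c := by rw [sum_const, nsmul_eq_mul]
    _ ≤ ∑ y ∈ S.filter p, f y := sum_le_sum fun y hy => by
        rw [mem_filter] at hy
        exact hp y hy.1 hy.2
    _ ≤ ∑ y ∈ S, f y := sum_le_sum_of_subset_of_nonneg (filter_subset _ _) fun y hy _ => hf y hy
    _ ≤ T := hT

end Cut

end Pool.Agent.Y851.PS
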