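import Pool.Agent.Y851.PS.G10

/-! Almost all tuples are good. -/

set_option autoImplicit false

namespace Pool.Agent.Y851.PS
open Finset

/-- the mask of two coordinates -/
def msk (i j : ℕ) (m : ℕ) : Bool := decide (m = i ∨ m = j)

lemma prod_msk {n : ℕ} (i j : Fin n) (hij : i ≠ j) (z : Fin n → ℝ) : ∏ k : Fin n, mk (msk i j) k (z k) = z i * z j := by
  classical
  rw [← mul_prod_erase univ _ (mem_univ i), ← mul_prod_erase (univ.erase i) _ (mem_erase.2 ⟨hij.symm, mem_univ j⟩)]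
  have e : ∏ k ∈ (univ.erase i).erase j, mk (msk i j) k (z k) = 1 := by
    apply prod_eq_one
    intro k hk
    rw [mem_erase, mem_erase] at hk
    unfold mk msk
    rw [if_neg]
    simp only [decide_eq_true_eq, not_or]
    exact ⟨fun h => hk.2.1 (Fin.ext h), fun h => hk.1 (Fin.ext h)⟩
  rw [e, mul_one]
  unfold mk msk
  simp

lemma prod_msk_one {n : ℕ} (i : Fin n) (z : Fin n → ℝ) : ∏ k : Fin n, mk (msk i i) k (z k) = z i := by
  classical
  rw [← mul_prod_erase univ _ (mem_univ i)]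
  have e : ∏ k ∈ univ.erase i, mk (msk i i) k (z k) = 1 := by
    apply prod_eq_one
    intro k hk
    rw [mem_erase] at hk
    unfold mk msk
    rw [if_neg]
    simp only [or_self, decide_eq_true_eq]
    exact fun h => hk.1 (Fin.ext h)
  rw [e, mul_one]
  unfold mk msk
  simp

section
variable {α β : Type} (A : Finset α) (C : Finset β) (Z : α → β → ℝ)

/-- the defect of a tuple -/
noncomputable def Dfc (n : ℕ) (y : Fin n → β) : ℝ :=
  (∑ i : Fin n, ∑ j : Fin n, |∑ a ∈ A, ∏ k : Fin n, mk (msk i j) k (Z a (y k)) - A.card|) +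
  |∑ a ∈ A, ∏ k : Fin n, mk (fun _ => true) k (Z a (y k)) - A.card| + ∑ j : Fin n, ∑ a ∈ A, max 0 (Z a (y j) - 4)

variable {A C Z}

lemma Dfc_nonneg (n : ℕ) (y : Fin n → β) : 0 ≤ Dfc A Z n y := by
  unfold Dfc
  have h1 : 0 ≤ ∑ i : Fin n, ∑ j : Fin n, |∑ a ∈ A, ∏ k : Fin n, mk (msk i j) k (Z a (y k)) - A.card| :=
    sum_nonneg fun _ _ => sum_nonneg fun _ _ => abs_nonneg _
  have h2 : 0 ≤ ∑ j : Fin n, ∑ a ∈ A, max 0 (Z a (y j) - 4) := sum_nonneg fun _ _ => sum_nonneg fun _ _ => le_max_left _ _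
  have h3 := abs_nonneg (∑ a ∈ A, ∏ k : Fin n, mk (fun _ => true) k (Z a (y k)) - A.card)
  linarith

lemma Dfc_sum {δ L : ℝ} (hδ : 0 ≤ δ) (hL : 1 ≤ L) (h : Cut A C Z δ) (h0 : ∀ a ∈ A, ∀ c ∈ C, 0 ≤ Z a c)
    (h1 : ∀ a ∈ A, ∀ c ∈ C, Z a c ≤ L) (h4 : ∑ a ∈ A, ∑ c ∈ C, max 0 (Z a c - 4) ≤ δ * (A.card * C.card)) (n : ℕ) (hn : 1 ≤ n) :
    ∑ y ∈ Fintype.piFinset (fun _ : Fin n => C), Dfc A Z n y ≤ 5 * n ^ 3 * L ^ n * δ * (A.card * (C.card : ℝ) ^ n) := by
  have hn1 : (1 : ℝ) ≤ n := by exact_mod_cast hn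
  have hLn : (1 : ℝ) ≤ L ^ n := one_le_pow₀ hL
  have hAC : (0 : ℝ) ≤ A.card * (C.card : ℝ) ^ n := by positivity
  unfold Dfc
  rw [sum_add_distrib, sum_add_distrib]
  have e1 : ∑ y ∈ Fintype.piFinset (fun _ : Fin n => C), ∑ i : Fin n, ∑ j : Fin n,
      |∑ a ∈ A, ∏ k : Fin n, mk (msk i j) k (Z a (y k)) - A.card| ≤ n * (n * (2 * n * L ^ n * δ * (A.card * (C.card : ℝ) ^ n))) := by
    rw [sum_comm]
    have : ∀ i ∈ (univ : Finset (Fin n)), ∑ y ∈ Fintype.piFinset (fun _ : Fin n => C), ∑ j : Fin n,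
        |∑ a ∈ A, ∏ k : Fin n, mk (msk i j) k (Z a (y k)) - A.card| ≤ n * (2 * n * L ^ n * δ * (A.card * (C.card : ℝ) ^ n)) := by
      intro i _
      rw [sum_comm]
      have q : ∀ j ∈ (univ : Finset (Fin n)), ∑ y ∈ Fintype.piFinset (fun _ : Fin n => C),
          |∑ a ∈ A, ∏ k : Fin n, mk (msk i j) k (Z a (y k)) - A.card| ≤ 2 * n * L ^ n * δ * (A.card * (C.card : ℝ) ^ n) :=
        fun j _ => cut_tuples hδ hL h h0 h1 n (msk i j)
      refine (sum_le_sum q).trans ?_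
      rw [sum_const, Finset.card_univ, Fintype.card_fin, nsmul_eq_mul]
    refine (sum_le_sum this).trans ?_
    rw [sum_const, Finset.card_univ, Fintype.card_fin, nsmul_eq_mul]
  have e2 := cut_tuples hδ hL h h0 h1 n (fun _ => true)
  have e3 : ∑ y ∈ Fintype.piFinset (fun _ : Fin n => C), ∑ j : Fin n, ∑ a ∈ A, max 0 (Z a (y j) - 4) ≤
      n * (δ * (A.card * (C.card : ℝ) ^ n)) := by
    rw [sum_comm]
    have : ∀ j ∈ (univ : Finset (Fin n)), ∑ y ∈ Fintype.piFinset (fun _ : Fin n => C), ∑ a ∈ A, max 0 (Z a (y j) - 4) ≤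
        δ * (A.card * (C.card : ℝ) ^ n) := by
      intro j _
      rw [sum_coord n j (fun c => ∑ a ∈ A, max 0 (Z a c - 4)), sum_comm]
      calc (C.card : ℝ) ^ (n - 1) * ∑ a ∈ A, ∑ c ∈ C, max 0 (Z a c - 4) ≤ (C.card : ℝ) ^ (n - 1) * (δ * (A.card * C.card)) :=
            mul_le_mul_of_nonneg_left h4 (by positivity)
        _ = δ * (A.card * ((C.card : ℝ) ^ (n - 1) * C.card)) := by ring
        _ = _ := by rw [pow_sub_one_mul (by omega)]
    refine (sum_le_sum this).trans ?_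
    rw [sum_const, Finset.card_univ, Fintype.card_fin, nsmul_eq_mul]
  have hn3 : (n : ℝ) ≤ n ^ 3 := le_self_pow₀ hn1 (by norm_num)
  set W := δ * (A.card * (C.card : ℝ) ^ n) with hW
  have hW0 : 0 ≤ W := by positivity
  have hLW : W ≤ L ^ n * W := le_mul_of_one_le_left hW0 hLn
  calc _ ≤ n * (n * (2 * n * L ^ n * δ * (A.card * (C.card : ℝ) ^ n))) + 2 * n * L ^ n * δ * (A.card * (C.card : ℝ) ^ n) +
        n * (δ * (A.card * (C.card : ℝ) ^ n)) := add_le_add (add_le_add e1 e2) e3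
    _ = 2 * n ^ 3 * (L ^ n * W) + 2 * n * (L ^ n * W) + n * W := by rw [hW]; ring
    _ ≤ 2 * n ^ 3 * (L ^ n * W) + 2 * n ^ 3 * (L ^ n * W) + n ^ 3 * (L ^ n * W) := by
        have : 0 ≤ L ^ n * W := by positivity
        gcongr
    _ = 5 * n ^ 3 * L ^ n * δ * (A.card * (C.card : ℝ) ^ n) := by rw [hW]; ring

open Classical in
/-- tuples with small defect -/
lemma small_defect {L δ₁ ε : ℝ} (hL : 1 ≤ L) (hδ₁ : 0 ≤ δ₁) (hδ1 : 4 * L * δ₁ ≤ ε) (hδ2 : δ₁ ≤ 1 / 4)
    (n : ℕ) (hn : 1 ≤ n) (y : Fin n → β) (h0 : ∀ a ∈ A, ∀ j, 0 ≤ Z a (y j)) (h1 : ∀ a ∈ A, ∀ j, Z a (y j) ≤ L)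
    (hD : Dfc A Z n y ≤ δ₁ * A.card) :
    ((n : ℝ) / (n + 3) - ε) * A.card ≤ ((A.filter (fun a => ∃ j, 0 < Z a (y j))).card : ℝ) ∧
    1 / (2 * L ^ n) * A.card ≤ ((A.filter (fun a => ∀ j, 0 < Z a (y j))).card : ℝ) := by
  have hn1 : (1 : ℝ) ≤ n := by exact_mod_cast hn
  have hLn : (1 : ℝ) ≤ L ^ n := one_le_pow₀ hL
  have hA0 : (0 : ℝ) ≤ A.card := Nat.cast_nonneg _
  -- the pieces
  have p1 : 0 ≤ ∑ i : Fin n, ∑ j : Fin n, |∑ a ∈ A, ∏ k : Fin n, mk (msk i j) k (Z a (y k)) - A.card| :=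
    sum_nonneg fun _ _ => sum_nonneg fun _ _ => abs_nonneg _
  have p2 : 0 ≤ ∑ j : Fin n, ∑ a ∈ A, max 0 (Z a (y j) - 4) := sum_nonneg fun _ _ => sum_nonneg fun _ _ => le_max_left _ _
  have p3 := abs_nonneg (∑ a ∈ A, ∏ k : Fin n, mk (fun _ => true) k (Z a (y k)) - A.card)
  unfold Dfc at hD
  have hall : |∑ a ∈ A, ∏ k : Fin n, mk (fun _ => true) k (Z a (y k)) - A.card| ≤ δ₁ * A.card := by linarith
  have hmask : ∀ i j : Fin n, |∑ a ∈ A, ∏ k : Fin n, mk (msk i j) k (Z a (y k)) - A.card| ≤ δ₁ * A.card := by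
    intro i j
    have q1 : |∑ a ∈ A, ∏ k : Fin n, mk (msk i j) k (Z a (y k)) - A.card| ≤
        ∑ j : Fin n, |∑ a ∈ A, ∏ k : Fin n, mk (msk i j) k (Z a (y k)) - A.card| :=
      single_le_sum (f := fun j : Fin n => |∑ a ∈ A, ∏ k : Fin n, mk (msk i j) k (Z a (y k)) - A.card|)
        (fun _ _ => abs_nonneg _) (mem_univ j)
    have q2 : ∑ j : Fin n, |∑ a ∈ A, ∏ k : Fin n, mk (msk i j) k (Z a (y k)) - A.card| ≤
        ∑ i : Fin n, ∑ j : Fin n, |∑ a ∈ A, ∏ k : Fin n, mk (msk i j) k (Z a (y k)) - A.card| :=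
      single_le_sum (f := fun i : Fin n => ∑ j : Fin n, |∑ a ∈ A, ∏ k : Fin n, mk (msk i j) k (Z a (y k)) - A.card|)
        (fun _ _ => sum_nonneg fun _ _ => abs_nonneg _) (mem_univ i)
    linarith
  have hexc : ∑ j : Fin n, ∑ a ∈ A, max 0 (Z a (y j) - 4) ≤ δ₁ * A.card := by linarith
  constructor
  · -- at least one
    set X : α → ℝ := fun a => ∑ j : Fin n, Z a (y j) with hX
    set P := A.filter (fun a => ∃ j, 0 < Z a (y j)) with hP
    have hX0 : ∀ a ∈ A, a ∉ P → X a = 0 := by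
      intro a ha haP
      apply sum_eq_zero
      intro j _
      by_contra h
      apply haP
      rw [hP, mem_filter]
      exact ⟨ha, j, lt_of_le_of_ne (h0 a ha j) (Ne.symm h)⟩
    have hsum1 : (1 - δ₁) * n * A.card ≤ ∑ a ∈ A, X a := by
      have : ∑ a ∈ A, X a = ∑ j : Fin n, ∑ a ∈ A, Z a (y j) := sum_comm
      rw [this]
      have q : ∀ j ∈ (univ : Finset (Fin n)), (1 - δ₁) * A.card ≤ ∑ a ∈ A, Z a (y j) := by
        intro j _
        have q1 := hmask j j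
        have q2 : ∑ a ∈ A, ∏ k : Fin n, mk (msk j j) k (Z a (y k)) = ∑ a ∈ A, Z a (y j) :=
          sum_congr rfl fun a _ => prod_msk_one j (fun k => Z a (y k))
        rw [q2] at q1
        have := (abs_le.1 q1).1
        linarith
      have q3 := sum_le_sum q
      rw [sum_const, Finset.card_univ, Fintype.card_fin, nsmul_eq_mul] at q3
      linarith
    have hsumP : ∑ a ∈ A, X a = ∑ a ∈ P, 1 * X a := by
      symm
      simp only [one_mul]
      apply sum_subset (filter_subset _ _)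
      intro a ha haP
      exact hX0 a ha haP
    have hsum2 : ∑ a ∈ A, X a ^ 2 ≤ n * ((n + 3) * (1 + δ₁) + L * δ₁) * A.card := by
      have e1 : ∑ a ∈ A, X a ^ 2 = ∑ i : Fin n, ∑ j : Fin n, ∑ a ∈ A, Z a (y i) * Z a (y j) := by
        have : ∀ a ∈ A, X a ^ 2 = ∑ i : Fin n, ∑ j : Fin n, Z a (y i) * Z a (y j) := by
          intro a _
          rw [hX, sq, sum_mul_sum]
        rw [sum_congr rfl this, sum_comm]
        apply sum_congr rfl
        intro i _
        rw [sum_comm]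
      rw [e1]
      have e2 : ∀ i ∈ (univ : Finset (Fin n)), ∑ j : Fin n, ∑ a ∈ A, Z a (y i) * Z a (y j) ≤
          (n - 1) * ((1 + δ₁) * A.card) + (4 * ((1 + δ₁) * A.card) + L * ∑ a ∈ A, max 0 (Z a (y i) - 4)) := by
        intro i _
        rw [← add_sum_erase univ _ (mem_univ i), add_comm]
        apply add_le_add
        · have q : ∀ j ∈ univ.erase i, ∑ a ∈ A, Z a (y i) * Z a (y j) ≤ (1 + δ₁) * A.card := by
            intro j hj
            rw [mem_erase] at hj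
            have q1 := hmask i j
            have q2 : ∑ a ∈ A, ∏ k : Fin n, mk (msk i j) k (Z a (y k)) = ∑ a ∈ A, Z a (y i) * Z a (y j) :=
              sum_congr rfl fun a _ => prod_msk i j hj.1.symm (fun k => Z a (y k))
            rw [q2] at q1
            have := (abs_le.1 q1).2
            linarith
          refine (sum_le_sum q).trans ?_
          rw [sum_const, card_erase_of_mem (mem_univ i), Finset.card_univ, Fintype.card_fin, nsmul_eq_mul,
            Nat.cast_sub hn, Nat.cast_one]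
        · have q1 := hmask i i
          have q2 : ∑ a ∈ A, ∏ k : Fin n, mk (msk i i) k (Z a (y k)) = ∑ a ∈ A, Z a (y i) :=
            sum_congr rfl fun a _ => prod_msk_one i (fun k => Z a (y k))
          rw [q2] at q1
          have q3 : ∑ a ∈ A, Z a (y i) ≤ (1 + δ₁) * A.card := by
            have := (abs_le.1 q1).2
            linarith
          have q4 : ∑ a ∈ A, Z a (y i) * Z a (y i) ≤ ∑ a ∈ A, (4 * Z a (y i) + L * max 0 (Z a (y i) - 4)) := by
            apply sum_le_sum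
            intro a ha
            have r1 := h0 a ha i
            have r2 := h1 a ha i
            have r3 : Z a (y i) - 4 ≤ max 0 (Z a (y i) - 4) := le_max_right _ _
            have r4 : 0 ≤ max 0 (Z a (y i) - 4) := le_max_left _ _
            have r5 : Z a (y i) * (Z a (y i) - 4) ≤ L * max 0 (Z a (y i) - 4) := by
              calc Z a (y i) * (Z a (y i) - 4) ≤ Z a (y i) * max 0 (Z a (y i) - 4) := mul_le_mul_of_nonneg_left r3 r1
                _ ≤ L * max 0 (Z a (y i) - 4) := mul_le_mul_of_nonneg_right r2 r4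
            linarith
          rw [sum_add_distrib, ← mul_sum, ← mul_sum] at q4
          linarith
      refine (sum_le_sum e2).trans ?_
      rw [sum_add_distrib, sum_add_distrib, sum_const, sum_const, Finset.card_univ, Fintype.card_fin, nsmul_eq_mul,
        nsmul_eq_mul, ← mul_sum]
      have q5 : L * ∑ i : Fin n, ∑ a ∈ A, max 0 (Z a (y i) - 4) ≤ L * (δ₁ * A.card) := mul_le_mul_of_nonneg_left hexc (by linarith)
      have q6 : L * (δ₁ * A.card) ≤ n * (L * (δ₁ * A.card)) := le_mul_of_one_le_left (by positivity) hn1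
      calc _ ≤ (n : ℝ) * ((n - 1) * ((1 + δ₁) * A.card)) + (n * (4 * ((1 + δ₁) * A.card)) + n * (L * (δ₁ * A.card))) := by linarith
        _ = _ := by ring
    have hCS := Finset.sum_mul_sq_le_sq_mul_sq P (fun _ => (1 : ℝ)) X
    have hPX : ∑ a ∈ P, X a ^ 2 ≤ ∑ a ∈ A, X a ^ 2 := sum_le_sum_of_subset_of_nonneg (filter_subset _ _) fun _ _ _ => sq_nonneg _
    have hone : ∑ a ∈ P, (1 : ℝ) ^ 2 = P.card := by simp
    rw [← hsumP, hone] at hCS
    have hmain : ((1 - δ₁) * n * A.card) ^ 2 ≤ P.card * (n * ((n + 3) * (1 + δ₁) + L * δ₁) * A.card) := by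
      calc ((1 - δ₁) * n * A.card) ^ 2 ≤ (∑ a ∈ A, X a) ^ 2 := by
            apply pow_le_pow_left₀ _ hsum1
            have : 0 ≤ 1 - δ₁ := by linarith
            positivity
        _ ≤ P.card * ∑ a ∈ P, X a ^ 2 := hCS
        _ ≤ P.card * (n * ((n + 3) * (1 + δ₁) + L * δ₁) * A.card) :=
            mul_le_mul_of_nonneg_left (hPX.trans hsum2) (Nat.cast_nonneg _)
    rcases hA0.eq_or_lt with hA | hA
    · rw [← hA]; simp
    have hmain2 : (1 - δ₁) ^ 2 * n * A.card ≤ P.card * ((n + 3) * (1 + δ₁) + L * δ₁) := by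
      have hnA : 0 < (n : ℝ) * A.card := by positivity
      have : (n * A.card : ℝ) * ((1 - δ₁) ^ 2 * n * A.card) ≤ (n * A.card) * (P.card * ((n + 3) * (1 + δ₁) + L * δ₁)) := by
        calc (n * A.card : ℝ) * ((1 - δ₁) ^ 2 * n * A.card) = ((1 - δ₁) * n * A.card) ^ 2 := by ring
          _ ≤ _ := hmain
          _ = _ := by ring
      exact le_of_mul_le_mul_left this hnA
    by_cases hneg : (n : ℝ) / (n + 3) - ε ≤ 0
    · have : ((n : ℝ) / (n + 3) - ε) * A.card ≤ 0 := mul_nonpos_of_nonpos_of_nonneg hneg hA0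
      linarith [(Nat.cast_nonneg P.card : (0 : ℝ) ≤ P.card)]
    push Not at hneg
    have hD1 : (n + 3) * (1 + δ₁) + L * δ₁ ≤ (n + 3) * (1 + 2 * L * δ₁) := by
      have a1 : δ₁ ≤ L * δ₁ := le_mul_of_one_le_left hδ₁ hL
      have a2 : 0 ≤ L * δ₁ := by positivity
      nlinarith
    have hP0 : (0 : ℝ) ≤ P.card := Nat.cast_nonneg _
    have h5 : (1 - δ₁) ^ 2 * n * A.card ≤ P.card * ((n + 3) * (1 + 2 * L * δ₁)) :=
      hmain2.trans (mul_le_mul_of_nonneg_left hD1 hP0)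
    have h6 : ((n : ℝ) / (n + 3) - ε) * ((n + 3) * (1 + 2 * L * δ₁)) ≤ (1 - δ₁) ^ 2 * n := by
      have a0 : 0 ≤ L * δ₁ := by positivity
      have a1 : ((n : ℝ) / (n + 3) - ε) * ((n + 3) * (1 + 2 * L * δ₁)) = (n - ε * (n + 3)) * (1 + 2 * L * δ₁) := by
        field_simp
      rw [a1]
      have hε0 : 0 ≤ ε := le_trans (by positivity) hδ1
      have a2 : (n - ε * (n + 3)) * (1 + 2 * L * δ₁) ≤ n * (1 + 2 * L * δ₁) - ε * n := by
        have b1 : 0 ≤ ε * (n + 3) * (2 * L * δ₁) := by positivity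
        nlinarith
      have a3 : (1 - δ₁) ^ 2 ≥ 1 - 2 * δ₁ := by nlinarith [sq_nonneg δ₁]
      have a4 : (1 - δ₁) ^ 2 * n ≥ (1 - 2 * δ₁) * n := mul_le_mul_of_nonneg_right a3 (by linarith)
      have a5 : δ₁ ≤ L * δ₁ := le_mul_of_one_le_left hδ₁ hL
      have a6 : (2 * L * δ₁ + 2 * δ₁) * n ≤ ε * n := by
        apply mul_le_mul_of_nonneg_right _ (by linarith)
        linarith
      linarith
    have h7 : ((n : ℝ) / (n + 3) - ε) * A.card * ((n + 3) * (1 + 2 * L * δ₁)) ≤ P.card * ((n + 3) * (1 + 2 * L * δ₁)) := by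
      calc ((n : ℝ) / (n + 3) - ε) * A.card * ((n + 3) * (1 + 2 * L * δ₁)) =
            ((n : ℝ) / (n + 3) - ε) * ((n + 3) * (1 + 2 * L * δ₁)) * A.card := by ring
        _ ≤ (1 - δ₁) ^ 2 * n * A.card := mul_le_mul_of_nonneg_right h6 hA0
        _ ≤ _ := h5
    exact le_of_mul_le_mul_right h7 (by positivity)
  · -- all of them
    have q1 : ∑ a ∈ A, ∏ k : Fin n, mk (fun _ => true) k (Z a (y k)) = ∑ a ∈ A, ∏ k : Fin n, Z a (y k) := by
      apply sum_congr rfl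
      intro a _
      apply prod_congr rfl
      intro k _
      unfold mk
      simp
    rw [q1] at hall
    have q2 : (1 - δ₁) * A.card ≤ ∑ a ∈ A, ∏ k : Fin n, Z a (y k) := by
      have := (abs_le.1 hall).1
      linarith
    have q3 : ∑ a ∈ A, ∏ k : Fin n, Z a (y k) ≤ ((A.filter (fun a => ∀ j, 0 < Z a (y j))).card : ℝ) * L ^ n := by
      have r1 : ∑ a ∈ A, ∏ k : Fin n, Z a (y k) = ∑ a ∈ A.filter (fun a => ∀ j, 0 < Z a (y j)), ∏ k : Fin n, Z a (y k) := by
        symm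
        apply sum_subset (filter_subset _ _)
        intro a ha ha2
        rw [mem_filter, not_and] at ha2
        have ha3 := ha2 ha
        push Not at ha3
        obtain ⟨j, hj⟩ := ha3
        apply prod_eq_zero (mem_univ j)
        exact le_antisymm hj (h0 a ha j)
      rw [r1]
      calc ∑ a ∈ A.filter (fun a => ∀ j, 0 < Z a (y j)), ∏ k : Fin n, Z a (y k)
          ≤ ∑ a ∈ A.filter (fun a => ∀ j, 0 < Z a (y j)), L ^ n := by
            apply sum_le_sum
            intro a ha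
            rw [mem_filter] at ha
            calc ∏ k : Fin n, Z a (y k) ≤ ∏ _k : Fin n, L := prod_le_prod (fun k _ => h0 a ha.1 k) fun k _ => h1 a ha.1 k
              _ = L ^ n := by simp
        _ = _ := by rw [sum_const, nsmul_eq_mul]
    rw [one_div, inv_mul_eq_div, div_le_iff₀ (by positivity)]
    have q4 : (1 / 2 : ℝ) * A.card ≤ (1 - δ₁) * A.card := mul_le_mul_of_nonneg_right (by linarith) hA0
    linarith

open Classical in
/-- **Almost all tuples are good.** -/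
theorem tuples_good (n : ℕ) (hn : 1 ≤ n) (L ε : ℝ) (hL : 1 ≤ L) (hε : 0 < ε) : ∃ δ : ℝ, 0 < δ ∧
    ∀ (α β : Type) (A : Finset α) (C : Finset β) (Z : α → β → ℝ), Cut A C Z δ → (∀ a ∈ A, ∀ c ∈ C, 0 ≤ Z a c) →
    (∀ a ∈ A, ∀ c ∈ C, Z a c ≤ L) → ∑ a ∈ A, ∑ c ∈ C, max 0 (Z a c - 4) ≤ δ * (A.card * C.card) →
    (((Fintype.piFinset (fun _ : Fin n => C)).filter (fun y => ¬
      (((n : ℝ) / (n + 3) - ε) * A.card ≤ ((A.filter (fun a => ∃ j, 0 < Z a (y j))).card : ℝ) ∧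
      1 / (2 * L ^ n) * A.card ≤ ((A.filter (fun a => ∀ j, 0 < Z a (y j))).card : ℝ)))).card : ℝ) ≤ ε * (C.card : ℝ) ^ n := by
  have hn1 : (1 : ℝ) ≤ n := by exact_mod_cast hn
  set δ₁ := min (1 / 4) (ε / (4 * L)) with hδ₁
  have hδ₁0 : 0 < δ₁ := lt_min (by norm_num) (by positivity)
  have hδ₁1 : 4 * L * δ₁ ≤ ε := by
    have : δ₁ ≤ ε / (4 * L) := min_le_right _ _
    rw [le_div_iff₀ (by positivity)] at this
    linarith
  have hδ₁2 : δ₁ ≤ 1 / 4 := min_le_left _ _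
  refine ⟨ε * δ₁ / (5 * n ^ 3 * L ^ n), by positivity, ?_⟩
  intro α β A C Z hcut h0 h1 h4
  have hsum := Dfc_sum (by positivity) hL hcut h0 h1 h4 n hn
  by_cases hA : A.card = 0
  · -- trivial
    have : ((Fintype.piFinset (fun _ : Fin n => C)).filter (fun y => ¬
      (((n : ℝ) / (n + 3) - ε) * A.card ≤ ((A.filter (fun a => ∃ j, 0 < Z a (y j))).card : ℝ) ∧
      1 / (2 * L ^ n) * A.card ≤ ((A.filter (fun a => ∀ j, 0 < Z a (y j))).card : ℝ)))) = ∅ := by
      apply filter_eq_empty_iff.2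
      intro y _
      rw [not_not, hA, Nat.cast_zero, mul_zero, mul_zero]
      exact ⟨Nat.cast_nonneg _, Nat.cast_nonneg _⟩
    rw [this]
    simp only [card_empty, Nat.cast_zero]
    positivity
  have hA0 : (0 : ℝ) < A.card := by exact_mod_cast Nat.pos_of_ne_zero hA
  have hM := markov (Fintype.piFinset (fun _ : Fin n => C)) (Dfc A Z n) (fun y _ => Dfc_nonneg n y) _ (δ₁ * A.card) (by positivity) hsum
    (fun y => ¬ (((n : ℝ) / (n + 3) - ε) * A.card ≤ ((A.filter (fun a => ∃ j, 0 < Z a (y j))).card : ℝ) ∧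
      1 / (2 * L ^ n) * A.card ≤ ((A.filter (fun a => ∀ j, 0 < Z a (y j))).card : ℝ))) (by
      intro y hy hp
      by_contra hlt
      push Not at hlt
      rw [Fintype.mem_piFinset] at hy
      exact hp (small_defect hL hδ₁0.le hδ₁1 hδ₁2 n hn y (fun a ha j => h0 a ha _ (hy j)) (fun a ha j => h1 a ha _ (hy j)) hlt.le))
  refine hM.trans (le_of_eq ?_)
  field_simp

end

end Pool.Agent.Y851.PS
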