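import Pool.Agent.W301.SS.Good

/-! Selberg's function in the cells of a grid. -/

set_option autoImplicit false

namespace Pool.Agent.Y851.PS
open Finset Filter
open Pool.Agent.W301.SS (pn VV mv variance sel pn_le_VV)

lemma ev_logpow (k : ℕ) (s c : ℝ) (hs : 0 < s) (hc : 0 < c) : ∀ᶠ X : ℝ in atTop, Real.log X ^ k ≤ c * X ^ s := by
  have h := (isLittleO_log_rpow_rpow_atTop (k : ℝ) hs).bound hc
  filter_upwards [h, eventually_ge_atTop 1] with X hX hX1
  rw [Real.rpow_natCast, Real.norm_eq_abs, Real.norm_eq_abs, abs_of_nonneg (by positivity : (0 : ℝ) ≤ X ^ s)] at hX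
  exact (le_abs_self _).trans hX

/-- splitting an interval into residue classes -/
lemma grid_sum (f : ℕ → ℝ) (H I : ℕ) : ∑ o ∈ Ioc 0 H, ∑ i ∈ range I, f (o + i * H) = ∑ n ∈ Ioc 0 (I * H), f n := by
  induction I with
  | zero => simp
  | succ I ih =>
    simp_rw [sum_range_succ]
    rw [sum_add_distrib, ih]
    have h1 : Ioc 0 ((I + 1) * H) = Ioc 0 (I * H) ∪ Ioc (I * H) ((I + 1) * H) := by
      rw [Ioc_union_Ioc_eq_Ioc (Nat.zero_le _) (Nat.mul_le_mul_right H (Nat.le_succ I))]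
    rw [h1, sum_union]
    · congr 1
      have h2 : Ioc (I * H) ((I + 1) * H) = (Ioc 0 H).map (addRightEmbedding (I * H)) := by
        rw [map_add_right_Ioc]
        congr 1
        · ring
        · ring
      rw [h2, sum_map]
      rfl
    · rw [disjoint_left]
      intro n h2 h3
      rw [mem_Ioc] at h2 h3
      omega

/-- **Cells**: in a suitable grid of step `H` the primes in the cells are bounded by `m + E i`, and the `E i` are small on
average. -/
theorem cells (δ η τ : ℝ) (hδ : 0 < δ) (hδ1 : δ ≤ 1 / 4) (hη : 0 < η) (hη1 : η < 1) (hτ : 0 < τ) : ∀ᶠ X : ℝ in atTop,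
    ∃ (H o I : ℕ) (m : ℝ) (E : ℕ → ℝ), 1 ≤ H ∧ 1 ≤ o ∧ o ≤ H ∧ (H : ℝ) ≤ X ^ η ∧ 2 * X ≤ I * H ∧ 0 ≤ m ∧
      m * Real.log X ≤ 4 / (1 - 2 * δ) ∧ (∀ i, 0 ≤ E i) ∧
      (∀ i, X ^ (1 / 2 : ℝ) ≤ ((o + i * H : ℕ) : ℝ) → (pn (o + i * H) H : ℝ) ≤ H * (m + E i)) ∧
      (H * ∑ i ∈ range I, E i) * Real.log X ≤ τ * X := by
  have hδ4 : 0 < (1 - δ) / 4 := by linarith
  filter_upwards [ev_logpow 0 ((1 - δ) / 4) (1 / 3) hδ4 (by norm_num), ev_logpow 1 (1 / 2) 1 (by norm_num) one_pos,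
    ev_logpow 2 δ (τ ^ 2 / 36) hδ (by positivity), ev_logpow 18 η (τ ^ 2 / (72 * 2 ^ 16)) hη (by positivity),
    ev_logpow 0 η (1 / 2) hη (by norm_num), Real.tendsto_log_atTop.eventually_ge_atTop (4 / δ + 4), eventually_ge_atTop 16,
    ev_logpow 0 (1 - η) 1 (by linarith) one_pos]
    with X h1 h2 h3 h4 h5 h6 hX16 h7
  rw [pow_zero] at h1 h5 h7
  have hX0 : 0 < X := by linarith
  have hX1 : 1 ≤ X := by linarith
  set ℓ := Real.log X with hℓ
  have hd1 : 0 < 4 / δ := by positivity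
  have hℓ4 : 4 ≤ ℓ := by linarith
  have hℓ0 : 0 < ℓ := by linarith
  set D : ℕ := ⌊X ^ ((1 - δ) / 4)⌋₊ with hD
  have hDle : (D : ℝ) ≤ X ^ ((1 - δ) / 4) := Nat.floor_le (by positivity)
  have hD3 : 3 ≤ D := Nat.le_floor (by push_cast; linarith)
  have hDr : (3 : ℝ) ≤ D := by exact_mod_cast hD3
  have hDge : X ^ ((1 - δ) / 4) ≤ 2 * D := by
    have := Nat.lt_floor_add_one (X ^ ((1 - δ) / 4))
    rw [← hD] at this
    linarith
  have hlogD : (1 - 2 * δ) / 4 * ℓ ≤ Real.log D := by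
    have a1 := Real.log_le_log (by positivity) hDge
    rw [Real.log_rpow hX0, Real.log_mul (by norm_num) (by linarith)] at a1
    have a2 := Real.log_two_lt_d9
    have a3 : 1 ≤ δ * ℓ / 4 := by
      have : 4 / δ ≤ ℓ := by linarith
      rw [div_le_iff₀ hδ] at this
      linarith
    nlinarith
  have hlogD2 : 1 + 4 * Real.log D ≤ 2 * ℓ := by
    have a1 := Real.log_le_log (by linarith) hDle
    rw [Real.log_rpow hX0] at a1
    nlinarith
  have hlogD0 : 0 ≤ 1 + 4 * Real.log D := by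
    have := Real.log_nonneg (show (1 : ℝ) ≤ D by linarith)
    linarith
  have hD4 : (D : ℝ) ^ 4 ≤ X ^ (1 - δ) := by
    calc (D : ℝ) ^ 4 ≤ (X ^ ((1 - δ) / 4)) ^ 4 := pow_le_pow_left₀ (by positivity) hDle 4
      _ = _ := by
        rw [← Real.rpow_natCast, ← Real.rpow_mul hX0.le]
        congr 1; push_cast; ring
  have hDN : (D : ℝ) ≤ X ^ (1 / 2 : ℝ) :=
    hDle.trans (Real.rpow_le_rpow_of_exponent_le hX1 (by linarith))
  obtain ⟨l, l1, l2, l3, l4, l5⟩ := sel D hD3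
  -- the grid
  set H : ℕ := ⌊X ^ η⌋₊ with hH
  have hHle : (H : ℝ) ≤ X ^ η := Nat.floor_le (by positivity)
  have hHge : X ^ η / 2 ≤ H := by
    have := Nat.lt_floor_add_one (X ^ η)
    rw [← hH] at this
    linarith
  have hH1 : 1 ≤ H := Nat.le_floor (by push_cast; linarith)
  have hH0 : (0 : ℝ) < H := by exact_mod_cast hH1
  have hHX : (H : ℝ) ≤ X := hHle.trans (by
    calc X ^ η ≤ X ^ (1 : ℝ) := Real.rpow_le_rpow_of_exponent_le hX1 hη1.le
      _ = X := Real.rpow_one X)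
  set I : ℕ := ⌈2 * X / H⌉₊ with hI
  have hI1 : 2 * X / H ≤ I := Nat.le_ceil _
  have hI2 : (I : ℝ) < 2 * X / H + 1 := Nat.ceil_lt_add_one (by positivity)
  have hIH : 2 * X ≤ I * H := by
    rw [div_le_iff₀ hH0] at hI1; exact hI1
  have hI3 : (I : ℝ) ≤ 3 * X / H := by
    have : 1 ≤ X / H := by rw [le_div_iff₀ hH0]; linarith
    have e : 3 * X / H = 2 * X / H + X / H := by ring
    linarith
  have hI0 : (0 : ℝ) ≤ I := Nat.cast_nonneg _
  have hvar := variance l l2 D (by omega) l3 l5 (I * H) H hH1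
  have e1 : ((I * H : ℕ) : ℝ) / H = I := by
    push_cast; field_simp
  rw [e1] at hvar
  rw [← grid_sum] at hvar
  -- the offset
  obtain ⟨o, ho, hoo⟩ : ∃ o ∈ Ioc 0 H, ∑ i ∈ range I, (VV l D H (o + i * H) - mv l D) ^ 2 ≤
      (3 * (D : ℝ) ^ 4 + I * (1 + 4 * Real.log D) ^ 16) / H := by
    by_contra hcon
    push Not at hcon
    have hne : (Ioc 0 H).Nonempty := ⟨1, by rw [mem_Ioc]; omega⟩
    have := sum_lt_sum_of_nonempty hne hcon
    rw [sum_const, Nat.card_Ioc, nsmul_eq_mul, Nat.sub_zero] at this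
    have e2 : (H : ℝ) * ((3 * (D : ℝ) ^ 4 + I * (1 + 4 * Real.log D) ^ 16) / H) = 3 * (D : ℝ) ^ 4 + I * (1 + 4 * Real.log D) ^ 16 := by
      field_simp
    rw [e2] at this
    linarith
  rw [mem_Ioc] at ho
  refine ⟨H, o, I, mv l D, fun i => |VV l D H (o + i * H) - mv l D|, hH1, ho.1, ho.2, hHle, hIH, l3, ?_,
    fun i => abs_nonneg _, ?_, ?_⟩
  · have hpos : 0 < (1 - 2 * δ) / 4 * ℓ := by
      have : 0 < 1 - 2 * δ := by linarith
      positivity
    calc mv l D * ℓ ≤ (1 / Real.log D) * ℓ := by gcongr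
      _ ≤ (1 / ((1 - 2 * δ) / 4 * ℓ)) * ℓ := by gcongr
      _ = _ := by
        have : 1 - 2 * δ ≠ 0 := by linarith
        field_simp
  · intro i hi
    have h8 : D ≤ o + i * H := by
      have : (D : ℝ) ≤ ((o + i * H : ℕ) : ℝ) := hDN.trans hi
      exact_mod_cast this
    have h9 := pn_le_VV l1 (D := D) (by omega) hH1 h8
    rw [div_le_iff₀ hH0] at h9
    have h10 : VV l D H (o + i * H) ≤ mv l D + |VV l D H (o + i * H) - mv l D| := by
      have := le_abs_self (VV l D H (o + i * H) - mv l D)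
      linarith
    calc (pn (o + i * H) H : ℝ) ≤ VV l D H (o + i * H) * H := h9
      _ ≤ (mv l D + |VV l D H (o + i * H) - mv l D|) * H := by gcongr
      _ = _ := by ring
  · -- the average
    have hCS := Finset.sum_mul_sq_le_sq_mul_sq (range I) (fun _ => (1 : ℝ)) (fun i => |VV l D H (o + i * H) - mv l D|)
    simp only [one_mul, one_pow, sum_const, card_range, nsmul_eq_mul, mul_one, sq_abs] at hCS
    set SE := ∑ i ∈ range I, |VV l D H (o + i * H) - mv l D| with hSE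
    have hSE0 : 0 ≤ SE := sum_nonneg fun _ _ => abs_nonneg _
    have hW : (1 + 4 * Real.log D) ^ 16 ≤ 2 ^ 16 * ℓ ^ 16 := by
      calc (1 + 4 * Real.log D) ^ 16 ≤ (2 * ℓ) ^ 16 := pow_le_pow_left₀ hlogD0 hlogD2 16
        _ = _ := by ring
    have h8 : SE ^ 2 ≤ (3 * X / H) * ((3 * X ^ (1 - δ) + (3 * X / H) * (2 ^ 16 * ℓ ^ 16)) / H) := by
      calc SE ^ 2 ≤ I * ∑ i ∈ range I, (VV l D H (o + i * H) - mv l D) ^ 2 := hCS
        _ ≤ (3 * X / H) * ((3 * X ^ (1 - δ) + (3 * X / H) * (2 ^ 16 * ℓ ^ 16)) / H) := by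
            apply mul_le_mul hI3 (hoo.trans _) (sum_nonneg fun _ _ => sq_nonneg _) (by positivity)
            apply div_le_div_of_nonneg_right _ hH0.le
            gcongr
    -- the final inequality
    have e3 : X ^ (1 - δ) = X / X ^ δ := by
      rw [Real.rpow_sub hX0, Real.rpow_one]
    have hXδ : 0 < X ^ δ := by positivity
    have h9 : ((H * SE) * ℓ) ^ 2 ≤ (τ * X) ^ 2 := by
      calc ((H * SE) * ℓ) ^ 2 = H ^ 2 * ℓ ^ 2 * SE ^ 2 := by ring
        _ ≤ H ^ 2 * ℓ ^ 2 * ((3 * X / H) * ((3 * X ^ (1 - δ) + (3 * X / H) * (2 ^ 16 * ℓ ^ 16)) / H)) := by gcongr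
        _ = 9 * X ^ 2 * (ℓ ^ 2 / X ^ δ) + 9 * 2 ^ 16 * X ^ 2 * (ℓ ^ 18 / H) := by
            rw [e3]; field_simp; ring
        _ ≤ 9 * X ^ 2 * (τ ^ 2 / 36) + 9 * 2 ^ 16 * X ^ 2 * (2 * (τ ^ 2 / (72 * 2 ^ 16))) := by
            have a1 : ℓ ^ 2 / X ^ δ ≤ τ ^ 2 / 36 := by rw [div_le_iff₀ hXδ]; exact h3
            have a2 : ℓ ^ 18 / H ≤ 2 * (τ ^ 2 / (72 * 2 ^ 16)) := by
              rw [div_le_iff₀ hH0]
              calc ℓ ^ 18 ≤ τ ^ 2 / (72 * 2 ^ 16) * X ^ η := h4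
                _ ≤ τ ^ 2 / (72 * 2 ^ 16) * (2 * H) := by
                    apply mul_le_mul_of_nonneg_left _ (by positivity)
                    linarith
                _ = _ := by ring
            gcongr
        _ = 1 / 2 * (τ * X) ^ 2 := by ring
        _ ≤ (τ * X) ^ 2 := by
            have : 0 ≤ (τ * X) ^ 2 := by positivity
            linarith
    exact (pow_le_pow_iff_left₀ (by positivity) (by positivity) (by norm_num)).1 h9

end Pool.Agent.Y851.PS
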