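import Pool.Agent.Y851.PS.G12
import Pool.Agent.Helper923.PPS.BT

/-! Normalised counts of primes below products, upper bounds. -/

set_option autoImplicit false

namespace Pool.Agent.Y851.PS
open Finset Filter
open Pool.Agent.W301.SS (pn)

open Classical in
/-- the primes in `(x - x ^ ε, x)` -/
noncomputable def PF (ε x : ℝ) : Finset ℕ := (Icc 1 ⌊x⌋₊).filter (fun p => p.Prime ∧ x - x ^ ε < p ∧ (p : ℝ) < x)

lemma mem_PF {ε x : ℝ} (hx : 0 ≤ x) (p : ℕ) : p ∈ PF ε x ↔ p.Prime ∧ x - x ^ ε < p ∧ (p : ℝ) < x := by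
  classical
  unfold PF
  rw [mem_filter, mem_Icc]
  constructor
  · rintro ⟨_, h⟩; exact h
  · intro h
    exact ⟨⟨h.1.one_lt.le, Nat.le_floor h.2.2.le⟩, h⟩

open Classical in
/-- the normalised number of primes below `a c` -/
noncomputable def Zf (X ε θ κ : ℝ) (a : ℕ) (c : ℝ) : ℝ :=
  if κ * X ^ θ ≤ a ∧ κ * X ^ (1 - θ) ≤ c then ((PF ε (a * c)).card : ℝ) * Real.log X / (a * c) ^ ε else 0

/-- `C` is spread at the scale `X ^ (η - 1)` -/
structure Spr (B η θ X : ℝ) (C : Finset ℝ) : Prop where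
  pos : ∀ c ∈ C, 0 < c
  le : ∀ c ∈ C, c ≤ X ^ (1 - θ)
  spread : ∀ u : ℝ, ((C.filter (fun c => u ≤ c ∧ c ≤ u + X ^ (η - θ))).card : ℝ) ≤ B * X ^ (η - 1) * C.card

lemma Spr.long {B η θ X : ℝ} {C : Finset ℝ} (h : Spr B η θ X C) (hX : 0 < X) (hB : 0 ≤ B) (u L : ℝ) (hL : X ^ (η - θ) ≤ L) :
    ((C.filter (fun c => u ≤ c ∧ c ≤ u + L)).card : ℝ) ≤ 2 * B * L * X ^ (θ - 1) * C.card := by
  classical
  set l := X ^ (η - θ) with hl
  have hl0 : 0 < l := by positivity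
  set J := ⌊L / l⌋₊ with hJ
  have hJ1 : (J : ℝ) ≤ L / l := Nat.floor_le (by have := hl0.le.trans hL; positivity)
  have hcov : C.filter (fun c => u ≤ c ∧ c ≤ u + L) ⊆ (range (J + 1)).biUnion (fun j : ℕ => C.filter (fun c => u + j * l ≤ c ∧ c ≤ u + j * l + l)) := by
    intro c hc
    rw [mem_filter] at hc
    rw [mem_biUnion]
    refine ⟨⌊(c - u) / l⌋₊, ?_, ?_⟩
    · rw [mem_range, Nat.lt_succ_iff]
      apply Nat.floor_mono
      apply div_le_div_of_nonneg_right _ hl0.le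
      linarith [hc.2.2]
    · rw [mem_filter]
      have h1 : 0 ≤ (c - u) / l := by
        apply div_nonneg _ hl0.le
        linarith [hc.2.1]
      have h2 := Nat.floor_le h1
      have h3 := Nat.lt_floor_add_one ((c - u) / l)
      rw [le_div_iff₀ hl0] at h2
      rw [div_lt_iff₀ hl0] at h3
      exact ⟨hc.1, by linarith, by linarith⟩
  have h1 : ((C.filter (fun c => u ≤ c ∧ c ≤ u + L)).card : ℝ) ≤ ∑ j ∈ range (J + 1), B * X ^ (η - 1) * C.card := by
    calc ((C.filter (fun c => u ≤ c ∧ c ≤ u + L)).card : ℝ)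
        ≤ (((range (J + 1)).biUnion (fun j : ℕ => C.filter (fun c => u + j * l ≤ c ∧ c ≤ u + j * l + l))).card : ℝ) := by
          exact_mod_cast card_le_card hcov
      _ ≤ ∑ j ∈ range (J + 1), ((C.filter (fun c => u + j * l ≤ c ∧ c ≤ u + j * l + l)).card : ℝ) := by
          exact_mod_cast card_biUnion_le
      _ ≤ _ := sum_le_sum fun j _ => h.spread (u + j * l)
  rw [sum_const, card_range, nsmul_eq_mul] at h1
  push_cast at h1
  have h2 : (J : ℝ) + 1 ≤ 2 * (L / l) := by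
    have : 1 ≤ L / l := by rw [le_div_iff₀ hl0]; linarith
    linarith
  have h3 : X ^ (η - 1) / l = X ^ (θ - 1) := by
    rw [hl, ← Real.rpow_sub hX]; congr 1; ring
  calc ((C.filter (fun c => u ≤ c ∧ c ≤ u + L)).card : ℝ) ≤ ((J : ℝ) + 1) * (B * X ^ (η - 1) * C.card) := h1
    _ ≤ (2 * (L / l)) * (B * X ^ (η - 1) * C.card) := by
        apply mul_le_mul_of_nonneg_right h2 (by positivity)
    _ = 2 * B * L * (X ^ (η - 1) / l) * C.card := by ring
    _ = _ := by rw [h3]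

/-- Brun–Titchmarsh for `PF` -/
lemma PF_le (ε : ℝ) (hε : 0 < ε) : ∃ L x₀ : ℝ, 1 ≤ L ∧ 1 ≤ x₀ ∧ ∀ x : ℝ, x₀ ≤ x → ((PF ε x).card : ℝ) * Real.log x ≤ L * x ^ ε := by
  obtain ⟨C, hC, hBT⟩ := Pool.Agent.Helper923.PPS.brun_titchmarsh
  obtain ⟨x₁, hx₁⟩ := Filter.eventually_atTop.1 (ev_logpow 0 ε 1 hε one_pos)
  refine ⟨3 * C / ε + 1, max 2 x₁, by
    have : 0 ≤ 3 * C / ε := by positivity
    linarith, (by norm_num : (1 : ℝ) ≤ 2).trans (le_max_left _ _), fun x hx => ?_⟩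
  have hx2 : 2 ≤ x := (le_max_left _ _).trans hx
  have hxe : 1 ≤ x ^ ε := by
    have := hx₁ x ((le_max_right _ _).trans hx)
    rw [pow_zero, one_mul] at this
    exact this
  have hx0 : 0 < x := by linarith
  have hlogx : 0 < Real.log x := Real.log_pos (by linarith)
  set N := ⌈x ^ ε⌉₊ + 1 with hN
  have hN1 : x ^ ε + 1 ≤ N := by
    rw [hN]; push_cast
    linarith [Nat.le_ceil (x ^ ε)]
  have hN2 : (N : ℝ) ≤ 3 * x ^ ε := by
    rw [hN]; push_cast
    have := Nat.ceil_lt_add_one (show 0 ≤ x ^ ε by positivity)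
    linarith
  have hN3 : 2 ≤ N := by
    have : (2 : ℝ) ≤ N := by linarith
    exact_mod_cast this
  have h1 := hBT ⌊x - x ^ ε⌋₊ 1 N hN3 (Or.inl rfl)
  have hcount : ((PF ε x).card : ℝ) ≤ (((Finset.range N).filter (fun k => (⌊x - x ^ ε⌋₊ + k * 1).Prime)).card : ℝ) := by
    apply Nat.cast_le.2
    have hge : ∀ p ∈ PF ε x, ⌊x - x ^ ε⌋₊ ≤ p := by
      intro p hp
      rw [mem_PF hx0.le] at hp
      by_cases h0 : 0 ≤ x - x ^ ε
      · have : (⌊x - x ^ ε⌋₊ : ℝ) ≤ p := (Nat.floor_le h0).trans hp.2.1.le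
        exact_mod_cast this
      · rw [Nat.floor_of_nonpos (not_le.1 h0).le]
        exact Nat.zero_le _
    apply card_le_card_of_injOn (fun p => p - ⌊x - x ^ ε⌋₊)
    · intro p hp
      rw [mem_coe] at hp
      have h4 := hge p hp
      rw [mem_PF hx0.le] at hp
      rw [mem_coe, mem_filter, mem_range]
      constructor
      · have h5 : ((p - ⌊x - x ^ ε⌋₊ : ℕ) : ℝ) < N := by
          rw [Nat.cast_sub h4]
          have h6 : x - x ^ ε < ⌊x - x ^ ε⌋₊ + 1 := Nat.lt_floor_add_one _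
          linarith [hp.2.2]
        exact_mod_cast h5
      · have h5 : ⌊x - x ^ ε⌋₊ + (p - ⌊x - x ^ ε⌋₊) * 1 = p := by omega
        rw [h5]
        exact hp.1
    · intro p hp q hq hpq
      have h2 := hge p hp
      have h3 := hge q hq
      simp only at hpq
      omega
  have hlogN : ε * Real.log x ≤ Real.log N := by
    rw [← Real.log_rpow hx0]
    exact Real.log_le_log (by positivity) (by linarith)
  have h2 : ((PF ε x).card : ℝ) ≤ C * (3 * x ^ ε) / (ε * Real.log x) := by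
    refine (hcount.trans h1).trans ?_
    gcongr
  calc ((PF ε x).card : ℝ) * Real.log x ≤ (C * (3 * x ^ ε) / (ε * Real.log x)) * Real.log x := by gcongr
    _ = 3 * C / ε * x ^ ε := by field_simp
    _ ≤ (3 * C / ε + 1) * x ^ ε := by
        apply mul_le_mul_of_nonneg_right _ (by positivity)
        linarith

lemma Zf_nonneg {X ε θ κ : ℝ} (hX : 1 ≤ X) (a : ℕ) {c : ℝ} (hc : 0 < c) : 0 ≤ Zf X ε θ κ a c := by
  unfold Zf
  split_ifs
  · have := Real.log_nonneg hX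
    positivity
  · exact le_rfl

/-- range of the products -/
lemma prod_range {X θ κ : ℝ} (hX : 0 < X) (hκ : 0 < κ) {a : ℕ} {c : ℝ} (ha : κ * X ^ θ ≤ a) (hc : κ * X ^ (1 - θ) ≤ c)
    (ha2 : (a : ℝ) ≤ X ^ θ) (hc2 : c ≤ X ^ (1 - θ)) : κ ^ 2 * X ≤ a * c ∧ a * c ≤ X := by
  have e : X ^ θ * X ^ (1 - θ) = X := by
    rw [← Real.rpow_add hX]
    have : θ + (1 - θ) = 1 := by ring
    rw [this, Real.rpow_one]
  have h1 : 0 < X ^ θ := by positivity
  have h2 : 0 < X ^ (1 - θ) := by positivity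
  constructor
  · calc κ ^ 2 * X = κ ^ 2 * (X ^ θ * X ^ (1 - θ)) := by rw [e]
      _ = (κ * X ^ θ) * (κ * X ^ (1 - θ)) := by ring
      _ ≤ a * c := mul_le_mul ha hc (by positivity) (Nat.cast_nonneg _)
  · calc (a : ℝ) * c ≤ X ^ θ * X ^ (1 - θ) := by
          apply mul_le_mul ha2 hc2 _ h1.le
          exact le_trans (by positivity) hc
      _ = X := e

/-- the normalised counts are bounded -/
lemma Zf_bound (ε θ κ : ℝ) (hε : 0 < ε) (hκ : 0 < κ) : ∃ L : ℝ, 1 ≤ L ∧ ∀ᶠ X : ℝ in atTop,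
    ∀ (a : ℕ) (c : ℝ), (a : ℝ) ≤ X ^ θ → 0 < c → c ≤ X ^ (1 - θ) → Zf X ε θ κ a c ≤ L := by
  obtain ⟨L, x₀, hL, hx₀, h⟩ := PF_le ε hε
  refine ⟨2 * L, by linarith, ?_⟩
  filter_upwards [eventually_ge_atTop (max (x₀ / κ ^ 2) 2), ev_logpow 0 (1 / 2) (κ ^ 2) (by norm_num) (by positivity)] with X hX h1 a c ha hc hc2
  have hX1 : x₀ / κ ^ 2 ≤ X := (le_max_left _ _).trans hX
  have hX2 : 2 ≤ X := (le_max_right _ _).trans hX
  have hX0 : 0 < X := by linarith
  unfold Zf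
  split_ifs with hcond
  · obtain ⟨h2, h3⟩ := prod_range hX0 hκ hcond.1 hcond.2 ha hc2
    have h4 : x₀ ≤ a * c := by
      rw [div_le_iff₀ (by positivity)] at hX1
      linarith
    have h5 := h (a * c) h4
    have h6 : 0 < (a : ℝ) * c := by linarith
    rw [pow_zero] at h1
    have h7 : X ^ (1 / 2 : ℝ) ≤ a * c := by
      have e : X = X ^ (1 / 2 : ℝ) * X ^ (1 / 2 : ℝ) := by rw [← Real.rpow_add hX0]; norm_num
      calc X ^ (1 / 2 : ℝ) = 1 * X ^ (1 / 2 : ℝ) := (one_mul _).symm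
        _ ≤ (κ ^ 2 * X ^ (1 / 2 : ℝ)) * X ^ (1 / 2 : ℝ) := by gcongr
        _ = κ ^ 2 * X := by rw [mul_assoc, ← e]
        _ ≤ _ := h2
    have h8 : Real.log X ≤ 2 * Real.log (a * c) := by
      have := Real.log_le_log (by positivity) h7
      rw [Real.log_rpow hX0] at this
      linarith
    rw [div_le_iff₀ (by positivity)]
    calc ((PF ε (a * c)).card : ℝ) * Real.log X ≤ ((PF ε (a * c)).card : ℝ) * (2 * Real.log (a * c)) := by gcongr
      _ = 2 * (((PF ε (a * c)).card : ℝ) * Real.log (a * c)) := by ring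
      _ ≤ 2 * (L * (a * c) ^ ε) := by linarith
      _ = _ := by ring
  · linarith

end Pool.Agent.Y851.PS
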