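import Pool.Agent.Y851.PS.G13

/-! The upper bound for the normalised counts, on average. -/

set_option autoImplicit false

namespace Pool.Agent.Y851.PS
open Finset Filter
open Pool.Agent.W301.SS (pn)

open Classical in
/-- the cells meeting `(x - x ^ ε, x)` -/
noncomputable def IX (ε : ℝ) (H o I : ℕ) (x : ℝ) : Finset ℕ :=
  (range I).filter (fun i => x - x ^ ε < ((o + i * H : ℕ) : ℝ) + H ∧ ((o + i * H : ℕ) : ℝ) < x)

lemma IX_card (ε : ℝ) (H o I : ℕ) (hH : 1 ≤ H) (x : ℝ) (hx : 0 ≤ x) : ((IX ε H o I x).card : ℝ) * H ≤ x ^ ε + 2 * H := by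
  classical
  have hH0 : (0 : ℝ) < H := by exact_mod_cast hH
  have hxe : 0 ≤ x ^ ε := by positivity
  rcases (IX ε H o I x).eq_empty_or_nonempty with h | h
  · rw [h, card_empty, Nat.cast_zero, zero_mul]
    positivity
  · set i0 := (IX ε H o I x).min' h with hi0
    have h0 : i0 ∈ IX ε H o I x := min'_mem _ _
    unfold IX at h0
    rw [mem_filter] at h0
    have hsub : IX ε H o I x ⊆ Icc i0 (i0 + ⌊(x ^ ε + H) / H⌋₊) := by
      intro i hi
      have h1 : i0 ≤ i := min'_le _ _ hi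
      unfold IX at hi
      rw [mem_filter] at hi
      rw [mem_Icc]
      refine ⟨h1, ?_⟩
      have h2 : ((i - i0 : ℕ) : ℝ) ≤ (x ^ ε + H) / H := by
        rw [Nat.cast_sub h1, le_div_iff₀ hH0]
        have h3 := hi.2.2
        have h4 := h0.2.1
        push_cast at h3 h4
        linarith
      have h3 := Nat.le_floor h2
      omega
    have h1 := card_le_card hsub
    rw [Nat.card_Icc] at h1
    have h2 : (((IX ε H o I x).card : ℕ) : ℝ) ≤ (x ^ ε + H) / H + 1 := by
      have h3 : (((IX ε H o I x).card : ℕ) : ℝ) ≤ ((i0 + ⌊(x ^ ε + H) / H⌋₊ + 1 - i0 : ℕ) : ℝ) := by exact_mod_cast h1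
      have h4 : i0 + ⌊(x ^ ε + H) / H⌋₊ + 1 - i0 = ⌊(x ^ ε + H) / H⌋₊ + 1 := by omega
      rw [h4] at h3
      push_cast at h3
      have := Nat.floor_le (show 0 ≤ (x ^ ε + H) / H by positivity)
      linarith
    calc ((IX ε H o I x).card : ℝ) * H ≤ ((x ^ ε + H) / H + 1) * H := by gcongr
      _ = x ^ ε + 2 * H := by field_simp; ring

lemma PF_cells (ε : ℝ) (H o I : ℕ) (hH : 1 ≤ H) (ho : o ≤ H) (x : ℝ) (hx : 0 ≤ x) (hIH : x ≤ I * H) (hlow : (H : ℝ) + 1 ≤ x - x ^ ε) :
    ((PF ε x).card : ℝ) ≤ ∑ i ∈ IX ε H o I x, (pn (o + i * H) H : ℝ) := by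
  classical
  have hH0 : (0 : ℝ) < H := by exact_mod_cast hH
  have hsub : PF ε x ⊆ (IX ε H o I x).biUnion (fun i => (Ioc (o + i * H) (o + i * H + H)).filter Nat.Prime) := by
    intro p hp
    rw [mem_PF hx] at hp
    have hop : o < p := by
      have h1 : ((H : ℕ) : ℝ) < p := by linarith [hp.2.1]
      have h2 : H < p := by exact_mod_cast h1
      omega
    set i := (p - o - 1) / H with hi
    have h1 : i * H ≤ p - o - 1 := Nat.div_mul_le_self _ _
    have h2 : p - o - 1 < i * H + H := by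
      have := Nat.lt_div_mul_add (a := p - o - 1) (b := H) (by omega)
      rw [← hi] at this
      exact this
    have h3 : o + i * H < p := by omega
    have h4 : p ≤ o + i * H + H := by omega
    have h3r : ((o + i * H : ℕ) : ℝ) < p := by exact_mod_cast h3
    have h4r : (p : ℝ) ≤ ((o + i * H : ℕ) : ℝ) + H := by exact_mod_cast h4
    rw [mem_biUnion]
    refine ⟨i, ?_, ?_⟩
    · unfold IX
      rw [mem_filter, mem_range]
      refine ⟨?_, by linarith [hp.2.1], by linarith [hp.2.2]⟩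
      have h5 : ((i * H : ℕ) : ℝ) < ((I * H : ℕ) : ℝ) := by
        have h6 : ((i * H : ℕ) : ℝ) ≤ ((o + i * H : ℕ) : ℝ) := by
          exact_mod_cast Nat.le_add_left _ _
        push_cast at h6 h3r ⊢
        linarith [hp.2.2]
      have h6 : i * H < I * H := by exact_mod_cast h5
      exact Nat.lt_of_mul_lt_mul_right h6
    · rw [mem_filter, mem_Ioc]
      exact ⟨⟨h3, h4⟩, hp.1⟩
  calc ((PF ε x).card : ℝ) ≤ (((IX ε H o I x).biUnion (fun i => (Ioc (o + i * H) (o + i * H + H)).filter Nat.Prime)).card : ℝ) := by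
        exact_mod_cast card_le_card hsub
    _ ≤ ∑ i ∈ IX ε H o I x, (((Ioc (o + i * H) (o + i * H + H)).filter Nat.Prime).card : ℝ) := by
        exact_mod_cast card_biUnion_le
    _ = _ := rfl

/-- **Upper bound on average.** -/
theorem upp (B ε θ η κ δ : ℝ) (hB : 1 ≤ B) (hηε : η < ε) (hε : 0 < ε) (hε1 : ε < 1) (hκ : 0 < κ) (hκ1 : κ ≤ 1)
    (hδ : 0 < δ) : ∀ᶠ X : ℝ in atTop, ∀ (A : Finset ℕ) (C : Finset ℝ), (∀ a ∈ A, (a : ℝ) ≤ X ^ θ) → Spr B η θ X C →
    ∑ a ∈ A, ∑ c ∈ C, max 0 (Zf X ε θ κ a c - 4) ≤ δ * (A.card * C.card) := by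
  classical
  set K2 : ℝ := (κ ^ 2) ^ ε with hK2
  have hK20 : 0 < K2 := by positivity
  have hB0 : 0 < B := by linarith
  set δ₁ : ℝ := min (1 / 4) (δ / 64) with hδ₁
  have hδ₁0 : 0 < δ₁ := lt_min (by norm_num) (by positivity)
  have hδ₁1 : δ₁ ≤ 1 / 4 := min_le_left _ _
  have hδ₁2 : δ₁ ≤ δ / 64 := min_le_right _ _
  have h4 : 4 / (1 - 2 * δ₁) ≤ 4 + δ / 4 := by
    rw [div_le_iff₀ (by linarith)]
    nlinarith
  have h48 : 4 / (1 - 2 * δ₁) ≤ 8 := by
    rw [div_le_iff₀ (by linarith)]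
    linarith
  filter_upwards [cells δ₁ (ε / 2) (δ * κ * K2 / (8 * B)) hδ₁0 hδ₁1 (by linarith) (by linarith) (by positivity),
    ev_logpow 0 (ε / 2) (δ * K2 / 64) (by linarith) (by positivity), ev_logpow 0 (1 - ε) (κ ^ 2 / 8) (by linarith) (by positivity),
    ev_logpow 0 (1 / 2) (κ ^ 2 / 8) (by norm_num) (by positivity), eventually_ge_atTop 2,
    ev_logpow 0 1 (κ ^ 2 / 8) (by norm_num) (by positivity)]
    with X hcells hX1 hX2 hX3 hX4 hX5 A C hA hC
  rw [pow_zero] at hX1 hX2 hX3 hX5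
  rw [Real.rpow_one] at hX5
  obtain ⟨H, o, I, m, E, hH, ho1, hoH, hHX, hIH, hm0, hm, hE0, hpn, hEs⟩ := hcells
  have hX0 : 0 < X := by linarith
  have hX1' : 1 ≤ X := by linarith
  have hlog : 0 ≤ Real.log X := Real.log_nonneg hX1'
  have hH0 : (0 : ℝ) < H := by exact_mod_cast hH
  have hXε : X ^ ε ≤ κ ^ 2 / 8 * X := by
    calc X ^ ε = 1 * X ^ ε := (one_mul _).symm
      _ ≤ (κ ^ 2 / 8 * X ^ (1 - ε)) * X ^ ε := by gcongr
      _ = κ ^ 2 / 8 * X := by
        rw [mul_assoc, ← Real.rpow_add hX0]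
        have : 1 - ε + ε = 1 := by ring
        rw [this, Real.rpow_one]
  have hXh : X ^ (1 / 2 : ℝ) ≤ κ ^ 2 / 8 * X := by
    calc X ^ (1 / 2 : ℝ) = 1 * X ^ (1 / 2 : ℝ) := (one_mul _).symm
      _ ≤ (κ ^ 2 / 8 * X ^ (1 / 2 : ℝ)) * X ^ (1 / 2 : ℝ) := by gcongr
      _ = κ ^ 2 / 8 * X := by
        rw [mul_assoc, ← Real.rpow_add hX0]
        norm_num
  have hHXε : (H : ℝ) ≤ X ^ ε := hHX.trans (Real.rpow_le_rpow_of_exponent_le hX1' (by linarith))
  have hHsmall : (H : ℝ) ≤ δ / 64 * (K2 * X ^ ε) := by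
    calc (H : ℝ) ≤ 1 * X ^ (ε / 2) := by rw [one_mul]; exact hHX
      _ ≤ (δ * K2 / 64 * X ^ (ε / 2)) * X ^ (ε / 2) := by gcongr
      _ = δ / 64 * (K2 * (X ^ (ε / 2) * X ^ (ε / 2))) := by ring
      _ = _ := by rw [← Real.rpow_add hX0, add_halves]
  -- pointwise
  set F : ℝ := Real.log X * H / (K2 * X ^ ε) with hF
  have hF0 : 0 ≤ F := by positivity
  have hpt : ∀ a ∈ A, ∀ c ∈ C, max 0 (Zf X ε θ κ a c - 4) ≤
      δ / 2 + F * (if κ * X ^ θ ≤ a then ∑ i ∈ IX ε H o I (a * c), E i else 0) := by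
    intro a ha c hc
    have hsn : 0 ≤ (if κ * X ^ θ ≤ a then ∑ i ∈ IX ε H o I (a * c), E i else 0) := by
      split_ifs
      · exact sum_nonneg fun i _ => hE0 i
      · exact le_rfl
    apply max_le (by positivity)
    unfold Zf
    split_ifs with hcond h5
    · obtain ⟨h2, h3⟩ := prod_range hX0 hκ hcond.1 hcond.2 (hA a ha) (hC.le c hc)
      set x : ℝ := a * c with hx
      have hx0 : 0 < x := by
        have : 0 < κ ^ 2 * X := by positivity
        linarith
      have hxe : K2 * X ^ ε ≤ x ^ ε := by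
        rw [hK2, ← Real.mul_rpow (by positivity) hX0.le]
        exact Real.rpow_le_rpow (by positivity) h2 hε.le
      have hxe2 : x ^ ε ≤ X ^ ε := Real.rpow_le_rpow hx0.le h3 hε.le
      have hxe0 : 0 < x ^ ε := by positivity
      have h6 := PF_cells ε H o I hH hoH x hx0.le (by linarith) (by linarith)
      have h7 : ∑ i ∈ IX ε H o I x, (pn (o + i * H) H : ℝ) ≤ ∑ i ∈ IX ε H o I x, H * (m + E i) := by
        apply sum_le_sum
        intro i hi
        apply hpn
        unfold IX at hi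
        rw [mem_filter] at hi
        linarith [hi.2.1]
      have h8 := IX_card ε H o I hH x hx0.le
      have h9 : ∑ i ∈ IX ε H o I x, (H : ℝ) * (m + E i) = m * ((IX ε H o I x).card * H) + H * ∑ i ∈ IX ε H o I x, E i := by
        rw [← mul_sum, sum_add_distrib, sum_const, nsmul_eq_mul]
        ring
      have h10 : ((PF ε x).card : ℝ) ≤ m * (x ^ ε + 2 * H) + H * ∑ i ∈ IX ε H o I x, E i := by
        rw [h9] at h7
        have := mul_le_mul_of_nonneg_left h8 hm0
        linarith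
      have hSE : 0 ≤ ∑ i ∈ IX ε H o I x, E i := sum_nonneg fun i _ => hE0 i
      have h11 : ((PF ε x).card : ℝ) * Real.log X / x ^ ε ≤ (m * Real.log X) * (1 + 2 * H / x ^ ε) + F * ∑ i ∈ IX ε H o I x, E i := by
        calc ((PF ε x).card : ℝ) * Real.log X / x ^ ε ≤ (m * (x ^ ε + 2 * H) + H * ∑ i ∈ IX ε H o I x, E i) * Real.log X / x ^ ε := by gcongr
          _ = (m * Real.log X) * (1 + 2 * H / x ^ ε) + (Real.log X * H / x ^ ε) * ∑ i ∈ IX ε H o I x, E i := by
            field_simp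
          _ ≤ _ := by
            have : Real.log X * H / x ^ ε ≤ F := by
              rw [hF]
              gcongr
            gcongr
      have h12 : 2 * H / x ^ ε ≤ δ / 32 := by
        rw [div_le_iff₀ hxe0]
        have : δ / 64 * (K2 * X ^ ε) ≤ δ / 64 * x ^ ε := by gcongr
        linarith
      have h13 : (m * Real.log X) * (1 + 2 * H / x ^ ε) ≤ 4 + δ / 2 := by
        have a0 : 0 ≤ m * Real.log X := by positivity
        have a1 : (m * Real.log X) * (2 * H / x ^ ε) ≤ 8 * (δ / 32) := by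
          apply mul_le_mul (by linarith) h12 (by positivity) (by norm_num)
        calc (m * Real.log X) * (1 + 2 * H / x ^ ε) = m * Real.log X + (m * Real.log X) * (2 * H / x ^ ε) := by ring
          _ ≤ (4 + δ / 4) + 8 * (δ / 32) := by linarith
          _ = _ := by ring
      linarith
    · exact absurd hcond.1 h5
    · have : 0 ≤ F * ∑ i ∈ IX ε H o I (a * c), E i := mul_nonneg hF0 (sum_nonneg fun i _ => hE0 i)
      linarith
    · linarith
  -- summation
  have hcount : ∀ a ∈ A, (κ * X ^ θ ≤ a) → ∀ i ∈ range I, ((C.filter (fun c => i ∈ IX ε H o I (a * c))).card : ℝ) ≤ 4 * B / κ * X ^ (ε - 1) * C.card := by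
    intro a ha haκ i _
    have hXθ : 0 < X ^ θ := by positivity
    have ha0 : (0 : ℝ) < a := lt_of_lt_of_le (by positivity) haκ
    have hL : X ^ (η - θ) ≤ 2 / κ * X ^ (ε - θ) := by
      have h5 : X ^ (η - θ) ≤ X ^ (ε - θ) := Real.rpow_le_rpow_of_exponent_le hX1' (by linarith)
      have h6 : 1 ≤ 2 / κ := by rw [le_div_iff₀ hκ]; linarith
      have h7 : 0 ≤ X ^ (ε - θ) := by positivity
      nlinarith
    have h5 := hC.long hX0 hB0.le (((o + i * H : ℕ) : ℝ) / a) (2 / κ * X ^ (ε - θ)) hL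
    refine le_trans ?_ (h5.trans (le_of_eq ?_))
    · apply Nat.cast_le.2
      apply card_le_card
      intro c hc
      rw [mem_filter] at hc ⊢
      obtain ⟨hcC, hc2⟩ := hc
      unfold IX at hc2
      rw [mem_filter] at hc2
      refine ⟨hcC, ?_, ?_⟩
      · rw [div_le_iff₀ ha0]
        linarith [hc2.2.2, mul_comm c (a : ℝ)]
      · have hcp := hC.pos c hcC
        have h6 : (a : ℝ) * c ≤ X := by
          calc (a : ℝ) * c ≤ X ^ θ * X ^ (1 - θ) := by
                apply mul_le_mul (hA a ha) (hC.le c hcC) hcp.le (by positivity)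
            _ = X := by
                rw [← Real.rpow_add hX0]
                have : θ + (1 - θ) = 1 := by ring
                rw [this, Real.rpow_one]
        have h7 : ((a : ℝ) * c) ^ ε ≤ X ^ ε := Real.rpow_le_rpow (by positivity) h6 hε.le
        have h8 : (a : ℝ) * c ≤ ((o + i * H : ℕ) : ℝ) + 2 * X ^ ε := by linarith [hc2.2.1]
        have h9 : c ≤ (((o + i * H : ℕ) : ℝ) + 2 * X ^ ε) / a := by
          rw [le_div_iff₀ ha0]; linarith
        refine h9.trans ?_
        rw [add_div]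
        have h10 : 2 * X ^ ε / a ≤ 2 / κ * X ^ (ε - θ) := by
          rw [Real.rpow_sub hX0]
          calc 2 * X ^ ε / a ≤ 2 * X ^ ε / (κ * X ^ θ) := by gcongr
            _ = _ := by field_simp
        linarith
    · have e : X ^ (ε - θ) * X ^ (θ - 1) = X ^ (ε - 1) := by
        rw [← Real.rpow_add hX0]
        congr 1; ring
      calc 2 * B * (2 / κ * X ^ (ε - θ)) * X ^ (θ - 1) * C.card = 4 * B / κ * (X ^ (ε - θ) * X ^ (θ - 1)) * C.card := by ring
        _ = _ := by rw [e]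
  have hSum : ∑ a ∈ A, ∑ c ∈ C, (if κ * X ^ θ ≤ a then ∑ i ∈ IX ε H o I (a * c), E i else 0) ≤
      A.card * ((4 * B / κ * X ^ (ε - 1) * C.card) * ∑ i ∈ range I, E i) := by
    have h5 : ∀ a ∈ A, ∑ c ∈ C, (if κ * X ^ θ ≤ a then ∑ i ∈ IX ε H o I (a * c), E i else 0) ≤ (4 * B / κ * X ^ (ε - 1) * C.card) * ∑ i ∈ range I, E i := by
      intro a ha
      by_cases haκ : κ * X ^ θ ≤ a
      · simp only [haκ, if_true]
        have h6 : ∀ c ∈ C, ∑ i ∈ IX ε H o I (a * c), E i = ∑ i ∈ range I, if i ∈ IX ε H o I (a * c) then E i else 0 := by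
          intro c _
          rw [← sum_filter]
          apply sum_congr _ fun _ _ => rfl
          ext i
          rw [mem_filter]
          constructor
          · intro h; exact ⟨by unfold IX at h; exact (mem_filter.1 h).1, h⟩
          · intro h; exact h.2
        rw [sum_congr rfl h6, sum_comm, mul_sum]
        apply sum_le_sum
        intro i hi
        rw [← sum_filter, sum_const, nsmul_eq_mul]
        exact mul_le_mul_of_nonneg_right (hcount a ha haκ i hi) (hE0 i)
      · simp only [haκ, if_false, sum_const_zero]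
        have := sum_nonneg fun i (_ : i ∈ range I) => hE0 i
        positivity
    refine (sum_le_sum h5).trans (le_of_eq ?_)
    rw [sum_const, nsmul_eq_mul]
  calc ∑ a ∈ A, ∑ c ∈ C, max 0 (Zf X ε θ κ a c - 4)
      ≤ ∑ a ∈ A, ∑ c ∈ C, (δ / 2 + F * (if κ * X ^ θ ≤ a then ∑ i ∈ IX ε H o I (a * c), E i else 0)) :=
        sum_le_sum fun a ha => sum_le_sum fun c hc => hpt a ha c hc
    _ = δ / 2 * (A.card * C.card) + F * ∑ a ∈ A, ∑ c ∈ C, (if κ * X ^ θ ≤ a then ∑ i ∈ IX ε H o I (a * c), E i else 0) := by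
        simp_rw [sum_add_distrib, sum_const, nsmul_eq_mul, mul_sum]
        ring
    _ ≤ δ / 2 * (A.card * C.card) + F * (A.card * ((4 * B / κ * X ^ (ε - 1) * C.card) * ∑ i ∈ range I, E i)) := by gcongr
    _ = δ / 2 * (A.card * C.card) + ((H * ∑ i ∈ range I, E i) * Real.log X) * (4 * B / (κ * K2 * X) * (A.card * C.card)) := by
        rw [hF]
        have e : X ^ (ε - 1) = X ^ ε / X := by rw [Real.rpow_sub hX0, Real.rpow_one]
        rw [e]
        have : 0 < X ^ ε := by positivity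
        field_simp
    _ ≤ δ / 2 * (A.card * C.card) + (δ * κ * K2 / (8 * B) * X) * (4 * B / (κ * K2 * X) * (A.card * C.card)) := by gcongr
    _ = δ * (A.card * C.card) := by
        field_simp
        ring

end Pool.Agent.Y851.PS
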