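import Pool.Agent.Y851.PS.G7

/-! The block theorem. -/

set_option autoImplicit false

namespace Pool.Agent.Y851.PS
open Finset
open Pool.Agent.H376R2.MR (Fj FK ch Fj_nonneg Fj_le kern_ch_er ls_norm_ch er)
open Pool.Agent.H376R2.MR renaming w → tw

/-- a majorant of `A` with small transform -/
structure Maj (A : Finset ℕ) (μ κ : ℝ) (T0 K : ℕ) : Prop where
  ex : ∃ (S : Finset ℕ) (ν : ℕ → ℝ), A ⊆ S ∧ (∀ n ∈ S, 0 ≤ ν n) ∧ (∀ a ∈ A, 1 ≤ ν a) ∧ ∑ n ∈ S, ν n ≤ μ * A.card ∧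
    ∀ k : ℤ, (T0 : ℤ) < |k| → |(k : ℝ)| ≤ 2 * K → ‖TF S ν (fun n : ℕ => Real.log n) k‖ ≤ κ * A.card

lemma log_grow (c : ℝ) (hc : 0 < c) : ∃ K : ℕ, 1 ≤ K ∧ 1 + Real.log (4 * K + 2) ≤ c * K := by
  have h1 : Filter.Tendsto (fun x : ℝ => Real.log x / x ^ (1 : ℝ)) Filter.atTop (nhds 0) :=
    (isLittleO_log_rpow_atTop (by norm_num)).tendsto_div_nhds_zero
  have h2 := h1.eventually (gt_mem_nhds (show (0 : ℝ) < c / 20 by positivity))
  obtain ⟨x₀, hx₀⟩ := Filter.eventually_atTop.1 h2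
  obtain ⟨K, hK⟩ : ∃ K : ℕ, K = max 1 (max ⌈x₀⌉₊ ⌈2 / c⌉₊) := ⟨_, rfl⟩
  have hK1 : 1 ≤ K := by rw [hK]; exact le_max_left _ _
  have hK1r : (1 : ℝ) ≤ K := by exact_mod_cast hK1
  have hK2 : x₀ ≤ K := by
    refine (Nat.le_ceil x₀).trans ?_
    have : ⌈x₀⌉₊ ≤ K := by rw [hK]; exact (le_max_left _ _).trans (le_max_right _ _)
    exact_mod_cast this
  have hK3 : 2 / c ≤ K := by
    refine (Nat.le_ceil _).trans ?_
    have : ⌈2 / c⌉₊ ≤ K := by rw [hK]; exact (le_max_right _ _).trans (le_max_right _ _)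
    exact_mod_cast this
  refine ⟨K, hK1, ?_⟩
  have h3 := hx₀ (4 * K + 2) (by linarith)
  rw [Real.rpow_one, div_lt_iff₀ (by positivity)] at h3
  rw [div_le_iff₀ hc] at hK3
  nlinarith

lemma Sh_pnt {γ : Type} (A : Finset ℕ) (C : Finset γ) (mc : γ → ℝ) (Y h2 δ : ℝ) (hh2 : 0 < h2)
    (hv : ∀ a ∈ A, ∀ c ∈ C, |Real.log a + mc c - Y| ≤ 1 / 2)
    (hp : ∀ v : ℝ, |v - Y| ≤ 1 / 2 →
      |∑ p ∈ (SPr Y).filter (fun p : ℕ => v - h2 < Real.log p ∧ Real.log p < v), xP Y p - h2| ≤ δ) :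
    |Sh A C mc (SPr Y) (xP Y) (fun p : ℕ => Real.log p) h2 / h2 - A.card * C.card| ≤ δ / h2 * (A.card * C.card) := by
  classical
  have e : Sh A C mc (SPr Y) (xP Y) (fun p : ℕ => Real.log p) h2 / h2 - A.card * C.card =
      (∑ a ∈ A, ∑ c ∈ C, (∑ p ∈ (SPr Y).filter (fun p : ℕ => Real.log a + mc c - h2 < Real.log p ∧ Real.log p < Real.log a + mc c), xP Y p - h2)) / h2 := by
    unfold Sh
    simp_rw [sum_sub_distrib, sum_const, nsmul_eq_mul]
    field_simp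
  rw [e, abs_div, abs_of_pos hh2, div_mul_eq_mul_div]
  apply div_le_div_of_nonneg_right _ hh2.le
  refine (abs_sum_le_sum_abs _ _).trans ?_
  have h1 : ∀ a ∈ A, |∑ c ∈ C, (∑ p ∈ (SPr Y).filter (fun p : ℕ => Real.log a + mc c - h2 < Real.log p ∧ Real.log p < Real.log a + mc c), xP Y p - h2)| ≤ C.card * δ := by
    intro a ha
    refine (abs_sum_le_sum_abs _ _).trans ?_
    refine (sum_le_sum fun c hc => ?_).trans (le_of_eq (show ∑ c ∈ C, δ = C.card * δ by rw [sum_const, nsmul_eq_mul]))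
    convert hp (Real.log a + mc c) (hv a ha c hc)
  refine (sum_le_sum h1).trans (le_of_eq ?_)
  rw [sum_const, nsmul_eq_mul]
  ring

/-- **The block theorem.** -/
theorem block (ε B δ : ℝ) (hε : 0 < ε) (hε1 : ε < 1) (hB : 1 ≤ B) (hδ : 0 < δ) : ∃ κ : ℝ, 0 < κ ∧ ∀ (μ : ℝ) (T0 : ℕ), 1 ≤ μ →
    ∃ h0 L0 Y₀ : ℝ, 0 < h0 ∧ 1 ≤ L0 ∧ ∀ Y : ℝ, Y₀ ≤ Y → ∀ K : ℕ, 1 ≤ K → (K : ℝ) ≤ Real.exp ((1 - ε) * Y) →
    ∀ A : Finset ℕ, Maj A μ κ T0 K → ∀ (γ : Type) (C : Finset γ) (mc : γ → ℝ),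
    (∀ u : ℝ, ((C.filter (fun c => u ≤ mc c ∧ mc c < u + 1 / K)).card : ℝ) ≤ B * C.card / K) →
    (∀ c ∈ C, ∀ c' ∈ C, |mc c - mc c'| ≤ 4) → (∀ a ∈ A, ∀ c ∈ C, |Real.log a + mc c - Y| ≤ 1 / 2) →
    ∀ h : ℝ, 0 < h → h ≤ h0 → L0 * (1 + Real.log (4 * K + 2)) ≤ K * h →
    |Sh A C mc (SPr Y) (xP Y) (fun p : ℕ => Real.log p) h / h - A.card * C.card| ≤ δ * (A.card * C.card) := by
  classical
  obtain ⟨Q, Y1, hQ, hcell⟩ := SPr_cell ε hε hε1
  have hQ0 : 0 < Q := by linarith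
  have hB0 : 0 < B := by linarith
  refine ⟨(δ / 8) ^ 2 / (2 * (6400 * B * (144 * (1600 * Q)))), by positivity, fun μ T0 hμ => ?_⟩
  set κ := (δ / 8) ^ 2 / (2 * (6400 * B * (144 * (1600 * Q)))) with hκ
  have hκ0 : 0 < κ := by positivity
  have hμ0 : 0 < μ := by linarith
  -- η
  set η := min 1 ((δ / 8) ^ 2 / (2 * (6400 * B * ((2 * T0 + 1) * μ)))) with hη
  have hη0 : 0 < η := lt_min one_pos (by positivity)
  have hηsq : η ^ 2 ≤ (δ / 8) ^ 2 / (2 * (6400 * B * ((2 * T0 + 1) * μ))) := by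
    have h1 : η ≤ 1 := min_le_left _ _
    have h2 : η ≤ (δ / 8) ^ 2 / (2 * (6400 * B * ((2 * T0 + 1) * μ))) := min_le_right _ _
    nlinarith
  have hsqrt : √(6400 * B * ((2 * T0 + 1) * μ * η ^ 2 + κ * (144 * (1600 * Q)))) ≤ δ / 8 := by
    apply Real.sqrt_le_iff.2
    refine ⟨by positivity, ?_⟩
    have h1 : 6400 * B * ((2 * T0 + 1) * μ * η ^ 2) ≤ (δ / 8) ^ 2 / 2 := by
      calc 6400 * B * ((2 * T0 + 1) * μ * η ^ 2) = (6400 * B * ((2 * T0 + 1) * μ)) * η ^ 2 := by ring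
        _ ≤ (6400 * B * ((2 * T0 + 1) * μ)) * ((δ / 8) ^ 2 / (2 * (6400 * B * ((2 * T0 + 1) * μ)))) := by gcongr
        _ = (δ / 8) ^ 2 / 2 := by field_simp
    have h2 : 6400 * B * (κ * (144 * (1600 * Q))) = (δ / 8) ^ 2 / 2 := by
      rw [hκ]; field_simp
    rw [mul_add, h2]
    linarith
  obtain ⟨T, Y2, hsup⟩ := SPr_sup η hη0
  -- h2
  set h2 := min (1 / 2) (min (δ / 16) (δ / 16 / ((2 * T + 1) * T * 144 + 1))) with hh2
  have hh20 : 0 < h2 := lt_min (by norm_num) (lt_min (by positivity) (by positivity))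
  have hh21 : h2 ≤ 1 / 2 := min_le_left _ _
  have hh22 : h2 ≤ δ / 16 := (min_le_right _ _).trans (min_le_left _ _)
  have hh23 : (2 * (T : ℝ) + 1) * T * h2 * 144 ≤ δ / 16 := by
    have h1 : h2 ≤ δ / 16 / ((2 * T + 1) * T * 144 + 1) := (min_le_right _ _).trans (min_le_right _ _)
    rw [le_div_iff₀ (by positivity)] at h1
    linarith
  -- K₁
  obtain ⟨K₁, hK₁1, hK₁⟩ := log_grow (min (δ / 8 / (112 * Q) * h2) (h2)) (lt_min (by positivity) hh20)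
  have hK₁0 : (0 : ℝ) < K₁ := by exact_mod_cast hK₁1
  have hK₁a : 112 * Q * (1 + Real.log (4 * K₁ + 2)) / (K₁ * h2) ≤ δ / 8 := by
    rw [div_le_iff₀ (by positivity)]
    have h1 : 1 + Real.log (4 * K₁ + 2) ≤ (δ / 8 / (112 * Q) * h2) * K₁ :=
      hK₁.trans (mul_le_mul_of_nonneg_right (min_le_left _ _) hK₁0.le)
    calc 112 * Q * (1 + Real.log (4 * K₁ + 2)) ≤ 112 * Q * ((δ / 8 / (112 * Q) * h2) * K₁) := by gcongr
      _ = δ / 8 * (K₁ * h2) := by field_simp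
  have hK₁b : 1 / (K₁ : ℝ) ≤ h2 := by
    rw [div_le_iff₀ hK₁0]
    have h1 : 1 + Real.log (4 * K₁ + 2) ≤ h2 * K₁ := hK₁.trans (mul_le_mul_of_nonneg_right (min_le_right _ _) hK₁0.le)
    have h3 : 0 ≤ Real.log (4 * K₁ + 2) := Real.log_nonneg (by linarith)
    linarith
  obtain ⟨Y3, hpnt⟩ := pnt_win h2 (h2 * (δ / 16)) hh20 hh21 (by positivity)
  refine ⟨h2, max (max 1 K₁) (112 * 8 * Q / δ), max (max Y1 Y2) (max Y3 (max 1 (Real.log K₁ / (1 - ε)))), hh20,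
    (le_max_left _ _).trans (le_max_left _ _), ?_⟩
  intro Y hY K hK1 hKe A hA γ C mc hcC hmc hv h hh hhh0 hKh
  have hYa : Y1 ≤ Y := ((le_max_left _ _).trans (le_max_left _ _)).trans hY
  have hYb : Y2 ≤ Y := ((le_max_right _ _).trans (le_max_left _ _)).trans hY
  have hYc : Y3 ≤ Y := ((le_max_left _ _).trans (le_max_right _ _)).trans hY
  have hYd : 1 ≤ Y := (((le_max_left _ _).trans (le_max_right _ _)).trans (le_max_right _ _)).trans hY
  have hYe : Real.log K₁ / (1 - ε) ≤ Y := (((le_max_right _ _).trans (le_max_right _ _)).trans (le_max_right _ _)).trans hY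
  have hK0 : (0 : ℝ) < K := by exact_mod_cast hK1
  have hh1 : h ≤ 1 := by linarith
  have hlogK : 1 ≤ 1 + Real.log (4 * K + 2) := by
    have h3 : 0 ≤ Real.log (4 * (K : ℝ) + 2) := Real.log_nonneg (by linarith)
    linarith
  have hL1 : max (max (1 : ℝ) K₁) (112 * 8 * Q / δ) ≤ K * h := by
    refine le_trans ?_ hKh
    exact le_mul_of_one_le_right (by positivity) hlogK
  have hK₁K : K₁ ≤ K := by
    have h1 : (K₁ : ℝ) ≤ K * h := ((le_max_right _ _).trans (le_max_left _ _)).trans hL1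
    have h3 : (K : ℝ) * h ≤ K := by nlinarith
    exact_mod_cast h1.trans h3
  have hK₁e : (K₁ : ℝ) ≤ Real.exp ((1 - ε) * Y) := by
    refine le_trans ?_ hKe
    exact_mod_cast hK₁K
  obtain ⟨Sν, ν, hAS, hν0, hν1, hm, hfar⟩ := hA.ex
  have hKY : (K : ℝ) ≤ Real.exp Y := hKe.trans (Real.exp_le_exp.2 (by nlinarith))
  have hts := two_scales A Sν ν hAS hν0 hν1 C mc (SPr Y) (xP Y) (fun p : ℕ => Real.log p) (fun p _ => xP_nonneg Y p) K K₁ hK₁1
    hK₁K T T0 μ κ η B Q 144 h h2 hκ0.le hη0.le hμ0.le hQ0.le hB0.le hh hh1 hh20 (by linarith) hm (by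
      intro k hk l hl hkl
      apply hfar (k - l) hkl
      unfold Pool.Agent.H376R2.MR.FK at hk hl
      rw [mem_Ioo] at hk hl
      have h1 : |k - l| ≤ 2 * K := by rw [abs_le]; omega
      have h3 : (((|k - l| : ℤ)) : ℝ) ≤ ((2 * K : ℤ) : ℝ) := by exact_mod_cast h1
      rw [Int.cast_abs] at h3
      push_cast at h3 ⊢
      exact h3) (SPr_total Y) (hcell Y hYa K hK1 hKe) (hcell Y hYa K₁ hK₁1 hK₁e) hcC (by
      intro p hp q hq
      unfold SPr at hp hq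
      rw [mem_filter] at hp hq
      have h1 := abs_lt.1 hp.2.2
      have h3 := abs_lt.1 hq.2.2
      rw [abs_le]
      constructor <;> linarith) hmc (by
      intro a ha c hc p hp
      unfold SPr at hp
      rw [mem_filter] at hp
      have h1 := abs_lt.1 hp.2.2
      have h3 := abs_le.1 (hv a ha c hc)
      rw [abs_le]
      constructor <;> linarith) (by
      intro k hk hk2
      apply hsup Y hYb k hk2
      unfold Pool.Agent.H376R2.MR.FK at hk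
      rw [mem_Ioo] at hk
      have h1 : |k| ≤ K := by rw [abs_le]; omega
      have h3 : (((|k| : ℤ)) : ℝ) ≤ ((K : ℤ) : ℝ) := by exact_mod_cast h1
      rw [Int.cast_abs] at h3
      push_cast at h3
      linarith)
  have hpn := Sh_pnt A C mc Y h2 (h2 ^ 2 + h2 * (δ / 16)) hh20 hv (fun v hvY => by convert hpnt Y hYc v hvY)
  have hAC : (0 : ℝ) ≤ A.card * C.card := by positivity
  have c1 : 112 * Q * (1 + Real.log (4 * K + 2)) / (K * h) ≤ δ / 8 := by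
    rw [div_le_iff₀ (by positivity)]
    have h1 : 112 * 8 * Q / δ * (1 + Real.log (4 * K + 2)) ≤ K * h :=
      le_trans (mul_le_mul_of_nonneg_right (le_max_right _ _) (by linarith)) hKh
    have h3 : 112 * 8 * Q / δ * (1 + Real.log (4 * K + 2)) * (δ / 8) ≤ K * h * (δ / 8) := mul_le_mul_of_nonneg_right h1 (by positivity)
    calc 112 * Q * (1 + Real.log (4 * K + 2)) = 112 * 8 * Q / δ * (1 + Real.log (4 * K + 2)) * (δ / 8) := by field_simp
      _ ≤ K * h * (δ / 8) := h3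
      _ = δ / 8 * (K * h) := by ring
  have c2 : (2 * (T : ℝ) + 1) * T * (1 / K + 1 / K₁ + h + h2) * 144 ≤ δ / 4 := by
    have h1 : 1 / (K : ℝ) ≤ h2 := by
      refine le_trans ?_ hK₁b
      apply one_div_le_one_div_of_le hK₁0
      exact_mod_cast hK₁K
    calc (2 * (T : ℝ) + 1) * T * (1 / K + 1 / K₁ + h + h2) * 144 ≤ (2 * (T : ℝ) + 1) * T * (h2 + h2 + h2 + h2) * 144 := by gcongr
      _ = 4 * ((2 * (T : ℝ) + 1) * T * h2 * 144) := by ring
      _ ≤ δ / 4 := by linarith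
  have c3 : (h2 ^ 2 + h2 * (δ / 16)) / h2 ≤ δ / 8 := by
    rw [div_le_iff₀ hh20]; nlinarith
  have d1 : |Sh A C mc (SPr Y) (xP Y) (fun p : ℕ => Real.log p) h / h - Sh A C mc (SPr Y) (xP Y) (fun p : ℕ => Real.log p) h2 / h2| ≤
      (δ / 8 + δ / 8 + (δ / 4 + δ / 8)) * (A.card * C.card) := by
    refine hts.trans (mul_le_mul_of_nonneg_right ?_ hAC)
    linarith
  have d2 : |Sh A C mc (SPr Y) (xP Y) (fun p : ℕ => Real.log p) h2 / h2 - A.card * C.card| ≤ δ / 8 * (A.card * C.card) :=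
    hpn.trans (mul_le_mul_of_nonneg_right c3 hAC)
  have hδAC : 0 ≤ δ * (A.card * C.card) := mul_nonneg hδ.le hAC
  have a1 := abs_le.1 d1
  have a2 := abs_le.1 d2
  rw [abs_le]
  constructor <;> linarith [a1.1, a1.2, a2.1, a2.2]

end Pool.Agent.Y851.PS
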