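import Pool.Agent.Y851.PS.G14
import Pool.Agent.Y851.PS.G8

/-! The normalised counts in a block. -/

set_option autoImplicit false

namespace Pool.Agent.Y851.PS
open Finset Filter

/-- the normalised number of primes in `(x - x ^ ε, x)` -/
noncomputable def Z0 (ε x : ℝ) : ℝ := ((PF ε x).card : ℝ) * Real.log x / x ^ ε

lemma PF_empty {ε x : ℝ} (hx : x < 1) : PF ε x = ∅ := by
  classical
  unfold PF
  have : ⌊x⌋₊ = 0 := Nat.floor_eq_zero.2 hx
  rw [this]
  rfl

lemma Z0_nonneg (ε x : ℝ) : 0 ≤ Z0 ε x := by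
  unfold Z0
  by_cases hx : x < 1
  · rw [PF_empty hx]; simp
  · push Not at hx
    have := Real.log_nonneg hx
    positivity

lemma Z0_pos_iff (ε x : ℝ) : 0 < Z0 ε x ↔ ∃ p : ℕ, p.Prime ∧ x - x ^ ε < p ∧ (p : ℝ) < x := by
  by_cases hx : x < 1
  · unfold Z0
    rw [PF_empty hx]
    constructor
    · intro h; simp at h
    · rintro ⟨p, h1, h2, h3⟩
      have : (2 : ℝ) ≤ p := by exact_mod_cast h1.two_le
      linarith
  · push Not at hx
    have hx0 : 0 ≤ x := by linarith
    constructor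
    · intro h
      have h1 : (PF ε x).Nonempty := by
        rw [nonempty_iff_ne_empty]
        intro h2
        unfold Z0 at h
        rw [h2] at h
        simp at h
      obtain ⟨p, hp⟩ := h1
      exact ⟨p, (mem_PF hx0 p).1 hp⟩
    · rintro ⟨p, hp⟩
      have h1 : p ∈ PF ε x := (mem_PF hx0 p).2 hp
      have h2 : 0 < (PF ε x).card := card_pos.2 ⟨p, h1⟩
      have h3 : (0 : ℝ) < (PF ε x).card := by exact_mod_cast h2
      have h4 : (2 : ℝ) ≤ p := by exact_mod_cast hp.1.two_le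
      have h5 : 0 < Real.log x := Real.log_pos (by linarith [hp.2.2])
      unfold Z0
      have : 0 < x := by linarith
      positivity

lemma Z0_bound (ε : ℝ) (hε : 0 < ε) : ∃ L : ℝ, 1 ≤ L ∧ ∀ x : ℝ, Z0 ε x ≤ L := by
  classical
  obtain ⟨L, x₀, hL, hx₀, h⟩ := PF_le ε hε
  have hlog0 : 0 ≤ Real.log x₀ := Real.log_nonneg hx₀
  refine ⟨L + x₀ * Real.log x₀, by nlinarith, fun x => ?_⟩
  have hLx : 0 ≤ x₀ * Real.log x₀ := by positivity
  unfold Z0
  by_cases hx1 : x < 1
  · rw [PF_empty hx1]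
    simp only [card_empty, Nat.cast_zero, zero_mul, zero_div]
    linarith
  · push Not at hx1
    have hx0 : 0 < x := by linarith
    by_cases hx : x₀ ≤ x
    · have h1 := h x hx
      have h2 : ((PF ε x).card : ℝ) * Real.log x / x ^ ε ≤ L := by
        rw [div_le_iff₀ (by positivity)]; exact h1
      linarith
    · push Not at hx
      have h1 : ((PF ε x).card : ℝ) ≤ x₀ := by
        have h2 : (PF ε x).card ≤ ⌊x⌋₊ := by
          unfold PF
          refine (card_filter_le _ _).trans ?_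
          rw [Nat.card_Icc, Nat.add_sub_cancel]
        have h3 : ((PF ε x).card : ℝ) ≤ (⌊x⌋₊ : ℝ) := by exact_mod_cast h2
        exact (h3.trans (Nat.floor_le hx0.le)).trans hx.le
      have h2 : Real.log x ≤ Real.log x₀ := Real.log_le_log hx0 hx.le
      have h3 : 1 ≤ x ^ ε := Real.one_le_rpow hx1 hε.le
      have h4 : 0 ≤ Real.log x := Real.log_nonneg hx1
      have h5 : ((PF ε x).card : ℝ) * Real.log x / x ^ ε ≤ x₀ * Real.log x₀ := by
        rw [div_le_iff₀ (by positivity)]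
        calc ((PF ε x).card : ℝ) * Real.log x ≤ x₀ * Real.log x₀ := by gcongr
          _ = x₀ * Real.log x₀ * 1 := (mul_one _).symm
          _ ≤ _ := by gcongr
      linarith

/-- the sum over a window -/
noncomputable def SW (Y h v : ℝ) : ℝ :=
  ∑ p ∈ (SPr Y).filter (fun p : ℕ => v - h < Real.log p ∧ Real.log p < v), xP Y p

lemma win_low {ε w Y v h : ℝ} (hε : 0 < ε) (hε1 : ε < 1) (hw : 0 < w) (hw1 : w ≤ 1 / 4) (hv : |v - Y| ≤ w) (hY : 1 ≤ Y)
    (hh : h = Real.exp (-((1 - ε) * (Y + w)))) (hhw : h ≤ w) : SW Y h v / h ≤ Real.exp (3 * w) * Z0 ε (Real.exp v) := by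
  classical
  have hv' := abs_le.1 hv
  have hh0 : 0 < h := by rw [hh]; positivity
  set x := Real.exp v with hx
  have hx0 : 0 < x := Real.exp_pos v
  have hxe : x ^ ε = Real.exp (v * ε) := by rw [hx, ← Real.exp_mul]
  have hlogx : Real.log x = v := Real.log_exp v
  have hv0 : 0 ≤ v := by linarith
  have hhx : h * x ≤ x ^ ε := by
    rw [hh, hxe, hx, ← Real.exp_add, Real.exp_le_exp]
    nlinarith
  have hmem : ∀ p ∈ (SPr Y).filter (fun p : ℕ => v - h < Real.log p ∧ Real.log p < v), p ∈ PF ε x ∧ xP Y p ≤ v * Real.exp h / x := by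
    intro p hp
    rw [mem_filter] at hp
    obtain ⟨hp1, hp2, hp3⟩ := hp
    unfold SPr at hp1
    rw [mem_filter] at hp1
    have hpp := hp1.2.1
    have hp0 : (0 : ℝ) < p := by exact_mod_cast hpp.pos
    have h1 : Real.exp (v - h) < p := by
      rw [← Real.lt_log_iff_exp_lt hp0]; exact hp2
    have h2 : (p : ℝ) < x := by
      rw [hx, ← Real.log_lt_iff_lt_exp hp0]; exact hp3
    have h3 : x * Real.exp (-h) < p := by
      rw [hx, ← Real.exp_add]
      have : v + -h = v - h := by ring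
      rw [this]; exact h1
    constructor
    · rw [mem_PF hx0.le]
      refine ⟨hpp, ?_, h2⟩
      have h4 : 1 - h ≤ Real.exp (-h) := by
        have := Real.add_one_le_exp (-h)
        linarith
      have h5 : x * (1 - h) ≤ x * Real.exp (-h) := mul_le_mul_of_nonneg_left h4 hx0.le
      linarith
    · unfold xP
      have hg : g3 (Real.log p - Y) = 1 := by
        apply g3_one
        rw [abs_le]
        constructor <;> linarith
      rw [hg, mul_one, div_le_div_iff₀ hp0 hx0]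
      have h4 : 0 ≤ Real.log p := Real.log_natCast_nonneg p
      have h5 : x ≤ Real.exp h * p := by
        have e : x = Real.exp h * (x * Real.exp (-h)) := by
          rw [Real.exp_neg]
          have := Real.exp_pos h
          field_simp
        rw [e]
        exact mul_le_mul_of_nonneg_left h3.le (Real.exp_pos h).le
      calc Real.log p * x ≤ v * (Real.exp h * p) := mul_le_mul hp3.le h5 hx0.le hv0
        _ = v * Real.exp h * p := by ring
  have h1 : SW Y h v ≤ (PF ε x).card * (v * Real.exp h / x) := by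
    unfold SW
    calc ∑ p ∈ (SPr Y).filter (fun p : ℕ => v - h < Real.log p ∧ Real.log p < v), xP Y p
        ≤ ∑ _p ∈ (SPr Y).filter (fun p : ℕ => v - h < Real.log p ∧ Real.log p < v), v * Real.exp h / x :=
          sum_le_sum fun p hp => (hmem p hp).2
      _ ≤ ∑ _p ∈ PF ε x, v * Real.exp h / x := by
          apply sum_le_sum_of_subset_of_nonneg (fun p hp => (hmem p hp).1)
          intro _ _ _
          positivity
      _ = _ := by rw [sum_const, nsmul_eq_mul]
  have h2 : Real.exp h * (x ^ ε) ≤ Real.exp (3 * w) * (h * x) := by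
    rw [hh, hxe, hx, ← Real.exp_add, ← Real.exp_add, ← Real.exp_add, Real.exp_le_exp, ← hh]
    nlinarith
  have hxe0 : 0 < x ^ ε := by positivity
  unfold Z0
  rw [hlogx, div_le_iff₀ hh0]
  refine h1.trans ?_
  have hN : (0 : ℝ) ≤ ((PF ε x).card : ℝ) * v := by positivity
  calc ((PF ε x).card : ℝ) * (v * Real.exp h / x) = (((PF ε x).card : ℝ) * v) * ((Real.exp h * x ^ ε) / (x * x ^ ε)) := by
        field_simp
    _ ≤ (((PF ε x).card : ℝ) * v) * ((Real.exp (3 * w) * (h * x)) / (x * x ^ ε)) := by gcongr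
    _ = _ := by field_simp

lemma win_upp {ε w Y v h : ℝ} (hε : 0 < ε) (hε1 : ε < 1) (hw : 0 < w) (hw1 : w ≤ 1 / 4) (hv : |v - Y| ≤ w) (hY : 3 ≤ Y)
    (ht : Real.exp (-((1 - ε) * (Y - w))) ≤ w / 2) (hh : h = (1 + w) * Real.exp (-((1 - ε) * (Y - w)))) :
    Z0 ε (Real.exp v) ≤ Real.exp (3 * w) * (SW Y h v / h) := by
  classical
  have hv' := abs_le.1 hv
  set t := Real.exp (-((1 - ε) * (Y - w))) with ht'
  have ht0 : 0 < t := Real.exp_pos _
  have hh0 : 0 < h := by rw [hh]; positivity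
  have hh1 : h ≤ w := by rw [hh]; nlinarith
  set x := Real.exp v with hx
  have hx0 : 0 < x := Real.exp_pos v
  have hxe : x ^ ε = Real.exp (v * ε) := by rw [hx, ← Real.exp_mul]
  have hlogx : Real.log x = v := Real.log_exp v
  have hv0 : 0 ≤ v := by linarith
  have hxt : x ^ ε ≤ t * x := by
    rw [hxe, ht', hx, ← Real.exp_add, Real.exp_le_exp]
    nlinarith
  have hmem : ∀ p ∈ PF ε x, p ∈ (SPr Y).filter (fun p : ℕ => v - h < Real.log p ∧ Real.log p < v) ∧ v / x ≤ xP Y p := by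
    intro p hp
    rw [mem_PF hx0.le] at hp
    obtain ⟨hpp, hp1, hp2⟩ := hp
    have hp0 : (0 : ℝ) < p := by exact_mod_cast hpp.pos
    have h1 : (1 - t) * x < p := by linarith
    have h2 : Real.log p < v := by
      rw [← hlogx]
      exact Real.log_lt_log hp0 hp2
    have h1t : 0 < 1 - t := by linarith
    have h3 : v - h < Real.log p := by
      have h4 : Real.log ((1 - t) * x) < Real.log p := Real.log_lt_log (by positivity) h1
      rw [Real.log_mul h1t.ne' hx0.ne', hlogx] at h4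
      have h5 : 1 - (1 - t)⁻¹ ≤ Real.log (1 - t) := Real.one_sub_inv_le_log_of_pos h1t
      have h6 : (1 - t)⁻¹ - 1 ≤ (1 + w) * t := by
        have : (1 - t)⁻¹ ≤ 1 + (1 + w) * t := by
          rw [inv_le_iff_one_le_mul₀ h1t]
          nlinarith
        linarith
      rw [hh]
      linarith
    have habs : |Real.log p - Y| ≤ 1 := by
      rw [abs_le]
      constructor <;> linarith
    constructor
    · rw [mem_filter]
      exact ⟨mem_SPr hpp (by linarith), h3, h2⟩
    · unfold xP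
      rw [g3_one habs, mul_one]
      have he1 : Real.exp 1 ≤ p := by
        rw [← Real.le_log_iff_exp_le hp0]
        linarith
      have := Real.log_div_self_antitoneOn (Set.mem_setOf.2 he1) (Set.mem_setOf.2 (he1.trans hp2.le)) hp2.le
      simp only at this
      rw [hlogx] at this
      exact this
  have h1 : (PF ε x).card * (v / x) ≤ SW Y h v := by
    unfold SW
    calc ((PF ε x).card : ℝ) * (v / x) = ∑ _p ∈ PF ε x, v / x := by rw [sum_const, nsmul_eq_mul]
      _ ≤ ∑ p ∈ PF ε x, xP Y p := sum_le_sum fun p hp => (hmem p hp).2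
      _ ≤ _ := sum_le_sum_of_subset_of_nonneg (fun p hp => (hmem p hp).1) fun p _ _ => xP_nonneg Y p
  have h2 : h * x ≤ Real.exp (3 * w) * x ^ ε := by
    have h3 : 1 + w ≤ Real.exp w := by
      have := Real.add_one_le_exp w
      linarith
    calc h * x = (1 + w) * (t * x) := by rw [hh]; ring
      _ ≤ Real.exp w * (t * x) := by gcongr
      _ ≤ _ := by
        rw [hxe, ht', hx, ← Real.exp_add, ← Real.exp_add, ← Real.exp_add, Real.exp_le_exp]
        nlinarith
  have hxe0 : 0 < x ^ ε := by positivity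
  unfold Z0
  rw [hlogx, div_le_iff₀ hxe0]
  have hSW : 0 ≤ SW Y h v := by
    unfold SW
    exact sum_nonneg fun p _ => xP_nonneg Y p
  calc ((PF ε x).card : ℝ) * v = (((PF ε x).card : ℝ) * (v / x)) * x := by field_simp
    _ ≤ SW Y h v * x := by gcongr
    _ = (SW Y h v / h) * (h * x) := by field_simp
    _ ≤ (SW Y h v / h) * (Real.exp (3 * w) * x ^ ε) := by gcongr
    _ = _ := by ring

/-- **The counts in a block.** -/
theorem blockZ (ε η₁ η₂ B δ : ℝ) (hη₁ : 0 < η₁) (hη₂ : η₂ < ε) (hη₁1 : η₁ < 1) (hε : 0 < ε) (hε1 : ε < 1) (hB : 1 ≤ B)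
    (hδ : 0 < δ) (hδ1 : δ ≤ 1) : ∃ κ : ℝ, 0 < κ ∧ ∀ (μ : ℝ) (T0 : ℕ), 1 ≤ μ → ∃ Y₀ : ℝ,
    ∀ Y : ℝ, Y₀ ≤ Y → ∀ K : ℕ, Real.exp ((1 - η₂) * Y) ≤ K → (K : ℝ) ≤ Real.exp ((1 - η₁) * Y) →
    ∀ A : Finset ℕ, (∀ a ∈ A, 1 ≤ a) → Maj A μ κ T0 K → ∀ (C : Finset ℝ), (∀ c ∈ C, 0 < c) →
    (∀ u : ℝ, ((C.filter (fun c => u ≤ Real.log c ∧ Real.log c < u + 1 / K)).card : ℝ) ≤ B * C.card / K) →
    (∀ c ∈ C, ∀ c' ∈ C, |Real.log c - Real.log c'| ≤ 4) → (∀ a ∈ A, ∀ c ∈ C, |Real.log a + Real.log c - Y| ≤ min (1 / 8) (δ / 24)) →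
    |∑ a ∈ A, ∑ c ∈ C, (Z0 ε (a * c) - 1)| ≤ δ * (A.card * C.card) := by
  classical
  obtain ⟨κ, hκ, hblock⟩ := block η₁ B (δ / 4) hη₁ hη₁1 hB (by positivity)
  set w := min (1 / 8) (δ / 24) with hw
  have hw0 : 0 < w := lt_min (by norm_num) (by positivity)
  have hw1 : w ≤ 1 / 8 := min_le_left _ _
  have hw2 : w ≤ δ / 24 := min_le_right _ _
  refine ⟨κ, hκ, fun μ T0 hμ => ?_⟩
  obtain ⟨h0, L0, Y₀, hh0, hL0, hb⟩ := hblock μ T0 hμ
  -- eventual conditions
  have hev : ∀ᶠ Y : ℝ in atTop, Real.exp (-((1 - ε) * (Y - w))) ≤ min (w / 2) (h0 / 2) ∧ Y ≤ Real.exp 0 / (2 * L0 * 4) * Real.exp ((ε - η₂) * Y) ∧ 3 ≤ Y ∧ Y₀ ≤ Y := by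
    have e1 : ∀ᶠ Y : ℝ in atTop, Real.exp (-((1 - ε) * (Y - w))) ≤ min (w / 2) (h0 / 2) := by
      have h1 : Tendsto (fun Y : ℝ => Real.exp (-((1 - ε) * (Y - w)))) atTop (nhds 0) := by
        apply Real.tendsto_exp_atBot.comp
        apply tendsto_neg_atTop_atBot.comp
        apply Tendsto.const_mul_atTop (by linarith)
        exact tendsto_atTop_add_const_right _ _ tendsto_id
      have h2 := h1.eventually (gt_mem_nhds (show (0 : ℝ) < min (w / 2) (h0 / 2) from lt_min (by positivity) (by positivity)))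
      filter_upwards [h2] with Y hY
      exact hY.le
    have e2 : ∀ᶠ Y : ℝ in atTop, Y ≤ Real.exp 0 / (2 * L0 * 4) * Real.exp ((ε - η₂) * Y) := by
      have h1 := Real.tendsto_exp_atTop.eventually (ev_logpow 1 (ε - η₂) (Real.exp 0 / (2 * L0 * 4)) (by linarith) (by positivity))
      filter_upwards [h1] with Y hY
      rw [Real.log_exp, pow_one, ← Real.exp_mul, mul_comm Y] at hY
      exact hY
    filter_upwards [e1, e2, eventually_ge_atTop 3, eventually_ge_atTop Y₀] with Y a b c d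
    exact ⟨a, b, c, d⟩
  obtain ⟨Y₁, hY₁⟩ := Filter.eventually_atTop.1 hev
  refine ⟨Y₁, fun Y hY K hK1 hK2 A hA1 hMaj C hC0 hcell hCC hAC => ?_⟩
  obtain ⟨g1, g2, g3', g4⟩ := hY₁ Y hY
  have g1a : Real.exp (-((1 - ε) * (Y - w))) ≤ w / 2 := g1.trans (min_le_left _ _)
  have g1b : Real.exp (-((1 - ε) * (Y - w))) ≤ h0 / 2 := g1.trans (min_le_right _ _)
  have hK0 : (0 : ℝ) < K := lt_of_lt_of_le (Real.exp_pos _) hK1
  have hK1' : 1 ≤ K := by
    have : 0 < K := by exact_mod_cast hK0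
    omega
  -- the log
  have hlogK : 1 + Real.log (4 * (K : ℝ) + 2) ≤ 3 + Y := by
    have h1 : 4 * (K : ℝ) + 2 ≤ Real.exp (2 + Y) := by
      have h2 : (K : ℝ) ≤ Real.exp Y := hK2.trans (Real.exp_le_exp.2 (by nlinarith))
      have h3 : 1 ≤ Real.exp Y := Real.one_le_exp (by linarith)
      have h4 : 6 ≤ Real.exp 2 := by
        have : Real.exp 2 = Real.exp 1 * Real.exp 1 := by rw [← Real.exp_add]; norm_num
        have h5 := Real.exp_one_gt_d9
        rw [this]; nlinarith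
      rw [Real.exp_add]
      nlinarith
    have h2 := Real.log_le_log (by positivity) h1
    rw [Real.log_exp] at h2
    linarith
  have hlogK2 : L0 * (1 + Real.log (4 * (K : ℝ) + 2)) ≤ L0 * (2 * Y) := by
    apply mul_le_mul_of_nonneg_left _ (by linarith)
    linarith
  -- the small window
  set h₁ := Real.exp (-((1 - ε) * (Y + w))) with hh₁
  have hh₁0 : 0 < h₁ := Real.exp_pos _
  have hh₁le : h₁ ≤ Real.exp (-((1 - ε) * (Y - w))) := by
    rw [hh₁, Real.exp_le_exp]; nlinarith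
  set h₂ := (1 + w) * Real.exp (-((1 - ε) * (Y - w))) with hh₂
  have hh₂0 : 0 < h₂ := by positivity
  have hh₂le : h₂ ≤ h0 := by rw [hh₂]; nlinarith [Real.exp_pos (-((1 - ε) * (Y - w)))]
  have hh₁₂ : h₁ ≤ h₂ := by
    rw [hh₂]
    have := Real.exp_pos (-((1 - ε) * (Y - w)))
    nlinarith
  have hKh₁ : L0 * (1 + Real.log (4 * (K : ℝ) + 2)) ≤ K * h₁ := by
    refine hlogK2.trans ?_
    have h1 : Real.exp ((ε - η₂) * Y) * Real.exp (-w) ≤ K * h₁ := by
      calc Real.exp ((ε - η₂) * Y) * Real.exp (-w) ≤ Real.exp ((1 - η₂) * Y) * h₁ := by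
            rw [hh₁, ← Real.exp_add, ← Real.exp_add, Real.exp_le_exp]
            nlinarith
        _ ≤ K * h₁ := by gcongr
    refine le_trans ?_ h1
    have h2 : (1 / 2 : ℝ) ≤ Real.exp (-w) := by
      have := Real.add_one_le_exp (-w)
      linarith
    rw [Real.exp_zero] at g2
    have h3 : 0 < Real.exp ((ε - η₂) * Y) := Real.exp_pos _
    calc L0 * (2 * Y) ≤ L0 * (2 * (1 / (2 * L0 * 4) * Real.exp ((ε - η₂) * Y))) := by gcongr
      _ = Real.exp ((ε - η₂) * Y) * (1 / 4) := by field_simp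
      _ ≤ _ := by
        apply mul_le_mul_of_nonneg_left _ h3.le
        linarith
  have hKh₂ : L0 * (1 + Real.log (4 * (K : ℝ) + 2)) ≤ K * h₂ := hKh₁.trans (by gcongr)
  have hv : ∀ a ∈ A, ∀ c ∈ C, |Real.log a + Real.log c - Y| ≤ 1 / 2 := fun a ha c hc => (hAC a ha c hc).trans (by linarith)
  have r1 := hb Y g4 K hK1' hK2 A hMaj ℝ C Real.log hcell hCC hv h₁ hh₁0 (hh₁₂.trans hh₂le) hKh₁
  have r2 := hb Y g4 K hK1' hK2 A hMaj ℝ C Real.log hcell hCC hv h₂ hh₂0 hh₂le hKh₂
  -- comparison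
  have hAC0 : (0 : ℝ) ≤ A.card * C.card := by positivity
  have hex : ∀ a ∈ A, ∀ c ∈ C, (a : ℝ) * c = Real.exp (Real.log a + Real.log c) := by
    intro a ha c hc
    have ha0 : (0 : ℝ) < a := by exact_mod_cast hA1 a ha
    rw [Real.exp_add, Real.exp_log ha0, Real.exp_log (hC0 c hc)]
  have hlow : Sh A C Real.log (SPr Y) (xP Y) (fun p : ℕ => Real.log p) h₁ / h₁ ≤ Real.exp (3 * w) * ∑ a ∈ A, ∑ c ∈ C, Z0 ε (a * c) := by
    unfold Sh
    simp_rw [sum_div, mul_sum]
    rw [show (∑ a ∈ A, ∑ c ∈ C, Real.exp (3 * w) * Z0 ε (a * c)) = ∑ a ∈ A, ∑ c ∈ C, Real.exp (3 * w) * Z0 ε (a * c) from rfl]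
    apply sum_le_sum
    intro a ha
    apply sum_le_sum
    intro c hc
    rw [hex a ha c hc]
    have := win_low (v := Real.log a + Real.log c) hε hε1 hw0 (by linarith) (hAC a ha c hc) (by linarith) hh₁ (by linarith)
    unfold SW at this
    rw [sum_div] at this
    convert this
  have hupp : ∑ a ∈ A, ∑ c ∈ C, Z0 ε (a * c) ≤ Real.exp (3 * w) * (Sh A C Real.log (SPr Y) (xP Y) (fun p : ℕ => Real.log p) h₂ / h₂) := by
    unfold Sh
    simp_rw [sum_div, mul_sum]
    apply sum_le_sum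
    intro a ha
    apply sum_le_sum
    intro c hc
    rw [hex a ha c hc]
    have := win_upp (v := Real.log a + Real.log c) hε hε1 hw0 (by linarith) (hAC a ha c hc) (by linarith) g1a hh₂
    unfold SW at this
    rw [sum_div, mul_sum] at this
    convert this
  have hexp : Real.exp (3 * w) ≤ 1 + δ / 4 := by
    have h1 : Real.exp (3 * w) * (1 - 3 * w) ≤ 1 := by
      have h2 := Real.one_sub_le_exp_neg (3 * w)
      have h3 := Real.exp_pos (3 * w)
      calc Real.exp (3 * w) * (1 - 3 * w) ≤ Real.exp (3 * w) * Real.exp (-(3 * w)) := by gcongr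
        _ = 1 := by rw [← Real.exp_add, add_neg_cancel, Real.exp_zero]
    have h2 : 1 ≤ (1 + δ / 4) * (1 - 3 * w) := by nlinarith
    have h3 : 0 < 1 - 3 * w := by linarith
    by_contra hcon
    push Not at hcon
    have := mul_lt_mul_of_pos_right hcon h3
    linarith
  have hexp1 : 1 ≤ Real.exp (3 * w) := Real.one_le_exp (by positivity)
  set Sz := ∑ a ∈ A, ∑ c ∈ C, Z0 ε (a * c) with hSz
  have hSz0 : 0 ≤ Sz := sum_nonneg fun a _ => sum_nonneg fun c _ => Z0_nonneg _ _
  have e0 : ∑ a ∈ A, ∑ c ∈ C, (Z0 ε (a * c) - 1) = Sz - A.card * C.card := by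
    rw [hSz]
    simp_rw [sum_sub_distrib, sum_const, nsmul_eq_mul]
    ring
  rw [e0, abs_le]
  have r1' := (abs_le.1 r1).1
  have r2' := (abs_le.1 r2).2
  constructor
  · have h1 : (1 - δ / 4) * (A.card * C.card) ≤ (1 + δ / 4) * Sz := by
      have h2 : Real.exp (3 * w) * Sz ≤ (1 + δ / 4) * Sz := mul_le_mul_of_nonneg_right hexp hSz0
      linarith
    by_contra hcon
    push Not at hcon
    have h3 : Sz < (1 - δ) * (A.card * C.card) := by linarith
    have h4 : (1 + δ / 4) * Sz < (1 + δ / 4) * ((1 - δ) * (A.card * C.card)) := mul_lt_mul_of_pos_left h3 (by positivity)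
    have h5 : (1 + δ / 4) * ((1 - δ) * ((A.card : ℝ) * C.card)) ≤ (1 - δ / 4) * (A.card * C.card) := by
      have : (1 + δ / 4) * (1 - δ) ≤ 1 - δ / 4 := by nlinarith
      calc (1 + δ / 4) * ((1 - δ) * ((A.card : ℝ) * C.card)) = ((1 + δ / 4) * (1 - δ)) * ((A.card : ℝ) * C.card) := by ring
        _ ≤ _ := mul_le_mul_of_nonneg_right this hAC0
    linarith
  · have h1 : Sh A C Real.log (SPr Y) (xP Y) (fun p : ℕ => Real.log p) h₂ / h₂ ≤ (1 + δ / 4) * (A.card * C.card) := by linarith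
    have h2 : Sz ≤ (1 + δ / 4) * ((1 + δ / 4) * (A.card * C.card)) := by
      refine hupp.trans ?_
      have h3 : Real.exp (3 * w) * (Sh A C Real.log (SPr Y) (xP Y) (fun p : ℕ => Real.log p) h₂ / h₂) ≤ Real.exp (3 * w) * ((1 + δ / 4) * (A.card * C.card)) := by gcongr
      refine h3.trans ?_
      gcongr
    have h3 : (1 + δ / 4) * ((1 + δ / 4) * ((A.card : ℝ) * C.card)) ≤ (1 + δ) * (A.card * C.card) := by
      have : (1 + δ / 4) * (1 + δ / 4) ≤ 1 + δ := by nlinarith
      calc (1 + δ / 4) * ((1 + δ / 4) * ((A.card : ℝ) * C.card)) = ((1 + δ / 4) * (1 + δ / 4)) * ((A.card : ℝ) * C.card) := by ring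
        _ ≤ _ := mul_le_mul_of_nonneg_right this hAC0
    linarith

end Pool.Agent.Y851.PS
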