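import Pool.Agent.Y851.PS.G8

/-! Majorants for dense sets of integers and dense sets of primes. -/

set_option autoImplicit false

namespace Pool.Agent.Y851.PS
open Finset
open Pool.Agent.H376R2.MR (Fj FK ch Fj_nonneg Fj_le kern_ch_er ls_norm_ch er)
open Pool.Agent.H376R2.MR renaming w → tw
open Pool.Agent.H318R2.Cr (Rgh V_pos cz_bounds)
open Pool.Agent.H318R2.Cr renaming V → VV
open Pool.Agent.Y851.HZ

/-- the weights -/
noncomputable def nuW (V : ℝ) (n : ℕ) : ℝ := 2 * Real.exp (V + 1 / 2) * (tw (Real.log n - V) / n)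

lemma nuW_nonneg (V : ℝ) (n : ℕ) : 0 ≤ nuW V n := by
  unfold nuW
  have := Pool.Agent.Y851.HZ.tw_nonneg (Real.log n - V)
  positivity

lemma nuW_one {V : ℝ} {a : ℕ} (ha : 1 ≤ a) (h : |Real.log a - V| ≤ 1 / 2) : 1 ≤ nuW V a := by
  have ha0 : (0 : ℝ) < a := by exact_mod_cast ha
  have h1 : 1 / 2 ≤ tw (Real.log a - V) := by
    unfold Pool.Agent.H376R2.MR.w
    refine le_trans ?_ (le_max_right _ _)
    linarith
  have h2 : (a : ℝ) ≤ Real.exp (V + 1 / 2) := by
    rw [← Real.log_le_iff_le_exp ha0]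
    linarith [(abs_le.1 h).2]
  unfold nuW
  have h3 : 1 ≤ Real.exp (V + 1 / 2) / a := by rw [le_div_iff₀ ha0]; linarith
  calc (1 : ℝ) ≤ Real.exp (V + 1 / 2) / a * (2 * (1 / 2)) := by linarith
    _ ≤ Real.exp (V + 1 / 2) / a * (2 * tw (Real.log a - V)) := by gcongr
    _ = _ := by ring

lemma exp_half_le (V : ℝ) : 2 * Real.exp (V + 1 / 2) ≤ 4 * Real.exp V := by
  rw [Real.exp_add]
  have h1 : Real.exp (1 / 2 : ℝ) ≤ 2 := by
    have h3 : Real.exp (1 / 2 : ℝ) ^ 2 = Real.exp 1 := by rw [← Real.exp_nat_mul]; norm_num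
    have := Real.exp_one_lt_d9
    nlinarith [Real.exp_pos (1 / 2 : ℝ)]
  have := Real.exp_pos V
  nlinarith

lemma mem_S {V : ℝ} {a : ℕ} (ha : 1 ≤ a) (h : |Real.log a - V| ≤ 1 / 2) : a ∈ Icc 1 ⌊Real.exp (V + 1)⌋₊ := by
  have ha0 : (0 : ℝ) < a := by exact_mod_cast ha
  rw [mem_Icc]
  refine ⟨ha, Nat.le_floor ?_⟩
  rw [← Real.log_le_iff_le_exp ha0]
  linarith [(abs_le.1 h).2]

theorem maj_int (κ δ : ℝ) (hκ : 0 < κ) (hδ : 0 < δ) (M : ℕ) : ∃ (μ : ℝ) (T0 : ℕ) (V₀ : ℝ), 1 ≤ μ ∧ ∀ V : ℝ, V₀ ≤ V →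
    ∀ A : Finset ℕ, (∀ a ∈ A, 1 ≤ a ∧ |Real.log a - V| ≤ 1 / 2) → δ * Real.exp V ≤ A.card → ∀ K : ℕ,
    2 * (K : ℝ) ≤ Real.exp (M * V) → Maj A μ κ T0 K := by
  obtain ⟨η, C, hη, hη1, hC, hT⟩ := type_one M
  -- decay
  have hdec : ∃ V1 : ℝ, ∀ V : ℝ, V1 ≤ V → 4 * (C * Real.exp (-(η * V))) ≤ κ * δ / 2 := by
    have h1 : Filter.Tendsto (fun V : ℝ => 4 * (C * Real.exp (-(η * V)))) Filter.atTop (nhds (4 * (C * 0))) := by
      apply Filter.Tendsto.const_mul
      apply Filter.Tendsto.const_mul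
      apply Real.tendsto_exp_atBot.comp
      apply Filter.tendsto_neg_atTop_atBot.comp
      exact Filter.tendsto_id.const_mul_atTop hη
    rw [mul_zero, mul_zero] at h1
    obtain ⟨V1, hV1⟩ := Filter.eventually_atTop.1 (h1.eventually (gt_mem_nhds (show (0 : ℝ) < κ * δ / 2 by positivity)))
    exact ⟨V1, fun V hV => (hV1 V hV).le⟩
  obtain ⟨V1, hV1⟩ := hdec
  refine ⟨max 1 (60 / δ), ⌈64 / (κ * δ)⌉₊ + 4, max V1 4, le_max_left _ _, ?_⟩
  intro V hV A hA hcard K hK
  have hVa : V1 ≤ V := (le_max_left _ _).trans hV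
  have hV4 : 4 ≤ V := (le_max_right _ _).trans hV
  have heV := Real.exp_pos V
  refine ⟨⟨Icc 1 ⌊Real.exp (V + 1)⌋₊, nuW V, fun a ha => mem_S (hA a ha).1 (hA a ha).2, fun n _ => nuW_nonneg V n,
    fun a ha => nuW_one (hA a ha).1 (hA a ha).2, ?_, ?_⟩⟩
  · -- the mass
    have h1 : ∀ n ∈ Icc 1 ⌊Real.exp (V + 1)⌋₊, nuW V n ≤ 2 * Real.exp (V + 1 / 2) * Real.exp (1 - V) := by
      intro n hn
      rw [mem_Icc] at hn
      have hn0 : (0 : ℝ) < n := by exact_mod_cast hn.1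
      unfold nuW
      apply mul_le_mul_of_nonneg_left _ (by positivity)
      by_cases h : |Real.log n - V| < 1
      · have h2 : Real.exp (V - 1) ≤ n := by
          rw [← Real.le_log_iff_exp_le hn0]
          linarith [(abs_lt.1 h).1]
        rw [div_le_iff₀ hn0]
        have h3 : Real.exp (1 - V) * Real.exp (V - 1) = 1 := by rw [← Real.exp_add]; simp
        have h4 := mul_le_mul_of_nonneg_left h2 (Real.exp_pos (1 - V)).le
        have h5 := Pool.Agent.Y851.HZ.tw_le (Real.log n - V)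
        linarith
      · rw [tw_supp _ (not_lt.1 h), zero_div]
        positivity
    calc ∑ n ∈ Icc 1 ⌊Real.exp (V + 1)⌋₊, nuW V n ≤ ∑ n ∈ Icc 1 ⌊Real.exp (V + 1)⌋₊, 2 * Real.exp (V + 1 / 2) * Real.exp (1 - V) :=
          sum_le_sum h1
      _ = (⌊Real.exp (V + 1)⌋₊ : ℝ) * (2 * Real.exp (V + 1 / 2) * Real.exp (1 - V)) := by
          rw [sum_const, nsmul_eq_mul, Nat.card_Icc, Nat.add_sub_cancel]
      _ ≤ Real.exp (V + 1) * (4 * Real.exp V * Real.exp (1 - V)) := by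
          have := Nat.floor_le (Real.exp_pos (V + 1)).le
          have h2 := exp_half_le V
          gcongr
      _ = 4 * Real.exp 2 * Real.exp V := by
          have : Real.exp (V + 1) * Real.exp (1 - V) = Real.exp 2 := by rw [← Real.exp_add]; congr 1; ring
          rw [← this]; ring
      _ ≤ 60 * Real.exp V := by
          have h2 : Real.exp 2 < 7.4 := exp_two_lt
          nlinarith
      _ = 60 / δ * (δ * Real.exp V) := by field_simp
      _ ≤ max 1 (60 / δ) * A.card := by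
          apply mul_le_mul (le_max_right _ _) hcard (by positivity) (by positivity)
  · intro k hk hk2
    have e : TF (Icc 1 ⌊Real.exp (V + 1)⌋₊) (nuW V) (fun n : ℕ => Real.log n) k =
        ((2 * Real.exp (V + 1 / 2) : ℝ) : ℂ) * SS tw V (-(k : ℝ)) := by
      unfold TF SS nuW
      rw [mul_sum]
      apply sum_congr rfl
      intro n _
      rw [kern_ch_er]
      push_cast
      ring
    rw [e, norm_mul, Complex.norm_real, Real.norm_eq_abs, abs_of_pos (by positivity)]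
    have hk3 : ((⌈64 / (κ * δ)⌉₊ + 4 : ℕ) : ℝ) < |(k : ℝ)| := by
      have h2 : (((⌈64 / (κ * δ)⌉₊ + 4 : ℕ) : ℤ) : ℝ) < ((|k| : ℤ) : ℝ) := by exact_mod_cast hk
      rw [Int.cast_abs] at h2
      exact_mod_cast h2
    push_cast at hk3
    have hk4 : 64 / (κ * δ) ≤ |(k : ℝ)| := by
      have := Nat.le_ceil (64 / (κ * δ))
      linarith
    have hk5 : 4 ≤ |(-(k : ℝ))| := by
      rw [abs_neg]
      have : (0 : ℝ) ≤ ⌈64 / (κ * δ)⌉₊ := Nat.cast_nonneg _
      linarith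
    have hk0 : 0 < |(k : ℝ)| := by
      have : 0 < 64 / (κ * δ) := by positivity
      linarith
    have h1 := hT tw tw_wd V (-(k : ℝ)) hV4 (by rw [abs_neg]; linarith)
    have h2 := II_bound tw_wd V (-(k : ℝ)) hk5
    rw [abs_neg] at h2
    have h3 : ‖SS tw V (-(k : ℝ))‖ ≤ C * Real.exp (-(η * V)) + 8 / |(k : ℝ)| := by
      have := norm_add_le (SS tw V (-(k : ℝ)) - II tw V (-(k : ℝ))) (II tw V (-(k : ℝ)))
      rw [sub_add_cancel] at this
      linarith
    have h4 : 8 / |(k : ℝ)| ≤ κ * δ / 8 := by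
      rw [div_le_iff₀ hk0]
      rw [div_le_iff₀ (by positivity)] at hk4
      linarith
    have h5 := hV1 V hVa
    calc 2 * Real.exp (V + 1 / 2) * ‖SS tw V (-(k : ℝ))‖ ≤ (4 * Real.exp V) * (C * Real.exp (-(η * V)) + κ * δ / 8) := by
          have := exp_half_le V
          apply mul_le_mul this (by linarith) (norm_nonneg _) (by positivity)
      _ = (4 * (C * Real.exp (-(η * V))) + κ * δ / 2) * Real.exp V := by ring
      _ ≤ (κ * δ / 2 + κ * δ / 2) * Real.exp V := by gcongr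
      _ = κ * (δ * Real.exp V) := by ring
      _ ≤ κ * A.card := by gcongr

lemma b_exists (c : ℝ) (hc : 0 < c) (C0 : ℕ) : ∃ b : ℕ, C0 ≤ b ∧ 1 ≤ b ∧ (b : ℝ) * (1 / 2 : ℝ) ^ b ≤ c := by
  have h1 := tendsto_pow_const_div_const_pow_of_one_lt 1 (show (1 : ℝ) < 2 by norm_num)
  obtain ⟨b₀, hb₀⟩ := Filter.eventually_atTop.1 (h1.eventually (gt_mem_nhds hc))
  refine ⟨max b₀ (max C0 1), (le_max_left _ _).trans (le_max_right _ _), (le_max_right _ _).trans (le_max_right _ _), ?_⟩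
  have h2 := hb₀ (max b₀ (max C0 1)) (le_max_left _ _)
  rw [pow_one] at h2
  rw [one_div_pow, mul_one_div]
  exact h2.le

theorem maj_prime (κ δ : ℝ) (hκ : 0 < κ) (hδ : 0 < δ) (M : ℕ) : ∃ (μ : ℝ) (T0 : ℕ) (V₀ : ℝ), 1 ≤ μ ∧ ∀ V : ℝ, V₀ ≤ V →
    ∀ A : Finset ℕ, (∀ a ∈ A, a.Prime ∧ |Real.log a - V| ≤ 1 / 2) → δ * (Real.exp V / V) ≤ A.card → ∀ K : ℕ,
    2 * (K : ℝ) ≤ Real.exp (M * V) → Maj A μ κ T0 K := by
  classical
  obtain ⟨C0, hC0, hmain⟩ := main_win
  obtain ⟨z₁, Cr, hz₁, hCr, hru⟩ := rough_unit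
  obtain ⟨c1, c2, hc1, hc12, hcz⟩ := cz_bounds
  have hc2 : 0 < c2 := hc1.trans_le hc12
  have hC0r : (1 : ℝ) ≤ C0 := by exact_mod_cast hC0
  obtain ⟨b, hbC, hb1, hb⟩ := b_exists (κ * δ / (2 * (64 * c2 * C0 * 3))) (by positivity) C0
  have hb1r : (1 : ℝ) ≤ b := by exact_mod_cast hb1
  obtain ⟨L₁, hmw⟩ := hmain M b (16 * C0 * b) hbC (by
    have : 1 ≤ C0 * b := Nat.mul_pos hC0 hb1
    nlinarith)
  have hcb : (1 : ℝ) ≤ C0 * b := by nlinarith
  refine ⟨max 1 (64 * Cr * C0 * b / δ), ⌈2 * (64 * c2 * C0 * b * 8) / (κ * δ)⌉₊ + 4,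
    max (16 * C0 * b * max L₁ (Real.log z₁ + 2)) 1, le_max_left _ _, ?_⟩
  intro V hV A hA hcard K hK
  have hVa : 16 * C0 * b * max L₁ (Real.log z₁ + 2) ≤ V := (le_max_left _ _).trans hV
  have hV1 : 1 ≤ V := (le_max_right _ _).trans hV
  have hV0 : 0 < V := by linarith
  have heV := Real.exp_pos V
  -- z
  have hz1r : (1 : ℝ) ≤ z₁ := by exact_mod_cast (show 1 ≤ z₁ by omega)
  have hlz1 : 0 ≤ Real.log z₁ := Real.log_nonneg hz1r
  set w := V / (8 * C0 * b) with hw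
  have hw2 : 2 * (Real.log z₁ + 2) ≤ w := by
    rw [hw, le_div_iff₀ (by positivity)]
    calc 2 * (Real.log z₁ + 2) * (8 * C0 * b) = 16 * C0 * b * (Real.log z₁ + 2) := by ring
      _ ≤ 16 * C0 * b * max L₁ (Real.log z₁ + 2) := by
          apply mul_le_mul_of_nonneg_left (le_max_right _ _) (by positivity)
      _ ≤ V := hVa
  have hwL : 2 * L₁ ≤ w := by
    rw [hw, le_div_iff₀ (by positivity)]
    calc 2 * L₁ * (8 * C0 * b) = 16 * C0 * b * L₁ := by ring
      _ ≤ 16 * C0 * b * max L₁ (Real.log z₁ + 2) := by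
          apply mul_le_mul_of_nonneg_left (le_max_left _ _) (by positivity)
      _ ≤ V := hVa
  obtain ⟨z, hz⟩ : ∃ z : ℕ, z = ⌊Real.exp w⌋₊ := ⟨_, rfl⟩
  have hzle : (z : ℝ) ≤ Real.exp w := by rw [hz]; exact Nat.floor_le (Real.exp_pos _).le
  have hzlt : Real.exp w < z + 1 := by rw [hz]; exact Nat.lt_floor_add_one _
  have hw4 : 4 ≤ w := by linarith
  have hew : 5 ≤ Real.exp w := by linarith [Real.add_one_le_exp w]
  have hz0 : (0 : ℝ) < z := by linarith
  have hlogz : w / 2 ≤ Real.log z := by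
    have h1 : Real.exp w / 2 ≤ z := by linarith
    have h2 : Real.log (Real.exp w / 2) ≤ Real.log z := Real.log_le_log (by positivity) h1
    rw [Real.log_div (Real.exp_pos _).ne' (by norm_num), Real.log_exp] at h2
    linarith [Real.log_two_lt_d9]
  have hlogz2 : Real.log z ≤ w := by rw [Real.log_le_iff_le_exp hz0]; exact hzle
  have hz2 : 2 ≤ z := by
    have : (2 : ℝ) ≤ z := by linarith
    exact_mod_cast this
  have hzz1 : z₁ ≤ z := by
    have h1 : Real.log z₁ ≤ Real.log z := by linarith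
    have h2 := (Real.log_le_log_iff (by linarith) hz0).1 h1
    exact_mod_cast h2
  have hlz : V / (16 * C0 * b) ≤ Real.log z := by
    have : V / (16 * C0 * b) = w / 2 := by rw [hw]; field_simp; norm_num
    linarith
  have hlz0 : 0 < Real.log z := by linarith
  have hinvlz : 1 / Real.log z ≤ 16 * C0 * b / V := by
    rw [div_le_div_iff₀ hlz0 hV0]
    rw [div_le_iff₀ (by positivity)] at hlz
    linarith
  have hlzV : Real.log z ≤ V / 8 := by
    refine hlogz2.trans ?_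
    rw [hw]
    apply div_le_div_of_nonneg_left hV0.le (by norm_num)
    nlinarith
  -- elements of A are rough
  have hrough : ∀ a ∈ A, Rgh z a := by
    intro a ha q hq hqz hqd
    obtain ⟨hap, hav⟩ := hA a ha
    have h1 : q = a := (Nat.prime_dvd_prime_iff_eq hq hap).1 hqd
    rw [h1] at hqz
    have h2 : Real.log a ≤ Real.log z := Real.log_le_log (by exact_mod_cast hap.pos) (by exact_mod_cast hqz)
    have h3 := (abs_le.1 hav).1
    have : V - 1 / 2 ≤ V / 8 := by linarith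
    -- `V ≥ 16`
    have hV16 : 16 ≤ V := by
      have h4 : 8 * C0 * b * w = V := by rw [hw]; field_simp
      nlinarith
    linarith
  refine ⟨⟨(Icc 1 ⌊Real.exp (V + 1)⌋₊).filter (fun n => Rgh z n), nuW V, ?_, fun n _ => nuW_nonneg V n,
    fun a ha => nuW_one (hA a ha).1.one_lt.le (hA a ha).2, ?_, ?_⟩⟩
  · intro a ha
    rw [mem_filter]
    exact ⟨mem_S (hA a ha).1.one_lt.le (hA a ha).2, hrough a ha⟩
  · -- the mass
    have h1 : ∑ n ∈ (Icc 1 ⌊Real.exp (V + 1)⌋₊).filter (fun n => Rgh z n), nuW V n ≤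
        2 * Real.exp (V + 1 / 2) * (Cr / Real.log z) := by
      have h2 := hru z hzz1 V (by linarith) (((Icc 1 ⌊Real.exp (V + 1)⌋₊).filter (fun n => Rgh z n)).filter (fun n : ℕ => |Real.log n - V| < 1)) (by
        intro n hn
        rw [mem_filter, mem_filter, mem_Icc] at hn
        exact ⟨hn.1.1.1, hn.2.le, hn.1.2⟩)
      have h3 : ∑ n ∈ (Icc 1 ⌊Real.exp (V + 1)⌋₊).filter (fun n => Rgh z n), nuW V n =
          ∑ n ∈ ((Icc 1 ⌊Real.exp (V + 1)⌋₊).filter (fun n => Rgh z n)).filter (fun n : ℕ => |Real.log n - V| < 1), nuW V n := by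
        symm
        apply sum_subset (filter_subset _ _)
        intro n hn hn2
        rw [mem_filter, not_and] at hn2
        have h4 := hn2 hn
        unfold nuW
        rw [tw_supp _ (not_lt.1 h4)]
        simp
      rw [h3]
      calc _ ≤ ∑ n ∈ ((Icc 1 ⌊Real.exp (V + 1)⌋₊).filter (fun n => Rgh z n)).filter (fun n : ℕ => |Real.log n - V| < 1),
            2 * Real.exp (V + 1 / 2) * (1 / (n : ℝ)) := by
            apply sum_le_sum
            intro n _
            unfold nuW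
            have := Pool.Agent.Y851.HZ.tw_le (Real.log n - V)
            gcongr
        _ = 2 * Real.exp (V + 1 / 2) * ∑ n ∈ ((Icc 1 ⌊Real.exp (V + 1)⌋₊).filter (fun n => Rgh z n)).filter (fun n : ℕ => |Real.log n - V| < 1),
            1 / (n : ℝ) := by rw [mul_sum]
        _ ≤ _ := mul_le_mul_of_nonneg_left h2 (by positivity)
    calc _ ≤ 2 * Real.exp (V + 1 / 2) * (Cr / Real.log z) := h1
      _ = 2 * Real.exp (V + 1 / 2) * (Cr * (1 / Real.log z)) := by ring
      _ ≤ 4 * Real.exp V * (Cr * (16 * C0 * b / V)) := by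
          have := exp_half_le V
          gcongr
      _ = 64 * Cr * C0 * b / δ * (δ * (Real.exp V / V)) := by field_simp; norm_num
      _ ≤ max 1 (64 * Cr * C0 * b / δ) * A.card := by
          apply mul_le_mul (le_max_right _ _) hcard (by positivity) (by positivity)
  · intro k hk hk2
    have e : TF ((Icc 1 ⌊Real.exp (V + 1)⌋₊).filter (fun n => Rgh z n)) (nuW V) (fun n : ℕ => Real.log n) k =
        ((2 * Real.exp (V + 1 / 2) : ℝ) : ℂ) * SR z tw V (-(k : ℝ)) := by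
      unfold TF SR nuW
      rw [mul_sum]
      apply sum_congr _ fun n _ => ?_
      · congr!
      · rw [kern_ch_er]
        push_cast
        ring
    rw [e, norm_mul, Complex.norm_real, Real.norm_eq_abs, abs_of_pos (by positivity)]
    have hk3 : ((⌈2 * (64 * c2 * C0 * b * 8) / (κ * δ)⌉₊ + 4 : ℕ) : ℝ) < |(k : ℝ)| := by
      have h2 : (((⌈2 * (64 * c2 * C0 * b * 8) / (κ * δ)⌉₊ + 4 : ℕ) : ℤ) : ℝ) < ((|k| : ℤ) : ℝ) := by exact_mod_cast hk
      rw [Int.cast_abs] at h2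
      exact_mod_cast h2
    push_cast at hk3
    have hk4 : 2 * (64 * c2 * C0 * b * 8) / (κ * δ) ≤ |(k : ℝ)| := by
      have := Nat.le_ceil (2 * (64 * c2 * C0 * b * 8) / (κ * δ))
      linarith
    have hk5 : 4 ≤ |(-(k : ℝ))| := by
      rw [abs_neg]
      have : (0 : ℝ) ≤ ⌈2 * (64 * c2 * C0 * b * 8) / (κ * δ)⌉₊ := Nat.cast_nonneg _
      linarith
    have hk0 : 0 < |(k : ℝ)| := by rw [abs_neg] at hk5; linarith
    have hVV0 := V_pos z
    have hVV : VV z ≤ c2 * (16 * C0 * b / V) := by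
      have h1 := (hcz z hz2).2
      calc VV z ≤ c2 / Real.log z := by rw [le_div_iff₀ hlz0]; exact h1
        _ = c2 * (1 / Real.log z) := by ring
        _ ≤ _ := by gcongr
    have h1 := hmw z hz2 (by linarith) V (by
      push_cast
      have : V / (16 * C0 * b) * (16 * C0 * b) = V := by field_simp
      have h2 : V ≤ Real.log z * (16 * C0 * b) := by
        rw [div_le_iff₀ (by positivity)] at hlz
        linarith
      have h3 : 0 ≤ Real.log z * (16 * C0 * b) := by positivity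
      linarith) V (by
      have h2 : 8 * C0 * b * w = V := by rw [hw]; field_simp
      calc 8 * (C0 : ℝ) * b * Real.log z ≤ 8 * C0 * b * w := by gcongr
        _ = V := h2) (-(k : ℝ)) hk5 (by rw [abs_neg]; linarith) tw tw_wd
    rw [abs_neg] at h1
    have h4 : 64 * c2 * C0 * b * (8 / |(k : ℝ)|) ≤ κ * δ / 2 := by
      rw [← mul_div_assoc, div_le_iff₀ hk0]
      rw [div_le_iff₀ (by positivity)] at hk4
      linarith
    have h5 : 64 * c2 * C0 * b * (3 * (1 / 2 : ℝ) ^ b) ≤ κ * δ / 2 := by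
      calc 64 * c2 * C0 * b * (3 * (1 / 2 : ℝ) ^ b) = (64 * c2 * C0 * 3) * (b * (1 / 2 : ℝ) ^ b) := by ring
        _ ≤ (64 * c2 * C0 * 3) * (κ * δ / (2 * (64 * c2 * C0 * 3))) := by gcongr
        _ = κ * δ / 2 := by field_simp
    calc 2 * Real.exp (V + 1 / 2) * ‖SR z tw V (-(k : ℝ))‖
        ≤ (4 * Real.exp V) * ((c2 * (16 * C0 * b / V)) * (8 / |(k : ℝ)| + 3 * (1 / 2 : ℝ) ^ b)) := by
          have := exp_half_le V
          apply mul_le_mul this _ (norm_nonneg _) (by positivity)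
          exact h1.trans (mul_le_mul_of_nonneg_right hVV (by positivity))
      _ = (64 * c2 * C0 * b * (8 / |(k : ℝ)|) + 64 * c2 * C0 * b * (3 * (1 / 2 : ℝ) ^ b)) * (Real.exp V / V) := by ring
      _ ≤ (κ * δ / 2 + κ * δ / 2) * (Real.exp V / V) := by gcongr
      _ = κ * (δ * (Real.exp V / V)) := by ring
      _ ≤ κ * A.card := by gcongr

end Pool.Agent.Y851.PS
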