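import Pool.Agent.Y851.PS.G15
import Pool.Agent.Y851.PS.G9
import Pool.Agent.Y851.PS.G11

/-! The cut norm of the normalised counts. -/

set_option autoImplicit false

namespace Pool.Agent.Y851.PS
open Finset Filter

/-- dense integers, or dense primes -/
def Adm (δ θ X : ℝ) (A : Finset ℕ) : Prop :=
  (∀ a ∈ A, 1 ≤ a ∧ (a : ℝ) ≤ X ^ θ) ∧ (δ * X ^ θ ≤ A.card ∨ ((∀ a ∈ A, a.Prime) ∧ δ * (X ^ θ / Real.log X) ≤ A.card))

lemma Maj.mono {A : Finset ℕ} {μ κ : ℝ} {T0 K : ℕ} (h : Maj A μ κ T0 K) {μ' : ℝ} {T0' : ℕ} (h1 : μ ≤ μ') (h2 : T0 ≤ T0') :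
    Maj A μ' κ T0' K := by
  obtain ⟨S, ν, a1, a2, a3, a4, a5⟩ := h.ex
  refine ⟨S, ν, a1, a2, a3, a4.trans (mul_le_mul_of_nonneg_right h1 (Nat.cast_nonneg _)), fun k hk hk2 => a5 k ?_ hk2⟩
  have : (T0 : ℤ) ≤ T0' := by exact_mod_cast h2
  omega

/-- few small elements -/
lemma small_adm (δ θ δ' : ℝ) (hδ : 0 < δ) (hθ : 0 < θ) (hδ' : 0 < δ') : ∃ κ : ℝ, 0 < κ ∧ κ ≤ 1 ∧ ∀ᶠ X : ℝ in atTop,
    ∀ A : Finset ℕ, Adm δ θ X A → ((A.filter (fun a : ℕ => (a : ℝ) < κ * X ^ θ)).card : ℝ) ≤ δ' * A.card := by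
  classical
  obtain ⟨C, hC, hBT⟩ := Pool.Agent.Helper923.PPS.brun_titchmarsh
  set κ := min 1 (min (δ' * δ) (δ' * δ / (4 * C / θ))) with hκ
  have hκ0 : 0 < κ := lt_min one_pos (lt_min (by positivity) (by positivity))
  have hκ1 : κ ≤ 1 := min_le_left _ _
  have hκ2 : κ ≤ δ' * δ := (min_le_right _ _).trans (min_le_left _ _)
  have hκ3 : 4 * C / θ * κ ≤ δ' * δ := by
    have : κ ≤ δ' * δ / (4 * C / θ) := (min_le_right _ _).trans (min_le_right _ _)
    rw [le_div_iff₀ (by positivity)] at this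
    linarith
  refine ⟨κ, hκ0, hκ1, ?_⟩
  filter_upwards [ev_logpow 0 (θ / 2) (κ / 2) (by linarith) (by positivity), eventually_ge_atTop 2] with X hX1 hX2 A hA
  rw [pow_zero] at hX1
  have hX0 : 0 < X := by linarith
  have hlog : 0 < Real.log X := Real.log_pos (by linarith)
  have hXθ : 0 < X ^ θ := by positivity
  rcases hA.2 with h | ⟨h1, h2⟩
  · have hsub : A.filter (fun a : ℕ => (a : ℝ) < κ * X ^ θ) ⊆ Icc 1 ⌊κ * X ^ θ⌋₊ := by
      intro a ha
      rw [mem_filter] at ha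
      rw [mem_Icc]
      exact ⟨(hA.1 a ha.1).1, Nat.le_floor ha.2.le⟩
    have h3 := card_le_card hsub
    rw [Nat.card_Icc, Nat.add_sub_cancel] at h3
    have h4 : ((A.filter (fun a : ℕ => (a : ℝ) < κ * X ^ θ)).card : ℝ) ≤ κ * X ^ θ := by
      have h5 : ((A.filter (fun a : ℕ => (a : ℝ) < κ * X ^ θ)).card : ℝ) ≤ (⌊κ * X ^ θ⌋₊ : ℝ) := by exact_mod_cast h3
      exact h5.trans (Nat.floor_le (by positivity))
    calc ((A.filter (fun a : ℕ => (a : ℝ) < κ * X ^ θ)).card : ℝ) ≤ κ * X ^ θ := h4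
      _ ≤ (δ' * δ) * X ^ θ := by gcongr
      _ = δ' * (δ * X ^ θ) := by ring
      _ ≤ _ := by gcongr
  · set N := ⌊κ * X ^ θ⌋₊ + 2 with hN
    have hNN : 2 ≤ N := by omega
    have hκX : 2 ≤ κ * X ^ θ := by
      have e : X ^ θ = X ^ (θ / 2) * X ^ (θ / 2) := by rw [← Real.rpow_add hX0, add_halves]
      have h3 : 1 ≤ X ^ (θ / 2) := Real.one_le_rpow (by linarith) (by linarith)
      rw [e]
      nlinarith
    have hN1 : κ * X ^ θ ≤ N := by
      rw [hN]; push_cast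
      linarith [Nat.lt_floor_add_one (κ * X ^ θ)]
    have hN2 : (N : ℝ) ≤ 2 * (κ * X ^ θ) := by
      rw [hN]; push_cast
      have := Nat.floor_le (show 0 ≤ κ * X ^ θ by positivity)
      linarith
    have h3 := hBT 0 1 N hNN (Or.inl rfl)
    have hsub : A.filter (fun a : ℕ => (a : ℝ) < κ * X ^ θ) ⊆ (Finset.range N).filter (fun k : ℕ => (0 + k * 1).Prime) := by
      intro a ha
      rw [mem_filter] at ha
      rw [mem_filter, mem_range]
      constructor
      · have : (a : ℝ) < N := lt_of_lt_of_le ha.2 hN1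
        exact_mod_cast this
      · rw [zero_add, mul_one]; exact h1 a ha.1
    have h4 : ((A.filter (fun a : ℕ => (a : ℝ) < κ * X ^ θ)).card : ℝ) ≤ C * N / Real.log N := by
      refine le_trans ?_ h3
      exact_mod_cast card_le_card hsub
    have hlogN : θ / 2 * Real.log X ≤ Real.log N := by
      rw [← Real.log_rpow hX0]
      apply Real.log_le_log (by positivity)
      refine le_trans ?_ hN1
      have e : X ^ θ = X ^ (θ / 2) * X ^ (θ / 2) := by rw [← Real.rpow_add hX0, add_halves]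
      have h3 : 0 < X ^ (θ / 2) := by positivity
      rw [e]
      nlinarith
    calc ((A.filter (fun a : ℕ => (a : ℝ) < κ * X ^ θ)).card : ℝ) ≤ C * N / Real.log N := h4
      _ ≤ C * (2 * (κ * X ^ θ)) / (θ / 2 * Real.log X) := by gcongr
      _ = (4 * C / θ * κ) * (X ^ θ / Real.log X) := by field_simp; ring
      _ ≤ (δ' * δ) * (X ^ θ / Real.log X) := by gcongr
      _ = δ' * (δ * (X ^ θ / Real.log X)) := by ring
      _ ≤ _ := by gcongr

/-- majorants for large pieces of admissible sets -/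
lemma maj_adm (δ θ ρ κ : ℝ) (hδ : 0 < δ) (hθ : 0 < θ) (hρ : 0 < ρ) (hκ : 0 < κ) : ∃ (μ : ℝ) (T0 : ℕ), 1 ≤ μ ∧
    ∀ᶠ X : ℝ in atTop, ∀ A : Finset ℕ, Adm δ θ X A → ∀ A1 : Finset ℕ, A1 ⊆ A → ρ * A.card ≤ A1.card → ∀ V : ℝ,
    θ / 2 * Real.log X ≤ V → V ≤ θ * Real.log X → (∀ a ∈ A1, |Real.log a - V| ≤ 1 / 2) → ∀ K : ℕ, 2 * (K : ℝ) ≤ X →
    Maj A1 μ κ T0 K := by
  set M : ℕ := ⌈2 / θ⌉₊ with hM
  have hMθ : 1 ≤ M * (θ / 2) := by
    have h1 : 2 / θ ≤ M := Nat.le_ceil _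
    rw [div_le_iff₀ hθ] at h1
    linarith
  obtain ⟨μ1, T1, V1, hμ1, h1⟩ := maj_int κ (ρ * δ) hκ (by positivity) M
  obtain ⟨μ2, T2, V2, hμ2, h2⟩ := maj_prime κ (ρ * δ * θ / 2) hκ (by positivity) M
  refine ⟨max μ1 μ2, max T1 T2, hμ1.trans (le_max_left _ _), ?_⟩
  filter_upwards [eventually_ge_atTop 2, Real.tendsto_log_atTop.eventually_ge_atTop ((max V1 V2) / (θ / 2))] with X hX2 hXV A hA A1 hA1 hcard V hV1 hV2 hV K hK
  have hX0 : 0 < X := by linarith
  have hlog : 0 < Real.log X := Real.log_pos (by linarith)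
  have hVV : max V1 V2 ≤ V := by
    rw [div_le_iff₀ (by positivity)] at hXV
    linarith
  have heV : Real.exp V ≤ X ^ θ := by
    rw [Real.rpow_def_of_pos hX0, Real.exp_le_exp]; linarith
  have hKM : 2 * (K : ℝ) ≤ Real.exp (M * V) := by
    refine hK.trans ?_
    rw [← Real.log_le_iff_le_exp hX0]
    calc Real.log X = 1 * Real.log X := (one_mul _).symm
      _ ≤ (M * (θ / 2)) * Real.log X := by gcongr
      _ = M * (θ / 2 * Real.log X) := by ring
      _ ≤ _ := by gcongr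
  rcases hA.2 with h | ⟨h3, h4⟩
  · apply Maj.mono _ (le_max_left μ1 μ2) (le_max_left T1 T2)
    apply h1 V ((le_max_left _ _).trans hVV) A1 (fun a ha => ⟨(hA.1 a (hA1 ha)).1, hV a ha⟩) _ K hKM
    calc ρ * δ * Real.exp V ≤ ρ * δ * X ^ θ := by gcongr
      _ = ρ * (δ * X ^ θ) := by ring
      _ ≤ ρ * A.card := by gcongr
      _ ≤ _ := hcard
  · apply Maj.mono _ (le_max_right μ1 μ2) (le_max_right T1 T2)
    have hV0 : 0 < V := lt_of_lt_of_le (by positivity) hV1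
    apply h2 V ((le_max_right _ _).trans hVV) A1 (fun a ha => ⟨h3 a (hA1 ha), hV a ha⟩) _ K hKM
    calc ρ * δ * θ / 2 * (Real.exp V / V) ≤ ρ * δ * θ / 2 * (X ^ θ / (θ / 2 * Real.log X)) := by gcongr
      _ = ρ * (δ * (X ^ θ / Real.log X)) := by field_simp
      _ ≤ ρ * A.card := by gcongr
      _ ≤ _ := hcard

lemma dsum_abs {α β : Type} (A : Finset α) (C : Finset β) (G : α → β → ℝ) (L : ℝ) (h : ∀ a ∈ A, ∀ c ∈ C, |G a c| ≤ L) :
    |∑ a ∈ A, ∑ c ∈ C, G a c| ≤ L * (A.card * C.card) := by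
  refine (abs_sum_le_sum_abs _ _).trans ?_
  have h1 : ∀ a ∈ A, |∑ c ∈ C, G a c| ≤ C.card * L := by
    intro a ha
    refine (abs_sum_le_sum_abs _ _).trans ?_
    refine (sum_le_sum fun c hc => h a ha c hc).trans (le_of_eq ?_)
    rw [sum_const, nsmul_eq_mul]
  refine (sum_le_sum h1).trans (le_of_eq ?_)
  rw [sum_const, nsmul_eq_mul]
  ring

/-- spread sets have few small elements -/
lemma Spr.small {B η θ X : ℝ} {C : Finset ℝ} (h : Spr B η θ X C) (hX : 0 < X) (hB : 0 ≤ B) {κ : ℝ}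
    (hκX : X ^ (η - θ) ≤ κ * X ^ (1 - θ)) : ((C.filter (fun c => c < κ * X ^ (1 - θ))).card : ℝ) ≤ 2 * B * κ * C.card := by
  classical
  have h1 := h.long hX hB 0 (κ * X ^ (1 - θ)) hκX
  have e : X ^ (1 - θ) * X ^ (θ - 1) = 1 := by
    rw [← Real.rpow_add hX]
    have : 1 - θ + (θ - 1) = 0 := by ring
    rw [this, Real.rpow_zero]
  have e2 : 2 * B * (κ * X ^ (1 - θ)) * X ^ (θ - 1) * C.card = 2 * B * κ * C.card := by
    calc 2 * B * (κ * X ^ (1 - θ)) * X ^ (θ - 1) * C.card = 2 * B * κ * (X ^ (1 - θ) * X ^ (θ - 1)) * C.card := by ring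
      _ = _ := by rw [e, mul_one]
  rw [e2] at h1
  refine le_trans ?_ h1
  apply Nat.cast_le.2
  apply card_le_card
  intro c hc
  rw [mem_filter] at hc ⊢
  exact ⟨hc.1, (h.pos c hc.1).le, by linarith [hc.2]⟩

/-- spread sets in the logarithmic scale -/
lemma Spr.cell {B η θ X : ℝ} {C : Finset ℝ} (h : Spr B η θ X C) (hX : 1 ≤ X) (hB : 0 ≤ B) {K : ℕ} (hK1 : 1 ≤ K)
    (hK : (K : ℝ) ≤ X ^ (1 - η)) (hK2 : X ^ (1 - η) ≤ 2 * K) (u : ℝ) :
    ((C.filter (fun c => u ≤ Real.log c ∧ Real.log c < u + 1 / K)).card : ℝ) ≤ 8 * B * C.card / K := by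
  classical
  have hX0 : 0 < X := by linarith
  have hK0 : (0 : ℝ) < K := by exact_mod_cast hK1
  have hK1r : (1 : ℝ) ≤ K := by exact_mod_cast hK1
  rcases (C.filter (fun c => u ≤ Real.log c ∧ Real.log c < u + 1 / K)).eq_empty_or_nonempty with h0 | ⟨c0, hc0⟩
  · rw [h0, card_empty, Nat.cast_zero]
    positivity
  · rw [mem_filter] at hc0
    have hc0p := h.pos c0 hc0.1
    have hu : Real.exp u ≤ X ^ (1 - θ) := by
      have h1 : Real.exp u ≤ c0 := by
        rw [← Real.le_log_iff_exp_le hc0p]; exact hc0.2.1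
      exact h1.trans (h.le c0 hc0.1)
    have hL : X ^ (η - θ) ≤ 4 * X ^ (η - θ) := by
      have : 0 < X ^ (η - θ) := by positivity
      linarith
    have h1 := h.long hX0 hB (Real.exp u) (4 * X ^ (η - θ)) hL
    have h2 : ((C.filter (fun c => u ≤ Real.log c ∧ Real.log c < u + 1 / K)).card : ℝ) ≤
        ((C.filter (fun c => Real.exp u ≤ c ∧ c ≤ Real.exp u + 4 * X ^ (η - θ))).card : ℝ) := by
      apply Nat.cast_le.2
      apply card_le_card
      intro c hc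
      rw [mem_filter] at hc ⊢
      have hcp := h.pos c hc.1
      refine ⟨hc.1, ?_, ?_⟩
      · rw [← Real.le_log_iff_exp_le hcp]; exact hc.2.1
      · have h3 : c < Real.exp (u + 1 / K) := by
          rw [← Real.log_lt_iff_lt_exp hcp]; exact hc.2.2
        rw [Real.exp_add] at h3
        have h4 : Real.exp (1 / (K : ℝ)) ≤ 1 + 2 * (1 / K) := by
          have h5 : 1 / (K : ℝ) ≤ 1 := by rw [div_le_iff₀ hK0]; linarith
          have h6 : 0 ≤ 1 / (K : ℝ) := by positivity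
          have h7 := Real.exp_bound' h6 h5 (n := 2) (by norm_num)
          have h8 : Real.exp (1 / (K : ℝ)) ≤ 1 + 1 / K + (1 / K) ^ 2 * 3 / 4 := by
            refine h7.trans (le_of_eq ?_)
            rw [sum_range_succ, sum_range_succ, sum_range_zero]
            norm_num [Nat.factorial]
          nlinarith
        have h5 : Real.exp u * (2 * (1 / K)) ≤ 4 * X ^ (η - θ) := by
          have e : X ^ (η - θ) * X ^ (1 - η) = X ^ (1 - θ) := by
            rw [← Real.rpow_add hX0]; congr 1; ring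
          have h6 : Real.exp u ≤ X ^ (η - θ) * (2 * K) := by
            calc Real.exp u ≤ X ^ (η - θ) * X ^ (1 - η) := by rw [e]; exact hu
              _ ≤ _ := by gcongr
          calc Real.exp u * (2 * (1 / K)) ≤ (X ^ (η - θ) * (2 * K)) * (2 * (1 / K)) := by gcongr
            _ = _ := by field_simp; ring
        have h6 : Real.exp u * Real.exp (1 / (K : ℝ)) ≤ Real.exp u * (1 + 2 * (1 / K)) := by gcongr
        linarith
    refine h2.trans (h1.trans ?_)
    have e : X ^ (η - θ) * X ^ (θ - 1) = 1 / X ^ (1 - η) := by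
      rw [← Real.rpow_add hX0, one_div, ← Real.rpow_neg hX0.le]
      congr 1; ring
    calc 2 * B * (4 * X ^ (η - θ)) * X ^ (θ - 1) * C.card = 8 * B * C.card * (X ^ (η - θ) * X ^ (θ - 1)) := by ring
      _ = 8 * B * C.card * (1 / X ^ (1 - η)) := by rw [e]
      _ ≤ 8 * B * C.card * (1 / K) := by gcongr
      _ = _ := by ring

end Pool.Agent.Y851.PS
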