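import Pool.Agent.Y851.PS.G16

/-! The cut norm of the normalised counts: assembly of the blocks. -/

set_option autoImplicit false

namespace Pool.Agent.Y851.PS
open Finset Filter

/-- sums over blocks -/
lemma block_sum {α β : Type} (A : Finset α) (C : Finset β) (G : α → β → ℝ) (i : α → ℕ) (j : β → ℕ) (J : ℕ)
    (hi : ∀ a ∈ A, i a < J) (hj : ∀ c ∈ C, j c < J) (δ E : ℝ)
    (h : ∀ k l : ℕ, k < J → l < J → |∑ a ∈ A.filter (fun a => i a = k), ∑ c ∈ C.filter (fun c => j c = l), G a c| ≤
      δ * ((A.filter (fun a => i a = k)).card * (C.filter (fun c => j c = l)).card) + E) :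
    |∑ a ∈ A, ∑ c ∈ C, G a c| ≤ δ * (A.card * C.card) + J ^ 2 * E := by
  have e1 : ∑ a ∈ A, ∑ c ∈ C, G a c = ∑ k ∈ range J, ∑ l ∈ range J, ∑ a ∈ A.filter (fun a => i a = k), ∑ c ∈ C.filter (fun c => j c = l), G a c := by
    rw [← sum_fiberwise_of_maps_to (s := A) (t := range J) (g := i) (fun a ha => mem_range.2 (hi a ha))]
    apply sum_congr rfl
    intro k _
    rw [sum_comm]
    rw [← sum_fiberwise_of_maps_to (s := C) (t := range J) (g := j) (fun c hc => mem_range.2 (hj c hc))]
    apply sum_congr rfl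
    intro l _
    rw [sum_comm]
  have c1 : (A.card : ℝ) = ∑ k ∈ range J, ((A.filter (fun a => i a = k)).card : ℝ) := by
    exact_mod_cast card_eq_sum_card_fiberwise (fun a ha => mem_coe.2 (mem_range.2 (hi a (mem_coe.1 ha))))
  have c2 : (C.card : ℝ) = ∑ l ∈ range J, ((C.filter (fun c => j c = l)).card : ℝ) := by
    exact_mod_cast card_eq_sum_card_fiberwise (fun c hc => mem_coe.2 (mem_range.2 (hj c (mem_coe.1 hc))))
  rw [e1]
  refine (abs_sum_le_sum_abs _ _).trans ?_
  have h1 : ∀ k ∈ range J, |∑ l ∈ range J, ∑ a ∈ A.filter (fun a => i a = k), ∑ c ∈ C.filter (fun c => j c = l), G a c| ≤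
      δ * ((A.filter (fun a => i a = k)).card * C.card) + J * E := by
    intro k hk
    refine (abs_sum_le_sum_abs _ _).trans ?_
    refine (sum_le_sum fun l hl => h k l (mem_range.1 hk) (mem_range.1 hl)).trans (le_of_eq ?_)
    rw [sum_add_distrib, sum_const, card_range, nsmul_eq_mul, ← mul_sum, ← mul_sum, ← c2]
  refine (sum_le_sum h1).trans (le_of_eq ?_)
  rw [sum_add_distrib, sum_const, card_range, nsmul_eq_mul, ← mul_sum, ← sum_mul, ← c1]
  ring

lemma aux_c2 (L J δ' a : ℝ) (hL : 0 < L) (hJ : 0 < J) : J ^ 2 * (L * (δ' / (4 * L * J ^ 2)) * a) = δ' / 4 * a := by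
  field_simp

lemma aux_c3 (L δ' a c : ℝ) (hL : 0 < L) : L * (a * (δ' / (4 * L) * c)) = δ' / 4 * (a * c) := by
  field_simp

lemma aux_c4 (L δ' a c : ℝ) (hL : 0 < L) : L * (δ' / (4 * L) * a * c) = δ' / 4 * (a * c) := by
  field_simp

/-- **The cut norm.** -/
theorem cut_main (θ η ε δ B δ' : ℝ) (hθ : 0 < θ) (hη : 0 < η) (hηε : η < ε) (hε1 : ε < 1) (hδ : 0 < δ) (hB : 1 ≤ B)
    (hδ' : 0 < δ') : ∀ᶠ X : ℝ in atTop, ∀ (A : Finset ℕ) (C : Finset ℝ), Adm δ θ X A → Spr B η θ X C →
    Cut A C (fun a c => Z0 ε (a * c)) δ' := by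
  classical
  have hε : 0 < ε := hη.trans hηε
  obtain ⟨L, hL, hZL⟩ := Z0_bound ε hε
  have hL0 : 0 < L := by linarith
  have hGL : ∀ x, |Z0 ε x - 1| ≤ L := by
    intro x
    have h1 := Z0_nonneg ε x
    have h2 := hZL x
    rw [abs_le]; constructor <;> linarith
  -- parameters
  set δb := min 1 (δ' / 4) with hδb
  have hδb0 : 0 < δb := lt_min one_pos (by positivity)
  have hδb1 : δb ≤ 1 := min_le_left _ _
  have hδb2 : δb ≤ δ' / 4 := min_le_right _ _
  set w := min (1 / 8) (δb / 24) with hw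
  have hw0 : 0 < w := lt_min (by norm_num) (by positivity)
  have hw1 : w ≤ 1 / 8 := min_le_left _ _
  obtain ⟨κ₀, hκ₀0, hκ₀1, hsmallA⟩ := small_adm δ θ (δ' / (4 * L)) hδ hθ (by positivity)
  set κ := min κ₀ (δ' / (8 * B * L)) with hκ
  have hκ0 : 0 < κ := lt_min hκ₀0 (by positivity)
  have hκκ₀ : κ ≤ κ₀ := min_le_left _ _
  have hκ1 : κ ≤ 1 := hκκ₀.trans hκ₀1
  have hκB : 2 * B * κ ≤ δ' / (4 * L) := by
    have h1 : κ ≤ δ' / (8 * B * L) := min_le_right _ _
    calc 2 * B * κ ≤ 2 * B * (δ' / (8 * B * L)) := by gcongr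
      _ = δ' / (4 * L) := by field_simp; ring
  set J : ℕ := ⌊Real.log (1 / κ) / (w / 2)⌋₊ + 1 with hJ
  have hJ1 : (1 : ℝ) ≤ J := by rw [hJ]; push_cast; linarith [Nat.cast_nonneg (α := ℝ) ⌊Real.log (1 / κ) / (w / 2)⌋₊]
  have hJ0 : (0 : ℝ) < J := by linarith
  have hlogκ : 0 ≤ Real.log (1 / κ) := Real.log_nonneg (by rw [le_div_iff₀ hκ0]; linarith)
  set ρ : ℝ := δ' / (4 * L * J ^ 2) with hρ
  have hρ0 : 0 < ρ := by positivity
  set B' : ℝ := 8 * B / ρ + 1 with hB'
  have hB'1 : 1 ≤ B' := by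
    have : 0 ≤ 8 * B / ρ := by positivity
    linarith
  obtain ⟨κb, hκb, hblock⟩ := blockZ ε (η / 2) ((η + ε) / 2) B' δb (by positivity) (by linarith) (by linarith) hε hε1 hB'1 hδb0 hδb1
  obtain ⟨μ, T0, hμ, hmaj⟩ := maj_adm δ θ ρ κb hδ hθ hρ0 hκb
  obtain ⟨Y₀, hb⟩ := hblock μ T0 hμ
  filter_upwards [hsmallA, hmaj, eventually_ge_atTop 2, Real.tendsto_log_atTop.eventually_ge_atTop (Y₀ + J * w),
    Real.tendsto_log_atTop.eventually_ge_atTop (J * w / (η / 2)), Real.tendsto_log_atTop.eventually_ge_atTop (J * w / (θ / 2)),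
    ev_logpow 0 η (1 / 2) hη (by norm_num), ev_logpow 0 (1 - η) (min κ (1 / 2)) (by linarith) (lt_min hκ0 (by norm_num)),
    ev_logpow 0 ((ε - η) / 2) (1 / 2) (by linarith) (by norm_num)]
    with X hsA hmj hX2 hXY hXη hXθ hX1 hX3 hX4 A C hA hC A' hA' C' hC'
  rw [pow_zero] at hX1 hX3 hX4
  have hX0 : 0 < X := by linarith
  have hX1' : 1 ≤ X := by linarith
  rw [div_le_iff₀ (by positivity)] at hXη hXθ
  set ℓ := Real.log X with hℓ
  have hX3a : 1 ≤ κ * X ^ (1 - η) := hX3.trans (by gcongr; exact min_le_left _ _)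
  have hX3b : 1 ≤ 1 / 2 * X ^ (1 - η) := hX3.trans (by gcongr; exact min_le_right _ _)
  -- K
  set K : ℕ := ⌊X ^ (1 - η)⌋₊ with hK
  have hKle : (K : ℝ) ≤ X ^ (1 - η) := Nat.floor_le (by positivity)
  have hKge : X ^ (1 - η) ≤ 2 * K := by
    have := Nat.lt_floor_add_one (X ^ (1 - η))
    rw [← hK] at this
    linarith
  have hK1 : 1 ≤ K := by
    apply Nat.le_floor
    push_cast
    linarith
  have hK0 : (0 : ℝ) < K := by exact_mod_cast hK1
  have h2K : 2 * (K : ℝ) ≤ X := by
    calc 2 * (K : ℝ) ≤ 2 * (1 * X ^ (1 - η)) := by linarith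
      _ ≤ 2 * ((1 / 2 * X ^ η) * X ^ (1 - η)) := by gcongr
      _ = X ^ η * X ^ (1 - η) := by ring
      _ = X := by
        rw [← Real.rpow_add hX0]
        have : η + (1 - η) = 1 := by ring
        rw [this, Real.rpow_one]
  have hKη₂ : X ^ (1 - (η + ε) / 2) ≤ K := by
    have e : X ^ (1 - (η + ε) / 2) * X ^ ((ε - η) / 2) = X ^ (1 - η) := by
      rw [← Real.rpow_add hX0]; congr 1; ring
    have h1 : 2 * X ^ (1 - (η + ε) / 2) ≤ X ^ (1 - η) := by
      rw [← e]
      have h2 : 0 < X ^ (1 - (η + ε) / 2) := by positivity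
      have h3 := mul_le_mul_of_nonneg_left (show (2 : ℝ) ≤ X ^ ((ε - η) / 2) by linarith only [hX4]) h2.le
      linarith only [h3]
    linarith only [h1, hKge]
  -- large elements
  set Al := A'.filter (fun a : ℕ => κ * X ^ θ ≤ (a : ℝ)) with hAl
  set As := A'.filter (fun a : ℕ => ¬ κ * X ^ θ ≤ (a : ℝ)) with hAs
  set Cl := C'.filter (fun c => κ * X ^ (1 - θ) ≤ c) with hCl
  set Cs := C'.filter (fun c => ¬ κ * X ^ (1 - θ) ≤ c) with hCs
  have hAscard : (As.card : ℝ) ≤ δ' / (4 * L) * A.card := by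
    refine le_trans ?_ (hsA A hA)
    apply Nat.cast_le.2
    apply card_le_card
    intro a ha
    rw [hAs, mem_filter, not_le] at ha
    rw [mem_filter]
    refine ⟨hA' ha.1, lt_of_lt_of_le ha.2 ?_⟩
    gcongr
  have hCscard : (Cs.card : ℝ) ≤ δ' / (4 * L) * C.card := by
    have h1 : X ^ (η - θ) ≤ κ * X ^ (1 - θ) := by
      have e : X ^ (η - θ) * X ^ (1 - η) = X ^ (1 - θ) := by rw [← Real.rpow_add hX0]; congr 1; ring
      rw [← e]
      have h2 : 0 < X ^ (η - θ) := by positivity
      have h3 := mul_le_mul_of_nonneg_left hX3a h2.le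
      linarith only [h3]
    have h2 := hC.small hX0 (by linarith only [hB]) h1
    have h3 : (Cs.card : ℝ) ≤ 2 * B * κ * C.card := by
      refine le_trans ?_ h2
      apply Nat.cast_le.2
      apply card_le_card
      intro c hc
      rw [hCs, mem_filter, not_le] at hc
      rw [mem_filter]
      exact ⟨hC' hc.1, hc.2⟩
    exact h3.trans (mul_le_mul_of_nonneg_right hκB (Nat.cast_nonneg _))
  have hA'card : (A'.card : ℝ) ≤ A.card := by exact_mod_cast card_le_card hA'
  have hC'card : (C'.card : ℝ) ≤ C.card := by exact_mod_cast card_le_card hC'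
  have hAlcard : (Al.card : ℝ) ≤ A.card := by exact_mod_cast (card_le_card (filter_subset _ _)).trans (card_le_card hA')
  have hClcard : (Cl.card : ℝ) ≤ C.card := by exact_mod_cast (card_le_card (filter_subset _ _)).trans (card_le_card hC')
  -- indices
  set iA : ℕ → ℕ := fun a => ⌊(θ * ℓ - Real.log a) / (w / 2)⌋₊ with hiA
  set jC : ℝ → ℕ := fun c => ⌊((1 - θ) * ℓ - Real.log c) / (w / 2)⌋₊ with hjC
  have hidx : ∀ s t : ℝ, 0 < s → κ * X ^ t ≤ s → s ≤ X ^ t → ⌊(t * ℓ - Real.log s) / (w / 2)⌋₊ < J ∧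
      |Real.log s - (t * ℓ - (⌊(t * ℓ - Real.log s) / (w / 2)⌋₊ : ℝ) * (w / 2))| ≤ w / 2 := by
    intro s t hs h1 h2
    have h3 : Real.log s ≤ t * ℓ := by
      have := Real.log_le_log hs h2
      rwa [Real.log_rpow hX0] at this
    have h4 : t * ℓ - Real.log (1 / κ) ≤ Real.log s := by
      have := Real.log_le_log (by positivity) h1
      rw [Real.log_mul hκ0.ne' (by positivity), Real.log_rpow hX0] at this
      rw [one_div, Real.log_inv]
      linarith
    have h5 : 0 ≤ (t * ℓ - Real.log s) / (w / 2) := by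
      apply div_nonneg _ (by positivity)
      linarith
    have h6 := Nat.floor_le h5
    have h7 := Nat.lt_floor_add_one ((t * ℓ - Real.log s) / (w / 2))
    rw [le_div_iff₀ (by positivity)] at h6
    rw [div_lt_iff₀ (by positivity)] at h7
    constructor
    · rw [hJ, Nat.lt_succ_iff]
      apply Nat.floor_mono
      apply div_le_div_of_nonneg_right _ (by positivity)
      linarith
    · rw [abs_le]
      constructor <;> linarith
  have hAlp : ∀ a ∈ Al, 1 ≤ a ∧ κ * X ^ θ ≤ a ∧ (a : ℝ) ≤ X ^ θ := by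
    intro a ha
    rw [hAl, mem_filter] at ha
    exact ⟨(hA.1 a (hA' ha.1)).1, ha.2, (hA.1 a (hA' ha.1)).2⟩
  have hClp : ∀ c ∈ Cl, 0 < c ∧ κ * X ^ (1 - θ) ≤ c ∧ c ≤ X ^ (1 - θ) := by
    intro c hc
    rw [hCl, mem_filter] at hc
    exact ⟨hC.pos c (hC' hc.1), hc.2, hC.le c (hC' hc.1)⟩
  have hlarge : |∑ a ∈ Al, ∑ c ∈ Cl, (Z0 ε (a * c) - 1)| ≤ δb * (Al.card * Cl.card) + J ^ 2 * (L * ρ * (A.card * C.card)) := by
    apply block_sum Al Cl (fun a c => Z0 ε (a * c) - 1) iA jC J
    · intro a ha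
      obtain ⟨h1, h2, h3⟩ := hAlp a ha
      exact (hidx a θ (by exact_mod_cast h1) h2 h3).1
    · intro c hc
      obtain ⟨h1, h2, h3⟩ := hClp c hc
      exact (hidx c (1 - θ) h1 h2 h3).1
    · intro k l hk hl
      set A1 := Al.filter (fun a => iA a = k) with hA1
      set C1 := Cl.filter (fun c => jC c = l) with hC1
      have hA1A : A1 ⊆ A := (filter_subset _ _).trans ((filter_subset _ _).trans hA')
      have hC1C : C1 ⊆ C := (filter_subset _ _).trans ((filter_subset _ _).trans hC')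
      have hA1c : (A1.card : ℝ) ≤ A.card := by exact_mod_cast card_le_card hA1A
      have hC1c : (C1.card : ℝ) ≤ C.card := by exact_mod_cast card_le_card hC1C
      have htriv := dsum_abs A1 C1 (fun a c => Z0 ε (a * c) - 1) L (fun a _ c _ => hGL _)
      have hpos1 : 0 ≤ δb * ((A1.card : ℝ) * C1.card) :=
        mul_nonneg hδb0.le (mul_nonneg (Nat.cast_nonneg _) (Nat.cast_nonneg _))
      have hpos2 : 0 ≤ L * ρ * ((A.card : ℝ) * C.card) :=
        mul_nonneg (mul_nonneg hL0.le hρ0.le) (mul_nonneg (Nat.cast_nonneg _) (Nat.cast_nonneg _))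
      by_cases hAbig : ρ * A.card ≤ A1.card
      · by_cases hCbig : ρ * C.card ≤ C1.card
        · -- the main case
          have hkr : (k : ℝ) + 1 ≤ J := by exact_mod_cast hk
          have hlr : (l : ℝ) + 1 ≤ J := by exact_mod_cast hl
          have hk0 : (0 : ℝ) ≤ k := Nat.cast_nonneg k
          have hl0 : (0 : ℝ) ≤ l := Nat.cast_nonneg l
          have hA1p : ∀ a ∈ A1, 1 ≤ a ∧ |Real.log a - (θ * ℓ - k * (w / 2))| ≤ w / 2 := by
            intro a ha
            rw [hA1, mem_filter] at ha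
            obtain ⟨h1, h2, h3⟩ := hAlp a ha.1
            have h4 := (hidx a θ (by exact_mod_cast h1) h2 h3).2
            have h5 : (⌊(θ * ℓ - Real.log a) / (w / 2)⌋₊ : ℝ) = k := by
              have := ha.2
              rw [hiA] at this
              simp only at this
              rw [this]
            rw [h5] at h4
            exact ⟨h1, h4⟩
          have hC1p : ∀ c ∈ C1, 0 < c ∧ |Real.log c - ((1 - θ) * ℓ - l * (w / 2))| ≤ w / 2 := by
            intro c hc
            rw [hC1, mem_filter] at hc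
            obtain ⟨h1, h2, h3⟩ := hClp c hc.1
            have h4 := (hidx c (1 - θ) h1 h2 h3).2
            have h5 : (⌊((1 - θ) * ℓ - Real.log c) / (w / 2)⌋₊ : ℝ) = l := by
              have := hc.2
              rw [hjC] at this
              simp only at this
              rw [this]
            rw [h5] at h4
            exact ⟨h1, h4⟩
          set V := θ * ℓ - k * (w / 2) with hV
          set U := (1 - θ) * ℓ - l * (w / 2) with hU
          have hw2' : 0 ≤ w / 2 := by linarith only [hw0]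
          have hkw : (k : ℝ) * (w / 2) ≤ J * w / 2 := by
            have h3 := mul_le_mul_of_nonneg_right (show (k : ℝ) ≤ J by linarith only [hkr]) hw2'
            linarith only [h3]
          have hlw : (l : ℝ) * (w / 2) ≤ J * w / 2 := by
            have h3 := mul_le_mul_of_nonneg_right (show (l : ℝ) ≤ J by linarith only [hlr]) hw2'
            linarith only [h3]
          have hkw0 : 0 ≤ (k : ℝ) * (w / 2) := by positivity
          have hlw0 : 0 ≤ (l : ℝ) * (w / 2) := by positivity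
          have hYle : V + U ≤ ℓ := by rw [hV, hU]; linarith only [hkw0, hlw0]
          have hYge : ℓ - J * w ≤ V + U := by rw [hV, hU]; linarith only [hkw, hlw]
          have hJw : 0 ≤ (J : ℝ) * w := by positivity
          have hw4 : w / 2 ≤ 1 / 2 := by linarith only [hw1]
          have hM := hmj A hA A1 hA1A hAbig V (by rw [hV]; linarith only [hkw, hXθ, hJw]) (by rw [hV]; linarith only [hkw0]) (fun a ha => ((hA1p a ha).2).trans hw4) K h2K
          have hcell : ∀ u : ℝ, ((C1.filter (fun c => u ≤ Real.log c ∧ Real.log c < u + 1 / K)).card : ℝ) ≤ B' * C1.card / K := by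
            intro u
            have h1 := hC.cell hX1' (by linarith only [hB]) hK1 hKle hKge u
            have h2 : ((C1.filter (fun c => u ≤ Real.log c ∧ Real.log c < u + 1 / K)).card : ℝ) ≤
                ((C.filter (fun c => u ≤ Real.log c ∧ Real.log c < u + 1 / K)).card : ℝ) := by
              exact_mod_cast card_le_card (filter_subset_filter _ hC1C)
            refine h2.trans (h1.trans ?_)
            apply div_le_div_of_nonneg_right _ hK0.le
            have h3 : (C.card : ℝ) ≤ C1.card / ρ := by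
              rw [le_div_iff₀ hρ0]; linarith only [hCbig]
            calc 8 * B * (C.card : ℝ) ≤ 8 * B * (C1.card / ρ) :=
                  mul_le_mul_of_nonneg_left h3 (by linarith only [hB])
              _ = 8 * B / ρ * C1.card := by ring
              _ ≤ B' * C1.card := by
                apply mul_le_mul_of_nonneg_right _ (Nat.cast_nonneg _)
                rw [hB']; linarith only
          have hexp1 : Real.exp ((1 - (η + ε) / 2) * (V + U)) ≤ K := by
            refine le_trans ?_ hKη₂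
            rw [Real.rpow_def_of_pos hX0, Real.exp_le_exp, ← hℓ, mul_comm ℓ]
            apply mul_le_mul_of_nonneg_left hYle
            linarith only [hηε, hε1]
          have hexp2 : (K : ℝ) ≤ Real.exp ((1 - η / 2) * (V + U)) := by
            refine hKle.trans ?_
            rw [Real.rpow_def_of_pos hX0, Real.exp_le_exp, ← hℓ]
            have h1 : (1 - η / 2) * (ℓ - J * w) ≤ (1 - η / 2) * (V + U) := by
              apply mul_le_mul_of_nonneg_left hYge
              linarith only [hηε, hε1, hη]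
            have h2 : 0 ≤ η * (J * w) := mul_nonneg hη.le hJw
            linarith only [h1, h2, hXη]
          have hres := hb (V + U) (by linarith only [hXY, hYge]) K hexp1 hexp2 A1 (fun a ha => (hA1p a ha).1) hM C1 (fun c hc => (hC1p c hc).1) hcell
            (by
              intro c hc c' hc'
              have h1 := abs_le.1 (hC1p c hc).2
              have h2 := abs_le.1 (hC1p c' hc').2
              rw [abs_le]; constructor <;> linarith only [h1.1, h1.2, h2.1, h2.2, hw4])
            (by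
              intro a ha c hc
              have h1 := abs_le.1 (hA1p a ha).2
              have h2 := abs_le.1 (hC1p c hc).2
              rw [← hw, abs_le]; constructor <;> linarith only [h1.1, h1.2, h2.1, h2.2])
          linarith only [hres, hpos2]
        · push Not at hCbig
          have h1 : L * ((A1.card : ℝ) * C1.card) ≤ L * ρ * (A.card * C.card) := by
            calc L * ((A1.card : ℝ) * C1.card) ≤ L * (A.card * (ρ * C.card)) :=
                  mul_le_mul_of_nonneg_left (mul_le_mul hA1c hCbig.le (Nat.cast_nonneg _) (Nat.cast_nonneg _)) hL0.le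
              _ = _ := by ring
          linarith only [h1, htriv, hpos1]
      · push Not at hAbig
        have h1 : L * ((A1.card : ℝ) * C1.card) ≤ L * ρ * (A.card * C.card) := by
          calc L * ((A1.card : ℝ) * C1.card) ≤ L * ((ρ * A.card) * C.card) :=
                mul_le_mul_of_nonneg_left (mul_le_mul hAbig.le hC1c (Nat.cast_nonneg _)
                  (mul_nonneg hρ0.le (Nat.cast_nonneg _))) hL0.le
            _ = _ := by ring
        linarith only [h1, htriv, hpos1]
  -- assembly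
  have e1 : ∑ a ∈ A', ∑ c ∈ C', (Z0 ε (a * c) - 1) = ∑ a ∈ Al, ∑ c ∈ Cl, (Z0 ε (a * c) - 1) + ∑ a ∈ Al, ∑ c ∈ Cs, (Z0 ε (a * c) - 1) +
      ∑ a ∈ As, ∑ c ∈ C', (Z0 ε (a * c) - 1) := by
    rw [← sum_filter_add_sum_filter_not A' (fun a : ℕ => κ * X ^ θ ≤ (a : ℝ)), ← sum_add_distrib]
    congr 1
    apply sum_congr rfl
    intro a _
    rw [← sum_filter_add_sum_filter_not C' (fun c => κ * X ^ (1 - θ) ≤ c)]
  have b2 := dsum_abs Al Cs (fun (a : ℕ) (c : ℝ) => Z0 ε (a * c) - 1) L (fun a _ c _ => hGL _)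
  have b3 := dsum_abs As C' (fun (a : ℕ) (c : ℝ) => Z0 ε (a * c) - 1) L (fun a _ c _ => hGL _)
  have c1 : δb * ((Al.card : ℝ) * Cl.card) ≤ δ' / 4 * (A.card * C.card) :=
    mul_le_mul hδb2 (mul_le_mul hAlcard hClcard (Nat.cast_nonneg _) (Nat.cast_nonneg _))
      (mul_nonneg (Nat.cast_nonneg _) (Nat.cast_nonneg _)) (by linarith only [hδ'])
  have c2 : (J : ℝ) ^ 2 * (L * ρ * (A.card * C.card)) = δ' / 4 * (A.card * C.card) := aux_c2 _ _ _ _ hL0 hJ0
  have c3 : L * ((Al.card : ℝ) * Cs.card) ≤ δ' / 4 * (A.card * C.card) := by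
    refine (mul_le_mul_of_nonneg_left (mul_le_mul hAlcard hCscard (Nat.cast_nonneg _) (Nat.cast_nonneg _)) hL0.le).trans (le_of_eq ?_)
    exact aux_c3 _ _ _ _ hL0
  have c4 : L * ((As.card : ℝ) * C'.card) ≤ δ' / 4 * (A.card * C.card) := by
    refine (mul_le_mul_of_nonneg_left (mul_le_mul hAscard hC'card (Nat.cast_nonneg _)
      (le_trans (Nat.cast_nonneg _) hAscard)) hL0.le).trans (le_of_eq ?_)
    exact aux_c4 _ _ _ _ hL0
  change |∑ a ∈ A', ∑ c ∈ C', (Z0 ε (a * c) - 1)| ≤ δ' * (A.card * C.card)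
  rw [e1]
  refine (abs_add_le _ _).trans ?_
  have h1 := abs_add_le (∑ a ∈ Al, ∑ c ∈ Cl, (Z0 ε (a * c) - 1)) (∑ a ∈ Al, ∑ c ∈ Cs, (Z0 ε (a * c) - 1))
  linarith only [h1, hlarge, b2, b3, c1, c2, c3, c4]

end Pool.Agent.Y851.PS
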