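import Pool.Agent.Y851.PS.G17

/-! Almost all elements and almost all tuples. -/

set_option autoImplicit false

namespace Pool.Agent.Y851.PS
open Finset Filter

/-- **Upper bound on average**, without cut-offs. -/
theorem uppZ (θ η ε δ B δ' : ℝ) (hθ : 0 < θ) (hη : 0 < η) (hηε : η < ε) (hε1 : ε < 1) (hδ : 0 < δ) (hB : 1 ≤ B)
    (hδ' : 0 < δ') : ∀ᶠ X : ℝ in atTop, ∀ (A : Finset ℕ) (C : Finset ℝ), Adm δ θ X A → Spr B η θ X C →
    ∑ a ∈ A, ∑ c ∈ C, max 0 (Z0 ε (a * c) - 4) ≤ δ' * (A.card * C.card) := by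
  classical
  have hε : 0 < ε := hη.trans hηε
  obtain ⟨L, hL, hZL⟩ := Z0_bound ε hε
  have hL0 : 0 < L := by linarith
  obtain ⟨κ₀, hκ₀0, hκ₀1, hsmallA⟩ := small_adm δ θ (δ' / (4 * L)) hδ hθ (by positivity)
  set κ := min κ₀ (δ' / (8 * B * L)) with hκ
  have hκ0 : 0 < κ := lt_min hκ₀0 (by positivity)
  have hκκ₀ : κ ≤ κ₀ := min_le_left _ _
  have hκ1 : κ ≤ 1 := hκκ₀.trans hκ₀1
  have hκB : 2 * B * κ ≤ δ' / (4 * L) := by
    have h1 : κ ≤ δ' / (8 * B * L) := min_le_right _ _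
    calc 2 * B * κ ≤ 2 * B * (δ' / (8 * B * L)) := by gcongr
      _ = δ' / (4 * L) := by field_simp; ring
  filter_upwards [hsmallA, upp B ε θ η κ (δ' / 2) hB hηε hε hε1 hκ0 hκ1 (by positivity), eventually_ge_atTop (max 2 (1 / κ ^ 2)),
    ev_logpow 0 (1 - η) κ (by linarith) hκ0] with X hsA hup hX2 hX3 A C hA hC
  rw [pow_zero] at hX3
  have hX2' : 2 ≤ X := (le_max_left _ _).trans hX2
  have hXκ : 1 / κ ^ 2 ≤ X := (le_max_right _ _).trans hX2
  have hX0 : 0 < X := by linarith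
  have hX1 : 1 ≤ X := by linarith
  have h1 := hup A C (fun a ha => (hA.1 a ha).2) hC
  have hAs : ((A.filter (fun a : ℕ => (a : ℝ) < κ * X ^ θ)).card : ℝ) ≤ δ' / (4 * L) * A.card := by
    refine le_trans ?_ (hsA A hA)
    apply Nat.cast_le.2
    apply card_le_card
    intro a ha
    rw [mem_filter] at ha ⊢
    refine ⟨ha.1, lt_of_lt_of_le ha.2 ?_⟩
    gcongr
  have hCs : ((C.filter (fun c => c < κ * X ^ (1 - θ))).card : ℝ) ≤ δ' / (4 * L) * C.card := by
    have h2 : X ^ (η - θ) ≤ κ * X ^ (1 - θ) := by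
      have e : X ^ (η - θ) * X ^ (1 - η) = X ^ (1 - θ) := by rw [← Real.rpow_add hX0]; congr 1; ring
      rw [← e]
      have : 0 < X ^ (η - θ) := by positivity
      nlinarith
    have h3 := hC.small hX0 (by linarith) h2
    refine h3.trans ?_
    gcongr
  have hpt : ∀ a ∈ A, ∀ c ∈ C, max 0 (Z0 ε (a * c) - 4) ≤ max 0 (Zf X ε θ κ a c - 4) +
      ((if (a : ℝ) < κ * X ^ θ then L else 0) + (if c < κ * X ^ (1 - θ) then L else 0)) := by
    intro a ha c hc
    have hm0 : 0 ≤ max 0 (Zf X ε θ κ a c - 4) := le_max_left _ _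
    have hm : max 0 (Z0 ε (a * c) - 4) ≤ L := max_le hL0.le (by linarith [hZL (a * c)])
    split_ifs with g1 g2 g3
    · linarith
    · linarith
    · linarith
    · rw [not_lt] at g1 g3
      have g4 : Z0 ε (a * c) ≤ Zf X ε θ κ a c := by
        unfold Zf Z0
        rw [if_pos ⟨g1, g3⟩]
        obtain ⟨r1, r2⟩ := prod_range hX0 hκ0 g1 g3 (hA.1 a ha).2 (hC.le c hc)
        have r3 : 1 ≤ (a : ℝ) * c := by
          rw [div_le_iff₀ (by positivity)] at hXκ
          linarith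
        have r4 : 0 < (a : ℝ) * c := by linarith
        gcongr
      have g5 : max 0 (Z0 ε (a * c) - 4) ≤ max 0 (Zf X ε θ κ a c - 4) := max_le_max le_rfl (by linarith)
      linarith
  calc ∑ a ∈ A, ∑ c ∈ C, max 0 (Z0 ε (a * c) - 4)
      ≤ ∑ a ∈ A, ∑ c ∈ C, (max 0 (Zf X ε θ κ a c - 4) +
        ((if (a : ℝ) < κ * X ^ θ then L else 0) + (if c < κ * X ^ (1 - θ) then L else 0))) :=
        sum_le_sum fun a ha => sum_le_sum fun c hc => hpt a ha c hc
    _ = ∑ a ∈ A, ∑ c ∈ C, max 0 (Zf X ε θ κ a c - 4) +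
        (L * ((A.filter (fun a : ℕ => (a : ℝ) < κ * X ^ θ)).card * C.card) + L * (A.card * (C.filter (fun c => c < κ * X ^ (1 - θ))).card)) := by
        simp_rw [sum_add_distrib]
        congr 1
        congr 1
        · simp_rw [sum_const, nsmul_eq_mul]
          rw [← mul_sum, ← sum_filter, sum_const, nsmul_eq_mul]
          ring
        · rw [sum_const, nsmul_eq_mul, ← sum_filter, sum_const, nsmul_eq_mul]
          ring
    _ ≤ δ' / 2 * (A.card * C.card) + (L * ((δ' / (4 * L) * A.card) * C.card) + L * (A.card * (δ' / (4 * L) * C.card))) := by gcongr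
    _ = _ := by field_simp; ring

/-- the cut norm is symmetric -/
lemma Cut.swap {α β : Type} {A : Finset α} {C : Finset β} {Z : α → β → ℝ} {δ : ℝ} (h : Cut A C Z δ) :
    Cut C A (fun c a => Z a c) δ := by
  intro C' hC' A' hA'
  have h1 := h A' hA' C' hC'
  rw [sum_comm, mul_comm (C.card : ℝ)]
  exact h1

open Classical in
/-- few exceptional means -/
lemma Cut.mean {α β : Type} {A : Finset α} {C : Finset β} {Z : α → β → ℝ} {δ δ₁ : ℝ} (h : Cut A C Z δ₁) (hδ : 0 < δ)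
    (hδ₁ : 2 * δ₁ ≤ δ ^ 2) : ((C.filter (fun c => δ * A.card < |∑ a ∈ A, Z a c - A.card|)).card : ℝ) ≤ δ * C.card := by
  by_cases hA : A.card = 0
  · have hA' : A = ∅ := card_eq_zero.1 hA
    subst hA'
    simp only [card_empty, Nat.cast_zero, mul_zero, sum_empty, sub_zero, abs_zero, lt_self_iff_false, filter_false]
    positivity
  · have hA0 : (0 : ℝ) < A.card := by exact_mod_cast Nat.pos_of_ne_zero hA
    have hM := markov C (fun c => |∑ a ∈ A, (1 : ℝ) * (Z a c - 1)|) (fun c _ => abs_nonneg _) (2 * 1 * (δ₁ * (A.card * C.card))) (δ * A.card)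
      (by positivity) (cut_abs h (fun _ => 1) 1 (by norm_num) (fun _ _ => by norm_num) (fun _ _ => le_rfl))
      (fun c => δ * A.card < |∑ a ∈ A, Z a c - A.card|) (by
        intro c _ hc
        have e : ∑ a ∈ A, (1 : ℝ) * (Z a c - 1) = ∑ a ∈ A, Z a c - A.card := by
          simp_rw [one_mul, sum_sub_distrib, sum_const, nsmul_eq_mul, mul_one]
        rw [e]
        exact hc.le)
    refine hM.trans ?_
    rw [div_le_iff₀ (by positivity)]
    calc 2 * 1 * (δ₁ * (A.card * C.card)) = (2 * δ₁) * (A.card * C.card) := by ring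
      _ ≤ δ ^ 2 * (A.card * C.card) := by gcongr
      _ = _ := by ring

end Pool.Agent.Y851.PS
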