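import Pool.Agent.Y851.PS.G18

/-! The main theorem on primes in short intervals on average over product sets. -/

set_option autoImplicit false

namespace Pool.Agent.Y851.PS
open Finset Filter

/-- the interval `(x - x ^ ε, x)` contains a prime -/
def HP (ε x : ℝ) : Prop := ∃ p : ℕ, p.Prime ∧ x - x ^ ε < p ∧ (p : ℝ) < x

/-- the number of primes in `(x - x ^ ε, x)` -/
noncomputable def NP (ε x : ℝ) : ℕ := Set.ncard {p : ℕ | p.Prime ∧ x - x ^ ε < p ∧ (p : ℝ) < x}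

lemma NP_eq (ε x : ℝ) : NP ε x = (PF ε x).card := by
  unfold NP
  by_cases hx : 0 ≤ x
  · have : {p : ℕ | p.Prime ∧ x - x ^ ε < p ∧ (p : ℝ) < x} = (PF ε x : Set ℕ) := by
      ext p
      rw [mem_coe, mem_PF hx]
      rfl
    rw [this, Set.ncard_coe_finset]
  · push Not at hx
    rw [PF_empty (by linarith), card_empty]
    have : {p : ℕ | p.Prime ∧ x - x ^ ε < p ∧ (p : ℝ) < x} = ∅ := by
      ext p
      simp only [Set.mem_setOf_eq, Set.mem_empty_iff_false, iff_false]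
      rintro ⟨h1, h2, h3⟩
      have : (0 : ℝ) < p := by exact_mod_cast h1.pos
      linarith
    rw [this, Set.ncard_empty]

lemma Z0_eq (ε x : ℝ) : Z0 ε x = (NP ε x : ℝ) * Real.log x / x ^ ε := by
  rw [NP_eq]; rfl

open Classical in
/-- **Product sets.** -/
theorem products (ε : ℝ) (hε0 : 0 < ε) (hε1 : ε < 1) (n : ℕ) (hn : 1 ≤ n) : ∃ κ : ℝ, 0 < κ ∧ ∀ θ η δ B : ℝ, 0 < θ → 0 < η → η < ε →
    0 < δ → 1 ≤ B → ∀ᶠ X : ℝ in atTop, ∀ (A : Finset ℕ) (C : Finset ℝ), Adm δ θ X A → Spr B η θ X C →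
    ((C.filter (fun c => δ * A.card < |∑ a ∈ A, (NP ε (a * c) : ℝ) * Real.log (a * c) / (a * c) ^ ε - A.card|)).card : ℝ) ≤ δ * C.card ∧
    ((A.filter (fun a : ℕ => δ * C.card < |∑ c ∈ C, (NP ε (a * c) : ℝ) * Real.log (a * c) / (a * c) ^ ε - C.card|)).card : ℝ) ≤ δ * A.card ∧
    (((Fintype.piFinset (fun _ : Fin n => C)).filter (fun y => ¬
      (((n : ℝ) / (n + 3) - δ) * A.card ≤ ((A.filter (fun a : ℕ => ∃ j, HP ε (a * y j))).card : ℝ) ∧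
      κ * A.card ≤ ((A.filter (fun a : ℕ => ∀ j, HP ε (a * y j))).card : ℝ)))).card : ℝ) ≤ δ * (C.card : ℝ) ^ n ∧
    (((Fintype.piFinset (fun _ : Fin n => A)).filter (fun y => ¬
      (((n : ℝ) / (n + 3) - δ) * C.card ≤ ((C.filter (fun c => ∃ j, HP ε (y j * c))).card : ℝ) ∧
      κ * C.card ≤ ((C.filter (fun c => ∀ j, HP ε (y j * c))).card : ℝ)))).card : ℝ) ≤ δ * (A.card : ℝ) ^ n := by
  obtain ⟨L, hL, hZL⟩ := Z0_bound ε hε0
  refine ⟨1 / (2 * L ^ n), by positivity, fun θ η δ B hθ hη hηε hδ hB => ?_⟩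
  obtain ⟨δ₁, hδ₁, htup⟩ := tuples_good n hn L δ hL hδ
  set δ₂ := min δ₁ (δ ^ 2 / 2) with hδ₂
  have hδ₂0 : 0 < δ₂ := lt_min hδ₁ (by positivity)
  have hδ₂1 : δ₂ ≤ δ₁ := min_le_left _ _
  have hδ₂2 : 2 * δ₂ ≤ δ ^ 2 := by
    have : δ₂ ≤ δ ^ 2 / 2 := min_le_right _ _
    linarith
  filter_upwards [cut_main θ η ε δ B δ₂ hθ hη hηε hε1 hδ hB hδ₂0, uppZ θ η ε δ B δ₂ hθ hη hηε hε1 hδ hB hδ₂0] with X h1 h2 A C hA hC
  have hcut := h1 A C hA hC
  have hupp := h2 A C hA hC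
  have hAC : (0 : ℝ) ≤ A.card * C.card := by positivity
  have hcut₁ : Cut A C (fun a c => Z0 ε (a * c)) δ₁ := fun A' hA' C' hC' => (hcut A' hA' C' hC').trans (by gcongr)
  have hP : ∀ x, HP ε x ↔ 0 < Z0 ε x := fun x => (Z0_pos_iff ε x).symm
  refine ⟨?_, ?_, ?_, ?_⟩
  · have := hcut.mean hδ hδ₂2
    simp_rw [Z0_eq] at this
    convert this
  · have := hcut.swap.mean hδ hδ₂2
    simp_rw [Z0_eq] at this
    convert this
  · have := htup ℕ ℝ A C (fun a c => Z0 ε (a * c)) hcut₁ (fun _ _ _ _ => Z0_nonneg _ _) (fun _ _ _ _ => hZL _) (hupp.trans (by gcongr))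
    simp_rw [hP]
    convert this
  · have hupp' : ∑ c ∈ C, ∑ a ∈ A, max 0 (Z0 ε (a * c) - 4) ≤ δ₁ * (C.card * A.card) := by
      rw [sum_comm, mul_comm (C.card : ℝ)]
      exact hupp.trans (by gcongr)
    have := htup ℝ ℕ C A (fun c a => Z0 ε (a * c)) hcut₁.swap (fun _ _ _ _ => Z0_nonneg _ _) (fun _ _ _ _ => hZL _) hupp'
    simp_rw [hP]
    convert this

end Pool.Agent.Y851.PS
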