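import Pool.Agent.Y851.PS.G1

/-! The bilinear inequality. -/

set_option autoImplicit false

namespace Pool.Agent.Y851.PS
open Finset
open Pool.Agent.H376R2.MR (Fj FK ch Fj_nonneg Fj_le Fj_le_sq fej_exp fej_eq_norm ls_norm_ch ls_ch_mul ls_ch_cont ls_orth ls_sq)

/-- transform of a weighted family of points -/
noncomputable def TF {ι : Type} (S : Finset ι) (x l : ι → ℝ) (k : ℤ) : ℂ := ∑ i ∈ S, (x i : ℂ) * ch k (l i)

/-- the triangle weights -/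
noncomputable def wt (K : ℕ) (k : ℤ) : ℝ := max 0 (1 - |(k : ℝ)| / K)

lemma wt_nonneg (K : ℕ) (k : ℤ) : 0 ≤ wt K k := le_max_left _ _

lemma wt_le (K : ℕ) (k : ℤ) : wt K k ≤ 1 := by
  unfold wt
  apply max_le zero_le_one
  have : 0 ≤ |(k : ℝ)| / K := by positivity
  linarith

lemma wt_eq {K : ℕ} {k : ℤ} (hk : k ∈ FK K) : wt K k = 1 - |(k : ℝ)| / K := by
  unfold wt
  unfold Pool.Agent.H376R2.MR.FK at hk
  rw [mem_Ioo] at hk
  apply max_eq_right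
  have h1 : |k| < K := abs_lt.2 hk
  have h2 : |(k : ℝ)| < K := by exact_mod_cast h1
  have h3 : (0 : ℝ) < K := lt_of_le_of_lt (abs_nonneg _) h2
  have : |(k : ℝ)| / K ≤ 1 := by rw [div_le_one h3]; exact h2.le
  linarith

lemma wt_zero {K : ℕ} {k : ℤ} (hK : 1 ≤ K) (hk : k ∉ FK K) : wt K k = 0 := by
  unfold wt
  unfold Pool.Agent.H376R2.MR.FK at hk
  rw [mem_Ioo] at hk
  apply max_eq_left
  have hK0 : (0 : ℝ) < K := by exact_mod_cast hK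
  have h1 : ¬ |k| < K := fun h => hk (abs_lt.1 h)
  have h2 : (K : ℝ) ≤ |(k : ℝ)| := by
    push Not at h1
    exact_mod_cast h1
  have : 1 ≤ |(k : ℝ)| / K := by rw [le_div_iff₀ hK0]; linarith
  linarith

lemma wt_mono {K₁ K : ℕ} (h1 : 1 ≤ K₁) (h : K₁ ≤ K) (k : ℤ) : wt K₁ k ≤ wt K k := by
  unfold wt
  apply max_le_max le_rfl
  have h1r : (0 : ℝ) < K₁ := by exact_mod_cast h1
  have : |(k : ℝ)| / K ≤ |(k : ℝ)| / K₁ := by
    apply div_le_div_of_nonneg_left (abs_nonneg _) h1r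
    exact_mod_cast h
  linarith

lemma FK_mono {K₁ K : ℕ} (h : K₁ ≤ K) : FK K₁ ⊆ FK K := by
  unfold Pool.Agent.H376R2.MR.FK
  apply Ioo_subset_Ioo
  · simp only [neg_le_neg_iff]; exact_mod_cast h
  · exact_mod_cast h

lemma Fj_ch (K : ℕ) (u : ℝ) : (Fj K u : ℂ) = ∑ k ∈ FK K, (wt K k : ℂ) * ch k u := by
  rw [← fej_exp]
  apply sum_congr rfl
  intro k hk
  rw [wt_eq hk]
  rfl

lemma ch_add (k : ℤ) (x y : ℝ) : ch k (x + y) = ch k x * ch k y := by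
  unfold Pool.Agent.H376R2.MR.ch
  rw [← Complex.exp_add]
  congr 1
  push_cast
  ring

lemma ch_sub (k : ℤ) (x y : ℝ) : ch k (x - y) = ch k x * (starRingEnd ℂ) (ch k y) := by
  unfold Pool.Agent.H376R2.MR.ch
  rw [← Complex.exp_conj, ← Complex.exp_add]
  congr 1
  simp only [map_mul, map_neg, Complex.conj_ofReal, Complex.conj_I]
  push_cast
  ring

lemma ch_near (k : ℤ) (s : ℝ) : ‖ch k s - 1‖ ≤ |(k : ℝ)| * |s| := by
  have h : ch k s - 1 = Complex.exp (Complex.I * ((-(k * s) : ℝ) : ℂ)) - 1 := by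
    unfold Pool.Agent.H376R2.MR.ch
    congr 2
    push_cast; ring
  rw [h]
  refine (Real.norm_exp_I_mul_ofReal_sub_one_le).trans ?_
  rw [Real.norm_eq_abs, abs_neg, abs_mul]

/-- the energy -/
lemma energy_eq {ι : Type} (S : Finset ι) (x l : ι → ℝ) (K : ℕ) :
    ∑ k ∈ FK K, wt K k * ‖TF S x l k‖ ^ 2 = ∑ i ∈ S, x i * ∑ j ∈ S, x j * Fj K (l j - l i) := by
  have h : ((∑ k ∈ FK K, wt K k * ‖TF S x l k‖ ^ 2 : ℝ) : ℂ) =
      ((∑ i ∈ S, x i * ∑ j ∈ S, x j * Fj K (l j - l i) : ℝ) : ℂ) := by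
    push_cast
    simp_rw [Fj_ch]
    have e : ∀ k ∈ FK K, (wt K k : ℂ) * (‖TF S x l k‖ : ℂ) ^ 2 =
        ∑ i ∈ S, ∑ j ∈ S, (x i : ℂ) * ((x j : ℂ) * ((wt K k : ℂ) * ch k (l j - l i))) := by
      intro k _
      rw [← Complex.mul_conj']
      unfold TF
      rw [map_sum, sum_mul_sum, mul_sum, sum_comm]
      apply sum_congr rfl
      intro i _
      rw [mul_sum]
      apply sum_congr rfl
      intro j _
      rw [map_mul, Complex.conj_ofReal, ch_sub]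
      ring
    rw [sum_congr rfl e, sum_comm]
    apply sum_congr rfl
    intro i _
    rw [sum_comm, mul_sum]
    apply sum_congr rfl
    intro j _
    rw [mul_sum, mul_sum]
  exact_mod_cast h

lemma energy_le {ι : Type} (S : Finset ι) (x l : ι → ℝ) (hx : ∀ i ∈ S, 0 ≤ x i) (K : ℕ) (hK : 1 ≤ K) (Q P : ℝ)
    (hcell : ∀ u : ℝ, ∑ i ∈ S.filter (fun i => u ≤ l i ∧ l i < u + 1 / K), x i ≤ Q / K) (hQ : 0 ≤ Q)
    (hP : ∑ i ∈ S, x i ≤ P) (hl : ∀ i ∈ S, ∀ j ∈ S, |l i - l j| ≤ 4) :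
    ∑ k ∈ FK K, wt K k * ‖TF S x l k‖ ^ 2 ≤ P * (1600 * Q) := by
  rw [energy_eq]
  calc ∑ i ∈ S, x i * ∑ j ∈ S, x j * Fj K (l j - l i) ≤ ∑ i ∈ S, x i * (1600 * Q) := by
        apply sum_le_sum
        intro i hi
        apply mul_le_mul_of_nonneg_left _ (hx i hi)
        exact cell_Fj S x l hx K hK Q hcell hQ (l i) (fun j hj => hl j hj i hi)
    _ = (∑ i ∈ S, x i) * (1600 * Q) := by rw [sum_mul]
    _ ≤ P * (1600 * Q) := mul_le_mul_of_nonneg_right hP (by positivity)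

lemma near_count (U : Finset ℤ) (T : ℕ) (k : ℤ) : ((U.filter (fun l => |k - l| ≤ T)).card : ℝ) ≤ 2 * T + 1 := by
  have h : U.filter (fun l => |k - l| ≤ T) ⊆ Icc (k - T) (k + T) := by
    intro l hl
    rw [mem_filter] at hl
    rw [mem_Icc]
    have := abs_le.1 hl.2
    omega
  have h2 := card_le_card h
  rw [Int.card_Icc] at h2
  have h3 : (U.filter (fun l => |k - l| ≤ T)).card ≤ 2 * T + 1 := by omega
  exact_mod_cast h3

/-- quadratic form with a near-diagonal and a far part -/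
lemma quad (U : Finset ℤ) (g : ℤ → ℝ) (hg : ∀ k, 0 ≤ g k) (T : ℕ) (m κ : ℝ) (hm : 0 ≤ m) (hκ : 0 ≤ κ) (N : ℤ → ℤ → ℝ)
    (h1 : ∀ k ∈ U, ∀ l ∈ U, N k l ≤ m) (h2 : ∀ k ∈ U, ∀ l ∈ U, (T : ℤ) < |k - l| → N k l ≤ κ) :
    ∑ k ∈ U, ∑ l ∈ U, g k * g l * N k l ≤ (2 * T + 1) * m * ∑ k ∈ U, g k ^ 2 + κ * (∑ k ∈ U, g k) ^ 2 := by
  have hpt : ∀ k ∈ U, ∀ l ∈ U, g k * g l * N k l ≤
      (if |k - l| ≤ T then m / 2 * g k ^ 2 else 0) + (if |l - k| ≤ T then m / 2 * g l ^ 2 else 0) + κ * (g k * g l) := by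
    intro k hk l hl
    have a1 := hg k
    have a2 := hg l
    have a3 : 0 ≤ g k * g l := mul_nonneg a1 a2
    have a4 : 0 ≤ κ * (g k * g l) := mul_nonneg hκ a3
    by_cases h : |k - l| ≤ T
    · rw [if_pos h, if_pos (by rw [abs_sub_comm]; exact h)]
      have := h1 k hk l hl
      have a5 : g k * g l * N k l ≤ g k * g l * m := mul_le_mul_of_nonneg_left this a3
      have a6 : g k * g l ≤ (g k ^ 2 + g l ^ 2) / 2 := by nlinarith [sq_nonneg (g k - g l)]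
      have a7 : g k * g l * m ≤ (g k ^ 2 + g l ^ 2) / 2 * m := mul_le_mul_of_nonneg_right a6 hm
      linarith
    · rw [if_neg h, if_neg (by rw [abs_sub_comm]; exact h)]
      push Not at h
      have := h2 k hk l hl h
      have a5 : g k * g l * N k l ≤ g k * g l * κ := mul_le_mul_of_nonneg_left this a3
      linarith
  have hdiag : ∑ k ∈ U, ∑ l ∈ U, (if |k - l| ≤ T then m / 2 * g k ^ 2 else 0) ≤ (2 * T + 1) * m / 2 * ∑ k ∈ U, g k ^ 2 := by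
    rw [mul_sum]
    apply sum_le_sum
    intro k _
    rw [← sum_filter, sum_const, nsmul_eq_mul]
    have := near_count U T k
    have a1 : 0 ≤ m / 2 * g k ^ 2 := by positivity
    calc ((U.filter (fun l => |k - l| ≤ T)).card : ℝ) * (m / 2 * g k ^ 2) ≤ (2 * T + 1) * (m / 2 * g k ^ 2) :=
          mul_le_mul_of_nonneg_right this a1
      _ = _ := by ring
  calc ∑ k ∈ U, ∑ l ∈ U, g k * g l * N k l ≤ ∑ k ∈ U, ∑ l ∈ U, ((if |k - l| ≤ T then m / 2 * g k ^ 2 else 0) +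
        (if |l - k| ≤ T then m / 2 * g l ^ 2 else 0) + κ * (g k * g l)) :=
        sum_le_sum fun k hk => sum_le_sum fun l hl => hpt k hk l hl
    _ = ∑ k ∈ U, ∑ l ∈ U, (if |k - l| ≤ T then m / 2 * g k ^ 2 else 0) +
        ∑ k ∈ U, ∑ l ∈ U, (if |l - k| ≤ T then m / 2 * g l ^ 2 else 0) + κ * (∑ k ∈ U, g k) ^ 2 := by
        simp_rw [sum_add_distrib]
        rw [sq, sum_mul_sum, mul_sum]
        simp_rw [mul_sum]
    _ ≤ (2 * T + 1) * m / 2 * ∑ k ∈ U, g k ^ 2 + (2 * T + 1) * m / 2 * ∑ k ∈ U, g k ^ 2 + κ * (∑ k ∈ U, g k) ^ 2 := by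
        have : ∑ k ∈ U, ∑ l ∈ U, (if |l - k| ≤ T then m / 2 * g l ^ 2 else 0) =
            ∑ k ∈ U, ∑ l ∈ U, (if |k - l| ≤ T then m / 2 * g k ^ 2 else 0) := by
          rw [sum_comm]
        rw [this]
        linarith
    _ = _ := by ring

/-- **duality with a majorant** -/
lemma dual (A S : Finset ℕ) (ν : ℕ → ℝ) (hAS : A ⊆ S) (hν0 : ∀ n ∈ S, 0 ≤ ν n) (hν1 : ∀ a ∈ A, 1 ≤ ν a)
    (U : Finset ℤ) (G : ℤ → ℂ) (m κ : ℝ) (hκ : 0 ≤ κ) (T : ℕ) (hm : ∑ n ∈ S, ν n ≤ m)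
    (hfar : ∀ k ∈ U, ∀ l ∈ U, (T : ℤ) < |k - l| → ‖TF S ν (fun n : ℕ => Real.log n) (k - l)‖ ≤ κ) :
    ‖∑ k ∈ U, G k * (starRingEnd ℂ) (TF A (fun _ => 1) (fun n : ℕ => Real.log n) k)‖ ^ 2 ≤
      A.card * ((2 * T + 1) * m * ∑ k ∈ U, ‖G k‖ ^ 2 + κ * (∑ k ∈ U, ‖G k‖) ^ 2) := by
  have hm0 : 0 ≤ m := (sum_nonneg hν0).trans hm
  -- swap
  have e1 : ∑ k ∈ U, G k * (starRingEnd ℂ) (TF A (fun _ => 1) (fun n : ℕ => Real.log n) k) =
      ∑ a ∈ A, (starRingEnd ℂ) (∑ k ∈ U, (starRingEnd ℂ) (G k) * ch k (Real.log a)) := by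
    unfold TF
    simp only [Complex.ofReal_one, one_mul, map_sum, map_mul, Complex.conj_conj, mul_sum]
    rw [sum_comm]
  have e2 : ‖∑ k ∈ U, G k * (starRingEnd ℂ) (TF A (fun _ => 1) (fun n : ℕ => Real.log n) k)‖ ≤
      ∑ a ∈ A, 1 * ‖∑ k ∈ U, (starRingEnd ℂ) (G k) * ch k (Real.log a)‖ := by
    rw [e1]
    refine (norm_sum_le _ _).trans (le_of_eq ?_)
    apply sum_congr rfl
    intro a _
    rw [Complex.norm_conj, one_mul]
  have e3 := Finset.sum_mul_sq_le_sq_mul_sq A (fun _ => (1 : ℝ)) (fun a : ℕ => ‖∑ k ∈ U, (starRingEnd ℂ) (G k) * ch k (Real.log a)‖)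
  have e4 : ∑ a ∈ A, (1 : ℝ) ^ 2 = A.card := by simp
  rw [e4] at e3
  have e5 : ∑ a ∈ A, ‖∑ k ∈ U, (starRingEnd ℂ) (G k) * ch k (Real.log a)‖ ^ 2 ≤
      ∑ n ∈ S, ν n * ‖∑ k ∈ U, (starRingEnd ℂ) (G k) * ch k (Real.log n)‖ ^ 2 := by
    calc ∑ a ∈ A, ‖∑ k ∈ U, (starRingEnd ℂ) (G k) * ch k (Real.log a)‖ ^ 2
        ≤ ∑ a ∈ A, ν a * ‖∑ k ∈ U, (starRingEnd ℂ) (G k) * ch k (Real.log a)‖ ^ 2 := by
          apply sum_le_sum
          intro a ha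
          have h1 := hν1 a ha
          have h2 : 0 ≤ ‖∑ k ∈ U, (starRingEnd ℂ) (G k) * ch k (Real.log a)‖ ^ 2 := by positivity
          exact le_mul_of_one_le_left h2 h1
      _ ≤ _ := by
          apply sum_le_sum_of_subset_of_nonneg hAS
          intro n hn _
          exact mul_nonneg (hν0 n hn) (by positivity)
  have e6 : ((∑ n ∈ S, ν n * ‖∑ k ∈ U, (starRingEnd ℂ) (G k) * ch k (Real.log n)‖ ^ 2 : ℝ) : ℂ) =
      ∑ k ∈ U, ∑ l ∈ U, (starRingEnd ℂ) (G k) * G l * TF S ν (fun n : ℕ => Real.log n) (k - l) := by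
    rw [Complex.ofReal_sum]
    have h1 : ∀ n ∈ S, ((ν n * ‖∑ k ∈ U, (starRingEnd ℂ) (G k) * ch k (Real.log n)‖ ^ 2 : ℝ) : ℂ) =
        ∑ k ∈ U, ∑ l ∈ U, (starRingEnd ℂ) (G k) * G l * ((ν n : ℂ) * ch (k - l) (Real.log n)) := by
      intro n _
      rw [Complex.ofReal_mul, ls_sq, mul_sum]
      apply sum_congr rfl
      intro k _
      rw [mul_sum]
      apply sum_congr rfl
      intro l _
      rw [Complex.conj_conj]
      ring
    rw [sum_congr rfl h1, sum_comm]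
    apply sum_congr rfl
    intro k _
    rw [sum_comm]
    apply sum_congr rfl
    intro l _
    unfold TF
    rw [mul_sum]
  have e7 : ∑ n ∈ S, ν n * ‖∑ k ∈ U, (starRingEnd ℂ) (G k) * ch k (Real.log n)‖ ^ 2 ≤
      ∑ k ∈ U, ∑ l ∈ U, ‖G k‖ * ‖G l‖ * ‖TF S ν (fun n : ℕ => Real.log n) (k - l)‖ := by
    have h0 : 0 ≤ ∑ n ∈ S, ν n * ‖∑ k ∈ U, (starRingEnd ℂ) (G k) * ch k (Real.log n)‖ ^ 2 :=
      sum_nonneg fun n hn => mul_nonneg (hν0 n hn) (by positivity)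
    have h1 : ∑ n ∈ S, ν n * ‖∑ k ∈ U, (starRingEnd ℂ) (G k) * ch k (Real.log n)‖ ^ 2 =
        ‖((∑ n ∈ S, ν n * ‖∑ k ∈ U, (starRingEnd ℂ) (G k) * ch k (Real.log n)‖ ^ 2 : ℝ) : ℂ)‖ := by
      rw [Complex.norm_real, Real.norm_eq_abs, abs_of_nonneg h0]
    rw [h1, e6]
    refine (norm_sum_le _ _).trans (sum_le_sum fun k _ => (norm_sum_le _ _).trans (le_of_eq ?_))
    apply sum_congr rfl
    intro l _
    rw [norm_mul, norm_mul, Complex.norm_conj]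
  have e8 := quad U (fun k => ‖G k‖) (fun k => norm_nonneg _) T m κ hm0 hκ
    (fun k l => ‖TF S ν (fun n : ℕ => Real.log n) (k - l)‖) (by
      intro k _ l _
      unfold TF
      refine ((norm_sum_le _ _).trans ?_).trans hm
      apply sum_le_sum
      intro n hn
      rw [norm_mul, ls_norm_ch, mul_one, Complex.norm_real, Real.norm_eq_abs, abs_of_nonneg (hν0 n hn)]) hfar
  calc ‖∑ k ∈ U, G k * (starRingEnd ℂ) (TF A (fun _ => 1) (fun n : ℕ => Real.log n) k)‖ ^ 2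
      ≤ (∑ a ∈ A, 1 * ‖∑ k ∈ U, (starRingEnd ℂ) (G k) * ch k (Real.log a)‖) ^ 2 :=
        pow_le_pow_left₀ (norm_nonneg _) e2 2
    _ ≤ A.card * ∑ a ∈ A, ‖∑ k ∈ U, (starRingEnd ℂ) (G k) * ch k (Real.log a)‖ ^ 2 := e3
    _ ≤ A.card * ((2 * T + 1) * m * ∑ k ∈ U, ‖G k‖ ^ 2 + κ * (∑ k ∈ U, ‖G k‖) ^ 2) := by
        apply mul_le_mul_of_nonneg_left _ (Nat.cast_nonneg _)
        exact (e5.trans e7).trans e8

end Pool.Agent.Y851.PS
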