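import Pool.Agent.Y851.PS.G19

/-! All real dilates outside few short intervals. -/

set_option autoImplicit false

namespace Pool.Agent.Y851.PS
open Finset Filter

/-- a dichotomy: the bad points are covered by few intervals, or they contain many well spaced points -/
lemma cover (l T N : ℝ) (hl : 0 < l) (Bad : ℝ → Prop) :
    (∃ U : Finset ℝ, (U.card : ℝ) ≤ N ∧ ∀ y : ℝ, 0 < y → y ≤ T → (∀ u ∈ U, ¬ (u ≤ y ∧ y ≤ u + l)) → ¬ Bad y) ∨
    (∃ C : Finset ℝ, N < C.card ∧ (∀ c ∈ C, 0 < c ∧ c ≤ T ∧ Bad c) ∧ ∀ u : ℝ, (C.filter (fun c => u ≤ c ∧ c ≤ u + l)).card ≤ 2) := by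
  classical
  set P : ℕ → ℝ → Prop := fun m y => (0 < y ∧ y ≤ T ∧ Bad y) ∧ (m : ℝ) * l ≤ y ∧ y < (m + 1) * l with hP
  set S := (range (⌊T / l⌋₊ + 1)).filter (fun m => ∃ y, P m y) with hS
  have hex : ∀ m : ℕ, ∃ y, m ∈ S → P m y := by
    intro m
    by_cases h : m ∈ S
    · rw [hS, mem_filter] at h
      obtain ⟨y, hy⟩ := h.2
      exact ⟨y, fun _ => hy⟩
    · exact ⟨0, fun h' => absurd h' h⟩
  choose f hf using hex
  have hfl : ∀ m ∈ S, ⌊f m / l⌋₊ = m := by
    intro m hm
    have h := hf m hm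
    rw [Nat.floor_eq_iff (div_nonneg h.1.1.le hl.le), le_div_iff₀ hl, div_lt_iff₀ hl]
    exact h.2
  by_cases hN : (S.card : ℝ) ≤ N
  · left
    refine ⟨S.image (fun m : ℕ => (m : ℝ) * l), le_trans (by exact_mod_cast card_image_le) hN, ?_⟩
    intro y hy0 hyT hU hbad
    have h1 : 0 ≤ y / l := div_nonneg hy0.le hl.le
    have h2 := Nat.floor_le h1
    have h3 := Nat.lt_floor_add_one (y / l)
    rw [le_div_iff₀ hl] at h2
    rw [div_lt_iff₀ hl] at h3
    have hm : ⌊y / l⌋₊ ∈ S := by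
      rw [hS, mem_filter, mem_range, Nat.lt_succ_iff]
      refine ⟨Nat.floor_mono (div_le_div_of_nonneg_right hyT hl.le), y, ⟨hy0, hyT, hbad⟩, h2, h3⟩
    refine hU _ (mem_image_of_mem _ hm) ⟨h2, ?_⟩
    linarith
  · right
    push Not at hN
    have hinj : Set.InjOn f (S : Set ℕ) := by
      intro m hm m' hm' h
      rw [← hfl m (mem_coe.1 hm), ← hfl m' (mem_coe.1 hm'), h]
    refine ⟨S.image f, ?_, ?_, ?_⟩
    · rw [card_image_of_injOn hinj]; exact hN
    · intro c hc
      rw [mem_image] at hc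
      obtain ⟨m, hm, rfl⟩ := hc
      exact (hf m hm).1
    · intro u
      have hsub : (((S.image f).filter (fun c => u ≤ c ∧ c ≤ u + l)).image (fun c => ⌊c / l⌋₊)) ⊆ {⌊u / l⌋₊, ⌊u / l⌋₊ + 1} := by
        intro k hk
        rw [mem_image] at hk
        obtain ⟨c, hc, rfl⟩ := hk
        rw [mem_filter] at hc
        have h1 : ⌊u / l⌋₊ ≤ ⌊c / l⌋₊ := Nat.floor_mono (div_le_div_of_nonneg_right hc.2.1 hl.le)
        have h2 : ⌊c / l⌋₊ ≤ ⌊u / l⌋₊ + 1 := by
          by_cases hu : 0 ≤ u / l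
          · have h3 : ⌊c / l⌋₊ ≤ ⌊u / l + 1⌋₊ := by
              apply Nat.floor_mono
              rw [div_le_iff₀ hl, add_mul, div_mul_cancel₀ _ hl.ne', one_mul]
              exact hc.2.2
            rwa [Nat.floor_add_one hu] at h3
          · push Not at hu
            have h3 : ⌊c / l⌋₊ ≤ ⌊(1 : ℝ)⌋₊ := by
              apply Nat.floor_mono
              rw [div_le_iff₀ hl, one_mul]
              have : u < 0 := by
                by_contra hcon
                push Not at hcon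
                exact absurd (div_nonneg hcon hl.le) (not_le.2 hu)
              linarith [hc.2.2]
            rw [Nat.floor_one] at h3
            omega
        rw [mem_insert, mem_singleton]
        omega
      have hinj2 : Set.InjOn (fun c : ℝ => ⌊c / l⌋₊) (((S.image f).filter (fun c => u ≤ c ∧ c ≤ u + l)) : Set ℝ) := by
        intro c hc c' hc' h
        rw [mem_coe, mem_filter, mem_image] at hc hc'
        obtain ⟨⟨m, hm, rfl⟩, _⟩ := hc
        obtain ⟨⟨m', hm', rfl⟩, _⟩ := hc'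
        simp only at h
        rw [hfl m hm, hfl m' hm'] at h
        rw [h]
      rw [← card_image_of_injOn hinj2]
      exact (card_le_card hsub).trans card_le_two

open Classical in
/-- **All real dilates outside few short intervals.** -/
theorem dilates (ε θ η δ : ℝ) (hε0 : 0 < ε) (hε1 : ε < 1) (hθ : 0 < θ) (hη : 0 < η) (hηε : η < ε) (hδ : 0 < δ) :
    ∀ᶠ X : ℝ in atTop, ∀ A : Finset ℕ, Adm δ θ X A → ∃ U : Finset ℝ, (U.card : ℝ) ≤ δ * X ^ (1 - η) ∧
    ∀ y : ℝ, 0 < y → y ≤ X ^ (1 - θ) → (∀ u ∈ U, ¬ (u ≤ y ∧ y ≤ u + X ^ (η - θ))) →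
    |∑ a ∈ A, (NP ε (a * y) : ℝ) * Real.log (a * y) / (a * y) ^ ε - A.card| ≤ δ * A.card ∧
    (1 / 4 - δ) * A.card ≤ ((A.filter (fun a : ℕ => HP ε (a * y))).card : ℝ) := by
  set δ₁ := min δ (1 / 3) with hδ₁
  have hδ₁0 : 0 < δ₁ := lt_min hδ (by norm_num)
  have hδ₁1 : δ₁ ≤ δ := min_le_left _ _
  have hδ₁2 : δ₁ ≤ 1 / 3 := min_le_right _ _
  obtain ⟨κ, hκ, hprod⟩ := products ε hε0 hε1 1 le_rfl
  filter_upwards [hprod θ η δ₁ (max 1 (2 / δ)) hθ hη hηε hδ₁0 (le_max_left _ _), eventually_ge_atTop 2] with X hX hX2 A hA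
  have hX0 : 0 < X := by linarith
  have hlog : 0 ≤ Real.log X := Real.log_nonneg (by linarith)
  have hA₁ : Adm δ₁ θ X A := by
    refine ⟨hA.1, ?_⟩
    rcases hA.2 with h | ⟨h1, h2⟩
    · left
      exact le_trans (by gcongr) h
    · right
      exact ⟨h1, le_trans (by gcongr) h2⟩
  set Bad : ℝ → Prop := fun y => ¬ (|∑ a ∈ A, (NP ε (a * y) : ℝ) * Real.log (a * y) / (a * y) ^ ε - A.card| ≤ δ * A.card ∧
    (1 / 4 - δ) * A.card ≤ ((A.filter (fun a : ℕ => HP ε (a * y))).card : ℝ)) with hBad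
  rcases cover (X ^ (η - θ)) (X ^ (1 - θ)) (δ * X ^ (1 - η)) (by positivity) Bad with ⟨U, hU1, hU2⟩ | ⟨C, hC1, hC2, hC3⟩
  · refine ⟨U, hU1, fun y h1 h2 h3 => ?_⟩
    have := hU2 y h1 h2 h3
    rw [hBad] at this
    exact not_not.1 this
  · exfalso
    have hCpos : (0 : ℝ) < C.card := lt_of_le_of_lt (by positivity) hC1
    have hSpr : Spr (max 1 (2 / δ)) η θ X C := by
      refine ⟨fun c hc => (hC2 c hc).1, fun c hc => (hC2 c hc).2.1, fun u => ?_⟩
      have h1 : ((C.filter (fun c => u ≤ c ∧ c ≤ u + X ^ (η - θ))).card : ℝ) ≤ 2 := by exact_mod_cast hC3 u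
      refine h1.trans ?_
      have e : X ^ (η - 1) * X ^ (1 - η) = 1 := by
        rw [← Real.rpow_add hX0]
        have : η - 1 + (1 - η) = 0 := by ring
        rw [this, Real.rpow_zero]
      calc (2 : ℝ) = (2 / δ) * (X ^ (η - 1) * (δ * X ^ (1 - η))) := by
            have : X ^ (η - 1) * (δ * X ^ (1 - η)) = δ * (X ^ (η - 1) * X ^ (1 - η)) := by ring
            rw [this, e]; field_simp
        _ ≤ (max 1 (2 / δ)) * (X ^ (η - 1) * C.card) := by
            gcongr
            exact le_max_right _ _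
        _ = _ := by ring
    obtain ⟨h1, _, h3, _⟩ := hX A C hA₁ hSpr
    -- all points are bad
    have h4 : C ⊆ C.filter (fun c => δ₁ * A.card < |∑ a ∈ A, (NP ε (a * c) : ℝ) * Real.log (a * c) / (a * c) ^ ε - A.card|) ∪
        C.filter (fun c => ¬ ((1 / 4 - δ₁) * A.card ≤ ((A.filter (fun a : ℕ => HP ε (a * c))).card : ℝ))) := by
      intro c hc
      have hb := (hC2 c hc).2.2
      rw [hBad] at hb
      rw [mem_union, mem_filter, mem_filter]
      by_contra hcon
      push Not at hcon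
      apply hb
      have hA0 : (0 : ℝ) ≤ A.card := Nat.cast_nonneg _
      constructor
      · exact (hcon.1 hc).trans (by gcongr)
      · refine le_trans ?_ (hcon.2 hc)
        apply mul_le_mul_of_nonneg_right _ hA0
        linarith
    have h5 : ((C.filter (fun c => ¬ ((1 / 4 - δ₁) * A.card ≤ ((A.filter (fun a : ℕ => HP ε (a * c))).card : ℝ)))).card : ℝ) ≤ δ₁ * C.card := by
      refine le_trans ?_ (h3.trans (le_of_eq (by rw [pow_one])))
      apply Nat.cast_le.2
      apply card_le_card_of_injOn (fun c => fun _ : Fin 1 => c)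
      · intro c hc
        rw [mem_coe, mem_filter] at hc
        rw [mem_coe, mem_filter, Fintype.mem_piFinset]
        refine ⟨fun _ => hc.1, ?_⟩
        intro h6
        apply hc.2
        have h7 := h6.1
        have e : ∀ a : ℕ, (∃ _j : Fin 1, HP ε (a * c)) ↔ HP ε (a * c) := fun a => by simp
        simp only [e] at h7
        refine le_trans (le_of_eq ?_) h7
        norm_num
      · intro c _ c' _ h
        exact congrFun h 0
    have h6 : (C.card : ℝ) ≤ δ₁ * C.card + δ₁ * C.card := by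
      refine le_trans ?_ (add_le_add h1 h5)
      exact_mod_cast (card_le_card h4).trans (card_union_le _ _)
    nlinarith

end Pool.Agent.Y851.PS
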