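import Pool.Agent.Y851.PS.G2

/-! Comparison of two scales. -/

set_option autoImplicit false

namespace Pool.Agent.Y851.PS
open Finset
open Pool.Agent.H376R2.MR (Fj FK ch Fj_nonneg Fj_le Fj_le_sq fej_exp fej_eq_norm ls_norm_ch ls_ch_mul ls_ch_cont ls_orth ls_sq)

/-- the trilinear sum -/
noncomputable def FS {γ ι : Type} (A : Finset ℕ) (C : Finset γ) (m : γ → ℝ) (S : Finset ι) (x l : ι → ℝ) (K : ℕ) (s : ℝ) : ℝ :=
  ∑ a ∈ A, ∑ c ∈ C, ∑ i ∈ S, x i * Fj K (l i - Real.log a - m c + s)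

/-- the product of the transforms of the weighted family and of `C` -/
noncomputable def GP {γ ι : Type} (C : Finset γ) (m : γ → ℝ) (S : Finset ι) (x l : ι → ℝ) (k : ℤ) : ℂ :=
  TF S x l k * (starRingEnd ℂ) (TF C (fun _ => 1) m k)

lemma FS_eq {γ ι : Type} (A : Finset ℕ) (C : Finset γ) (m : γ → ℝ) (S : Finset ι) (x l : ι → ℝ) (K : ℕ) (s : ℝ) :
    (FS A C m S x l K s : ℂ) = ∑ k ∈ FK K, ((wt K k : ℂ) * ch k s * GP C m S x l k) *
      (starRingEnd ℂ) (TF A (fun _ => 1) (fun n : ℕ => Real.log n) k) := by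
  unfold FS
  push_cast
  simp_rw [Fj_ch]
  have e : ∀ k ∈ FK K, ((wt K k : ℂ) * ch k s * GP C m S x l k) *
      (starRingEnd ℂ) (TF A (fun _ => 1) (fun n : ℕ => Real.log n) k) =
      ∑ a ∈ A, ∑ c ∈ C, ∑ i ∈ S, (x i : ℂ) * ((wt K k : ℂ) * ch k (l i - Real.log a - m c + s)) := by
    intro k _
    unfold GP TF
    simp only [Complex.ofReal_one, one_mul, map_sum]
    rw [mul_sum]
    apply sum_congr rfl
    intro a _
    rw [mul_sum, mul_sum, sum_mul]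
    apply sum_congr rfl
    intro c _
    rw [sum_mul, mul_sum, sum_mul]
    apply sum_congr rfl
    intro i _
    rw [ch_add, ch_sub, ch_sub]
    ring
  rw [sum_congr rfl e]
  symm
  rw [sum_comm]
  apply sum_congr rfl
  intro a _
  rw [sum_comm]
  apply sum_congr rfl
  intro c _
  rw [sum_comm]
  apply sum_congr rfl
  intro i _
  rw [mul_sum]

/-- the difference of the multipliers -/
noncomputable def WD (K K₁ : ℕ) (s s' : ℝ) (k : ℤ) : ℂ := (wt K k : ℂ) * ch k s - (wt K₁ k : ℂ) * ch k s'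

lemma FS_diff {γ ι : Type} (A : Finset ℕ) (C : Finset γ) (m : γ → ℝ) (S : Finset ι) (x l : ι → ℝ) (K K₁ : ℕ) (hK₁ : 1 ≤ K₁)
    (hK : K₁ ≤ K) (s s' : ℝ) :
    ((FS A C m S x l K s - FS A C m S x l K₁ s' : ℝ) : ℂ) = ∑ k ∈ FK K, (WD K K₁ s s' k * GP C m S x l k) *
      (starRingEnd ℂ) (TF A (fun _ => 1) (fun n : ℕ => Real.log n) k) := by
  rw [Complex.ofReal_sub, FS_eq, FS_eq]
  have h1 : ∑ k ∈ FK K₁, ((wt K₁ k : ℂ) * ch k s' * GP C m S x l k) *
      (starRingEnd ℂ) (TF A (fun _ => 1) (fun n : ℕ => Real.log n) k) =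
      ∑ k ∈ FK K, ((wt K₁ k : ℂ) * ch k s' * GP C m S x l k) *
      (starRingEnd ℂ) (TF A (fun _ => 1) (fun n : ℕ => Real.log n) k) := by
    apply sum_subset (FK_mono hK)
    intro k _ hk
    rw [wt_zero hK₁ hk]
    simp
  rw [h1, ← sum_sub_distrib]
  apply sum_congr rfl
  intro k _
  unfold WD
  ring

lemma WD_high (K K₁ : ℕ) (hK₁ : 1 ≤ K₁) (hK : K₁ ≤ K) (s s' : ℝ) (k : ℤ) : ‖WD K K₁ s s' k‖ ≤ 2 * wt K k := by
  unfold WD
  refine (norm_sub_le _ _).trans ?_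
  rw [norm_mul, norm_mul, ls_norm_ch, ls_norm_ch, mul_one, mul_one, Complex.norm_real, Complex.norm_real,
    Real.norm_eq_abs, Real.norm_eq_abs, abs_of_nonneg (wt_nonneg _ _), abs_of_nonneg (wt_nonneg _ _)]
  have := wt_mono hK₁ hK k
  linarith

lemma wt_low (K : ℕ) (k : ℤ) : 1 - wt K k ≤ |(k : ℝ)| / K := by
  unfold wt
  have := le_max_right 0 (1 - |(k : ℝ)| / K)
  linarith

lemma WD_low (K K₁ : ℕ) (s s' : ℝ) (k : ℤ) : ‖WD K K₁ s s' k‖ ≤ |(k : ℝ)| * (1 / K + 1 / K₁ + |s| + |s'|) := by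
  have key : ∀ (K : ℕ) (s : ℝ), ‖(wt K k : ℂ) * ch k s - 1‖ ≤ |(k : ℝ)| * (1 / K + |s|) := by
    intro K s
    have e : (wt K k : ℂ) * ch k s - 1 = (wt K k : ℂ) * (ch k s - 1) - ((1 - wt K k : ℝ) : ℂ) := by
      push_cast; ring
    rw [e]
    refine (norm_sub_le _ _).trans ?_
    rw [norm_mul, Complex.norm_real, Complex.norm_real, Real.norm_eq_abs, Real.norm_eq_abs, abs_of_nonneg (wt_nonneg _ _),
      abs_of_nonneg (by linarith [wt_le K k] : 0 ≤ 1 - wt K k)]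
    have h1 := ch_near k s
    have h2 := wt_le K k
    have h3 := wt_low K k
    have h4 : wt K k * ‖ch k s - 1‖ ≤ 1 * (|(k : ℝ)| * |s|) := by
      apply mul_le_mul h2 h1 (norm_nonneg _) zero_le_one
    have e2 : |(k : ℝ)| * (1 / K + |s|) = |(k : ℝ)| / K + |(k : ℝ)| * |s| := by ring
    rw [e2]; linarith
  unfold WD
  have e : (wt K k : ℂ) * ch k s - (wt K₁ k : ℂ) * ch k s' = ((wt K k : ℂ) * ch k s - 1) - ((wt K₁ k : ℂ) * ch k s' - 1) := by ring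
  rw [e]
  refine (norm_sub_le _ _).trans ?_
  have h1 := key K s
  have h2 := key K₁ s'
  have e2 : |(k : ℝ)| * (1 / K + 1 / K₁ + |s| + |s'|) = |(k : ℝ)| * (1 / K + |s|) + |(k : ℝ)| * (1 / K₁ + |s'|) := by ring
  rw [e2]; linarith

lemma TF_le {ι : Type} (S : Finset ι) (x l : ι → ℝ) (hx : ∀ i ∈ S, 0 ≤ x i) (k : ℤ) : ‖TF S x l k‖ ≤ ∑ i ∈ S, x i := by
  unfold TF
  refine (norm_sum_le _ _).trans (le_of_eq ?_)
  apply sum_congr rfl
  intro i hi
  rw [norm_mul, ls_norm_ch, mul_one, Complex.norm_real, Real.norm_eq_abs, abs_of_nonneg (hx i hi)]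

/-- **Comparison of the scales `K` and `K₁`** -/
theorem freq {γ ι : Type} (A Sν : Finset ℕ) (ν : ℕ → ℝ) (hAS : A ⊆ Sν) (hν0 : ∀ n ∈ Sν, 0 ≤ ν n) (hν1 : ∀ a ∈ A, 1 ≤ ν a)
    (C : Finset γ) (mc : γ → ℝ) (S : Finset ι) (x l : ι → ℝ) (hx : ∀ i ∈ S, 0 ≤ x i) (K K₁ : ℕ) (hK₁ : 1 ≤ K₁)
    (hK : K₁ ≤ K) (s s' : ℝ) (T T0 : ℕ) (μ κ η EC EP P : ℝ) (hκ : 0 ≤ κ) (hη : 0 ≤ η) (_hμ : 0 ≤ μ)
    (hm : ∑ n ∈ Sν, ν n ≤ μ * A.card)
    (hfar : ∀ k ∈ FK K, ∀ l ∈ FK K, (T0 : ℤ) < |k - l| → ‖TF Sν ν (fun n : ℕ => Real.log n) (k - l)‖ ≤ κ * A.card)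
    (hP : ∑ i ∈ S, x i ≤ P) (hEC : ∑ k ∈ FK K, wt K k * ‖TF C (fun _ => 1) mc k‖ ^ 2 ≤ EC * (C.card : ℝ) ^ 2)
    (hEP : ∑ k ∈ FK K, wt K k * ‖TF S x l k‖ ^ 2 ≤ EP)
    (hsup : ∀ k ∈ FK K, (T : ℤ) < |k| → ‖TF S x l k‖ ≤ η) :
    |FS A C mc S x l K s - FS A C mc S x l K₁ s'| ≤
      ((2 * T + 1) * T * (1 / K + 1 / K₁ + |s| + |s'|) * P + √(4 * EC * ((2 * T0 + 1) * μ * η ^ 2 + κ * EP))) *
        (A.card * C.card) := by
  classical
  have hAc : (0 : ℝ) ≤ A.card := Nat.cast_nonneg _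
  have hCc : (0 : ℝ) ≤ C.card := Nat.cast_nonneg _
  have hP0 : 0 ≤ P := (sum_nonneg hx).trans hP
  have h1 : |FS A C mc S x l K s - FS A C mc S x l K₁ s'| =
      ‖((FS A C mc S x l K s - FS A C mc S x l K₁ s' : ℝ) : ℂ)‖ := by
    rw [Complex.norm_real, Real.norm_eq_abs]
  rw [h1, FS_diff A C mc S x l K K₁ hK₁ hK, ← sum_filter_add_sum_filter_not (FK K) (fun k : ℤ => |k| ≤ (T : ℤ))]
  refine (norm_add_le _ _).trans ?_
  rw [add_mul]
  apply add_le_add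
  · -- low frequencies
    have h2 : ∀ k ∈ (FK K).filter (fun k : ℤ => |k| ≤ (T : ℤ)), ‖(WD K K₁ s s' k * GP C mc S x l k) *
        (starRingEnd ℂ) (TF A (fun _ => 1) (fun n : ℕ => Real.log n) k)‖ ≤
        T * (1 / K + 1 / K₁ + |s| + |s'|) * P * (A.card * C.card) := by
      intro k hk
      rw [mem_filter] at hk
      have a0 : |(k : ℝ)| ≤ T := by
        have : ((|k| : ℤ) : ℝ) ≤ ((T : ℤ) : ℝ) := by exact_mod_cast hk.2
        rwa [Int.cast_abs] at this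
      have a1 := WD_low K K₁ s s' k
      have a2 := TF_le S x l hx k
      have a3 := TF_le C (fun _ => (1 : ℝ)) mc (fun _ _ => zero_le_one) k
      have a4 := TF_le A (fun _ => (1 : ℝ)) (fun n : ℕ => Real.log n) (fun _ _ => zero_le_one) k
      rw [sum_const, nsmul_eq_mul, mul_one] at a3 a4
      have a5 : 0 ≤ 1 / (K : ℝ) + 1 / K₁ + |s| + |s'| := by positivity
      unfold GP
      rw [norm_mul, norm_mul, norm_mul, Complex.norm_conj, Complex.norm_conj]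
      calc ‖WD K K₁ s s' k‖ * (‖TF S x l k‖ * ‖TF C (fun _ => 1) mc k‖) * ‖TF A (fun _ => 1) (fun n : ℕ => Real.log n) k‖
          ≤ (T * (1 / K + 1 / K₁ + |s| + |s'|)) * (P * C.card) * A.card := by
            have b1 : ‖WD K K₁ s s' k‖ ≤ T * (1 / K + 1 / K₁ + |s| + |s'|) :=
              a1.trans (mul_le_mul_of_nonneg_right a0 a5)
            have b2 : ‖TF S x l k‖ ≤ P := a2.trans hP
            gcongr
        _ = _ := by ring
    refine (norm_sum_le _ _).trans ((sum_le_sum h2).trans ?_)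
    rw [sum_const, nsmul_eq_mul]
    have h3 : (((FK K).filter (fun k : ℤ => |k| ≤ (T : ℤ))).card : ℝ) ≤ 2 * T + 1 := by
      have h4 : (FK K).filter (fun k : ℤ => |k| ≤ (T : ℤ)) ⊆ (FK K).filter (fun k : ℤ => |0 - k| ≤ (T : ℤ)) := by
        intro k hk
        rw [mem_filter] at hk ⊢
        refine ⟨hk.1, ?_⟩
        rw [zero_sub, abs_neg]; exact hk.2
      have h5 := near_count (FK K) T 0
      have h6 : (((FK K).filter (fun k : ℤ => |k| ≤ (T : ℤ))).card : ℝ) ≤ ((FK K).filter (fun k : ℤ => |0 - k| ≤ (T : ℤ))).card := by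
        exact_mod_cast card_le_card h4
      linarith
    have h4 : 0 ≤ T * (1 / K + 1 / K₁ + |s| + |s'|) * P * (A.card * C.card) := by positivity
    calc (((FK K).filter (fun k : ℤ => |k| ≤ (T : ℤ))).card : ℝ) * (T * (1 / K + 1 / K₁ + |s| + |s'|) * P * (A.card * C.card))
        ≤ (2 * T + 1) * (T * (1 / K + 1 / K₁ + |s| + |s'|) * P * (A.card * C.card)) := mul_le_mul_of_nonneg_right h3 h4
      _ = _ := by ring
  · -- high frequencies
    set U := (FK K).filter (fun k : ℤ => ¬ |k| ≤ (T : ℤ)) with hU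
    have hUK : U ⊆ FK K := filter_subset _ _
    have hd := dual A Sν ν hAS hν0 hν1 U (fun k => WD K K₁ s s' k * GP C mc S x l k) (μ * A.card) (κ * A.card)
      (by positivity) T0 hm (fun k hk l hl h => hfar k (hUK hk) l (hUK hl) h)
    have hsub : ∀ f : ℤ → ℝ, (∀ k, 0 ≤ f k) → ∑ k ∈ U, f k ≤ ∑ k ∈ FK K, f k := fun f hf =>
      sum_le_sum_of_subset_of_nonneg hUK fun k _ _ => hf k
    -- the two norms
    have hG : ∀ k ∈ U, ‖WD K K₁ s s' k * GP C mc S x l k‖ ≤ 2 * wt K k * (‖TF S x l k‖ * ‖TF C (fun _ => 1) mc k‖) := by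
      intro k _
      unfold GP
      rw [norm_mul, norm_mul, Complex.norm_conj]
      exact mul_le_mul_of_nonneg_right (WD_high K K₁ hK₁ hK s s' k) (by positivity)
    have hG2 : ∑ k ∈ U, ‖WD K K₁ s s' k * GP C mc S x l k‖ ^ 2 ≤ 4 * η ^ 2 * (EC * (C.card : ℝ) ^ 2) := by
      calc ∑ k ∈ U, ‖WD K K₁ s s' k * GP C mc S x l k‖ ^ 2
          ≤ ∑ k ∈ U, 4 * η ^ 2 * (wt K k * ‖TF C (fun _ => 1) mc k‖ ^ 2) := by
            apply sum_le_sum
            intro k hk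
            have hk2 := hk
            rw [hU, mem_filter, not_le] at hk2
            have b1 := hsup k hk2.1 hk2.2
            have b2 := hG k hk
            have b3 := wt_nonneg K k
            have b4 := wt_le K k
            have b5 : ‖TF S x l k‖ ^ 2 ≤ η ^ 2 := pow_le_pow_left₀ (norm_nonneg _) b1 2
            have b6 : wt K k ^ 2 ≤ wt K k := by nlinarith
            calc ‖WD K K₁ s s' k * GP C mc S x l k‖ ^ 2 ≤ (2 * wt K k * (‖TF S x l k‖ * ‖TF C (fun _ => 1) mc k‖)) ^ 2 :=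
                  pow_le_pow_left₀ (norm_nonneg _) b2 2
              _ = 4 * ‖TF S x l k‖ ^ 2 * (wt K k ^ 2 * ‖TF C (fun _ => 1) mc k‖ ^ 2) := by ring
              _ ≤ 4 * η ^ 2 * (wt K k * ‖TF C (fun _ => 1) mc k‖ ^ 2) := by gcongr
        _ = 4 * η ^ 2 * ∑ k ∈ U, wt K k * ‖TF C (fun _ => 1) mc k‖ ^ 2 := by rw [mul_sum]
        _ ≤ 4 * η ^ 2 * (EC * (C.card : ℝ) ^ 2) := by
            apply mul_le_mul_of_nonneg_left _ (by positivity)
            exact (hsub _ (fun k => mul_nonneg (wt_nonneg _ _) (by positivity))).trans hEC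
    have hG1 : (∑ k ∈ U, ‖WD K K₁ s s' k * GP C mc S x l k‖) ^ 2 ≤ 4 * (EP * (EC * (C.card : ℝ) ^ 2)) := by
      have b1 : ∑ k ∈ U, ‖WD K K₁ s s' k * GP C mc S x l k‖ ≤
          2 * ∑ k ∈ U, (√(wt K k) * ‖TF S x l k‖) * (√(wt K k) * ‖TF C (fun _ => 1) mc k‖) := by
        rw [mul_sum]
        apply sum_le_sum
        intro k hk
        refine (hG k hk).trans (le_of_eq ?_)
        have := Real.mul_self_sqrt (wt_nonneg K k)
        calc 2 * wt K k * (‖TF S x l k‖ * ‖TF C (fun _ => 1) mc k‖) =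
              2 * (√(wt K k) * √(wt K k)) * (‖TF S x l k‖ * ‖TF C (fun _ => 1) mc k‖) := by rw [this]
          _ = _ := by ring
      have b2 := Finset.sum_mul_sq_le_sq_mul_sq U (fun k => √(wt K k) * ‖TF S x l k‖) (fun k => √(wt K k) * ‖TF C (fun _ => 1) mc k‖)
      have b3 : ∑ k ∈ U, (√(wt K k) * ‖TF S x l k‖) ^ 2 ≤ EP := by
        refine le_trans (le_of_eq ?_) ((hsub (fun k => wt K k * ‖TF S x l k‖ ^ 2) (fun k => mul_nonneg (wt_nonneg _ _) (by positivity))).trans hEP)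
        apply sum_congr rfl
        intro k _
        rw [mul_pow, Real.sq_sqrt (wt_nonneg _ _)]
      have b4 : ∑ k ∈ U, (√(wt K k) * ‖TF C (fun _ => 1) mc k‖) ^ 2 ≤ EC * (C.card : ℝ) ^ 2 := by
        refine le_trans (le_of_eq ?_) ((hsub (fun k => wt K k * ‖TF C (fun _ => 1) mc k‖ ^ 2) (fun k => mul_nonneg (wt_nonneg _ _) (by positivity))).trans hEC)
        apply sum_congr rfl
        intro k _
        rw [mul_pow, Real.sq_sqrt (wt_nonneg _ _)]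
      have b5 : 0 ≤ ∑ k ∈ U, (√(wt K k) * ‖TF S x l k‖) ^ 2 := sum_nonneg fun _ _ => by positivity
      have b6 : 0 ≤ ∑ k ∈ U, (√(wt K k) * ‖TF C (fun _ => 1) mc k‖) ^ 2 := sum_nonneg fun _ _ => by positivity
      have b7 : 0 ≤ EP := b5.trans b3
      calc (∑ k ∈ U, ‖WD K K₁ s s' k * GP C mc S x l k‖) ^ 2
          ≤ (2 * ∑ k ∈ U, (√(wt K k) * ‖TF S x l k‖) * (√(wt K k) * ‖TF C (fun _ => 1) mc k‖)) ^ 2 :=
            pow_le_pow_left₀ (sum_nonneg fun _ _ => norm_nonneg _) b1 2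
        _ = 4 * (∑ k ∈ U, (√(wt K k) * ‖TF S x l k‖) * (√(wt K k) * ‖TF C (fun _ => 1) mc k‖)) ^ 2 := by ring
        _ ≤ 4 * ((∑ k ∈ U, (√(wt K k) * ‖TF S x l k‖) ^ 2) * (∑ k ∈ U, (√(wt K k) * ‖TF C (fun _ => 1) mc k‖) ^ 2)) := by
            linarith
        _ ≤ 4 * (EP * (EC * (C.card : ℝ) ^ 2)) := by
            have := mul_le_mul b3 b4 b6 b7
            linarith
    have hfin : ‖∑ k ∈ U, (WD K K₁ s s' k * GP C mc S x l k) * (starRingEnd ℂ) (TF A (fun _ => 1) (fun n : ℕ => Real.log n) k)‖ ^ 2 ≤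
        (4 * EC * ((2 * T0 + 1) * μ * η ^ 2 + κ * EP)) * (A.card * C.card) ^ 2 := by
      refine hd.trans ?_
      calc (A.card : ℝ) * ((2 * T0 + 1) * (μ * A.card) * ∑ k ∈ U, ‖WD K K₁ s s' k * GP C mc S x l k‖ ^ 2 +
            κ * A.card * (∑ k ∈ U, ‖WD K K₁ s s' k * GP C mc S x l k‖) ^ 2)
          ≤ (A.card : ℝ) * ((2 * T0 + 1) * (μ * A.card) * (4 * η ^ 2 * (EC * (C.card : ℝ) ^ 2)) +
            κ * A.card * (4 * (EP * (EC * (C.card : ℝ) ^ 2)))) := by gcongr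
        _ = _ := by ring
    have h0 : 0 ≤ 4 * EC * ((2 * T0 + 1) * μ * η ^ 2 + κ * EP) ∨ (A.card * C.card : ℝ) = 0 := by
      by_cases h : (A.card * C.card : ℝ) = 0
      · exact Or.inr h
      · left
        have h5 : (0 : ℝ) < (A.card * C.card) ^ 2 := by positivity
        have h6 := (by positivity : 0 ≤ ‖∑ k ∈ U, (WD K K₁ s s' k * GP C mc S x l k) * (starRingEnd ℂ) (TF A (fun _ => 1) (fun n : ℕ => Real.log n) k)‖ ^ 2).trans hfin
        by_contra h7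
        push Not at h7
        have := mul_neg_of_neg_of_pos h7 h5
        linarith
    rcases h0 with h0 | h0
    · have h5 : (4 * EC * ((2 * T0 + 1) * μ * η ^ 2 + κ * EP)) * (A.card * C.card : ℝ) ^ 2 =
          (√(4 * EC * ((2 * T0 + 1) * μ * η ^ 2 + κ * EP)) * (A.card * C.card)) ^ 2 := by
        rw [mul_pow (√_), Real.sq_sqrt h0]
      rw [h5] at hfin
      exact (pow_le_pow_iff_left₀ (norm_nonneg _) (by positivity) (by norm_num)).1 hfin
    · rw [h0] at hfin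
      have h5 : ‖∑ k ∈ U, (WD K K₁ s s' k * GP C mc S x l k) * (starRingEnd ℂ) (TF A (fun _ => 1) (fun n : ℕ => Real.log n) k)‖ ^ 2 ≤ 0 := by
        simpa using hfin
      have h6 : ‖∑ k ∈ U, (WD K K₁ s s' k * GP C mc S x l k) * (starRingEnd ℂ) (TF A (fun _ => 1) (fun n : ℕ => Real.log n) k)‖ = 0 :=
        pow_eq_zero_iff (two_ne_zero) |>.1 (le_antisymm h5 (by positivity))
      rw [h6]
      positivity

end Pool.Agent.Y851.PS
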