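import Pool.Agent.Y851.PS.G1

/-! Averages of Fejér's kernel over shifts and sharp intervals. -/

set_option autoImplicit false

namespace Pool.Agent.Y851.PS
open Finset MeasureTheory intervalIntegral
open Pool.Agent.H376R2.MR (Fj FK ch Fj_nonneg Fj_le Fj_le_sq fej_exp fej_eq_norm ls_norm_ch ls_ch_mul ls_ch_cont ls_orth ls_sq)

lemma Fj_cont (K : ℕ) : Continuous (Fj K) := by
  unfold Pool.Agent.H376R2.MR.Fj
  fun_prop

lemma Fj_int (K : ℕ) (a b : ℝ) : IntervalIntegrable (Fj K) volume a b := (Fj_cont K).intervalIntegrable a b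

lemma Fj_full (K : ℕ) (hK : 1 ≤ K) : ∫ u in (-Real.pi)..Real.pi, Fj K u = 2 * Real.pi := by
  have h1 : ((∫ u in (-Real.pi)..Real.pi, Fj K u : ℝ) : ℂ) = ((2 * Real.pi : ℝ) : ℂ) := by
    rw [← intervalIntegral.integral_ofReal]
    have h2 : ∀ u : ℝ, (Fj K u : ℂ) = ∑ k ∈ FK K, ((1 - |(k : ℝ)| / K : ℝ) : ℂ) * (((1 : ℝ) : ℂ) * ch k u) := by
      intro u
      rw [← fej_exp]
      apply sum_congr rfl
      intro k _
      rw [Complex.ofReal_one, one_mul]
      rfl
    simp_rw [h2]
    rw [intervalIntegral.integral_finsetSum]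
    · have h3 : ∀ k ∈ FK K, ∫ u in (-Real.pi)..Real.pi, ((1 - |(k : ℝ)| / K : ℝ) : ℂ) * (((1 : ℝ) : ℂ) * ch k u) =
          if k = 0 then (2 * Real.pi : ℂ) else 0 := by
        intro k _
        rw [intervalIntegral.integral_const_mul, ls_orth]
        split_ifs with hk
        · subst hk; simp
        · simp
      rw [sum_congr rfl h3, sum_ite_eq']
      rw [if_pos]
      · push_cast; rfl
      · unfold Pool.Agent.H376R2.MR.FK
        rw [mem_Ioo]
        constructor <;> omega
    · intro k _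
      apply Continuous.intervalIntegrable
      have := ls_ch_cont k
      fun_prop
  exact_mod_cast h1

lemma Fj_tail {K : ℕ} (hK : 1 ≤ K) {d b : ℝ} (hd : 0 < d) (hdb : d ≤ b) (hb : b ≤ 4) :
    ∫ u in d..b, Fj K u ≤ 40 / (K * d) := by
  have hK0 : (0 : ℝ) < K := by exact_mod_cast hK
  have hne : (0 : ℝ) ∉ Set.uIcc d b := by
    rw [Set.uIcc_of_le hdb]
    intro h
    exact absurd h.1 (not_le.2 hd)
  have h1 : ∫ u in d..b, Fj K u ≤ ∫ u in d..b, (40 / K) * u ^ (-2 : ℤ) := by
    apply intervalIntegral.integral_mono_on hdb (Fj_int K d b)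
    · apply ContinuousOn.intervalIntegrable
      apply ContinuousOn.mul continuousOn_const
      intro u hu
      apply ContinuousAt.continuousWithinAt
      apply continuousAt_zpow₀
      left
      rintro rfl
      exact hne hu
    · intro u hu
      have hu0 : 0 < u := hd.trans_le hu.1
      refine (Fj_dec hK hu0.ne' (by rw [abs_of_pos hu0]; exact hu.2.trans hb)).trans (le_of_eq ?_)
      rw [zpow_neg, zpow_ofNat]
      field_simp
  refine h1.trans ?_
  rw [intervalIntegral.integral_const_mul, integral_zpow (Or.inr ⟨by norm_num, hne⟩)]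
  have e1 : ((-2 : ℤ) : ℝ) + 1 = -1 := by norm_num
  have e2 : (-2 : ℤ) + 1 = -1 := by norm_num
  rw [e1, e2, zpow_neg_one, zpow_neg_one]
  have h2 : 0 ≤ b⁻¹ := by
    have : 0 < b := hd.trans_le hdb
    positivity
  calc 40 / K * ((b⁻¹ - d⁻¹) / -1) = 40 / K * (d⁻¹ - b⁻¹) := by ring
    _ ≤ 40 / K * d⁻¹ := by
        apply mul_le_mul_of_nonneg_left _ (by positivity)
        linarith
    _ = 40 / (K * d) := by field_simp

lemma Fj_int_nonneg (K : ℕ) {a b : ℝ} (hab : a ≤ b) : 0 ≤ ∫ u in a..b, Fj K u :=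
  intervalIntegral.integral_nonneg hab fun u _ => Fj_nonneg K u

lemma Fj_tail' {K : ℕ} (hK : 1 ≤ K) {d b : ℝ} (hd : 0 ≤ d) (hdb : d ≤ b) (hb : b ≤ 4) :
    (2 * Real.pi)⁻¹ * ∫ u in d..b, Fj K u ≤ 14 / (1 + K * d) := by
  have hK0 : (0 : ℝ) < K := by exact_mod_cast hK
  have hK1 : (1 : ℝ) ≤ K := by exact_mod_cast hK
  have hpi := Real.pi_gt_d2
  have hpi0 := Real.pi_pos
  rcases le_or_gt 1 (K * d) with h | h
  · have hd0 : 0 < d := by
      by_contra h0
      have : d = 0 := le_antisymm (not_lt.1 h0) hd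
      rw [this, mul_zero] at h
      linarith
    have h1 := Fj_tail hK hd0 hdb hb
    have h2 : (2 * Real.pi)⁻¹ * ∫ u in d..b, Fj K u ≤ (2 * Real.pi)⁻¹ * (40 / (K * d)) :=
      mul_le_mul_of_nonneg_left h1 (by positivity)
    refine h2.trans ?_
    have e : (2 * Real.pi)⁻¹ * (40 / (K * d)) = 20 / (Real.pi * (K * d)) := by field_simp; norm_num
    rw [e, div_le_div_iff₀ (by positivity) (by positivity)]
    nlinarith
  · -- everything up to `4`
    have h1 : ∫ u in d..b, Fj K u ≤ 41 := by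
      have hKi : (1 : ℝ) / K ≤ 4 := by
        rw [div_le_iff₀ hK0]; linarith
      have hKi0 : (0 : ℝ) < 1 / K := by positivity
      have e1 : ∫ u in (0 : ℝ)..4, Fj K u = (∫ u in (0 : ℝ)..(1 / K), Fj K u) + ∫ u in (1 / K : ℝ)..4, Fj K u :=
        (intervalIntegral.integral_add_adjacent_intervals (Fj_int _ _ _) (Fj_int _ _ _)).symm
      have e2 : ∫ u in (0 : ℝ)..4, Fj K u = (∫ u in (0 : ℝ)..d, Fj K u) + ((∫ u in d..b, Fj K u) + ∫ u in b..4, Fj K u) := by
        rw [intervalIntegral.integral_add_adjacent_intervals (Fj_int _ _ _) (Fj_int _ _ _),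
          intervalIntegral.integral_add_adjacent_intervals (Fj_int _ _ _) (Fj_int _ _ _)]
      have a1 := Fj_int_nonneg K hd
      have a2 := Fj_int_nonneg K hb
      have a3 : ∫ u in (0 : ℝ)..(1 / K), Fj K u ≤ 1 := by
        calc ∫ u in (0 : ℝ)..(1 / K), Fj K u ≤ ∫ u in (0 : ℝ)..(1 / K), (K : ℝ) := by
              apply intervalIntegral.integral_mono_on hKi0.le (Fj_int _ _ _) (by simp)
              intro u _
              exact Fj_le K u
          _ = 1 := by
              rw [intervalIntegral.integral_const, smul_eq_mul]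
              field_simp
              ring
      have a4 := Fj_tail hK hKi0 hKi le_rfl
      have e3 : 40 / (K * (1 / K) : ℝ) = 40 := by field_simp
      rw [e3] at a4
      linarith
    have h2 : (2 * Real.pi)⁻¹ * ∫ u in d..b, Fj K u ≤ (2 * Real.pi)⁻¹ * 41 := mul_le_mul_of_nonneg_left h1 (by positivity)
    refine h2.trans ?_
    have e : (2 * Real.pi)⁻¹ * 41 = 41 / (2 * Real.pi) := by ring
    have hd' : 0 ≤ K * d := by positivity
    rw [e, div_le_div_iff₀ (by positivity) (by positivity)]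
    nlinarith

lemma Fj_int_neg (K : ℕ) (a b : ℝ) : ∫ u in (-b)..(-a), Fj K u = ∫ u in a..b, Fj K u := by
  have h := intervalIntegral.integral_comp_neg (a := a) (b := b) (fun u => Fj K u)
  rw [← h]
  congr 1
  funext u
  exact Fj_neg K u

/-- the smoothed indicator function -/
noncomputable def Psi (K : ℕ) (h y : ℝ) : ℝ := (2 * Real.pi)⁻¹ * ∫ s in (0 : ℝ)..h, Fj K (y + s)

lemma Psi_eq (K : ℕ) (h y : ℝ) : Psi K h y = (2 * Real.pi)⁻¹ * ∫ u in y..(y + h), Fj K u := by
  unfold Psi
  rw [intervalIntegral.integral_comp_add_left (fun u => Fj K u) y, add_zero]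

open Classical in
lemma Psi_near {K : ℕ} (hK : 1 ≤ K) {h y : ℝ} (hh : 0 ≤ h) (hh1 : h ≤ 1) (hy : |y| ≤ 3) :
    |(if -h < y ∧ y < 0 then (1 : ℝ) else 0) - Psi K h y| ≤ 14 / (1 + K * |y|) + 14 / (1 + K * |y + h|) := by
  have hK0 : (0 : ℝ) < K := by exact_mod_cast hK
  have hpi := Real.pi_gt_d2
  have hpi0 := Real.pi_pos
  have hy' := abs_le.1 hy
  have hpos1 : 0 ≤ 14 / (1 + K * |y|) := by positivity
  have hpos2 : 0 ≤ 14 / (1 + K * |y + h|) := by positivity
  by_cases hc : -h < y ∧ y < 0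
  · rw [if_pos hc, Psi_eq]
    obtain ⟨h1, h2⟩ := hc
    have hfull := Fj_full K hK
    have e1 : ∫ u in (-Real.pi)..Real.pi, Fj K u = (∫ u in (-Real.pi)..y, Fj K u) +
        ((∫ u in y..(y + h), Fj K u) + ∫ u in (y + h)..Real.pi, Fj K u) := by
      rw [intervalIntegral.integral_add_adjacent_intervals (Fj_int _ _ _) (Fj_int _ _ _),
        intervalIntegral.integral_add_adjacent_intervals (Fj_int _ _ _) (Fj_int _ _ _)]
    have e2 : ∫ u in (-Real.pi)..y, Fj K u = ∫ u in (-y)..Real.pi, Fj K u := by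
      have := Fj_int_neg K (-y) Real.pi
      rw [neg_neg] at this
      exact this
    have a1 := Fj_tail' hK (d := -y) (b := Real.pi) (by linarith) (by linarith) (by linarith [Real.pi_lt_d2])
    have a2 := Fj_tail' hK (d := y + h) (b := Real.pi) (by linarith) (by linarith) (by linarith [Real.pi_lt_d2])
    have a3 := Fj_int_nonneg K (a := -y) (b := Real.pi) (by linarith)
    have a4 := Fj_int_nonneg K (a := y + h) (b := Real.pi) (by linarith)
    have e3 : 1 - (2 * Real.pi)⁻¹ * ∫ u in y..(y + h), Fj K u = (2 * Real.pi)⁻¹ * (∫ u in (-y)..Real.pi, Fj K u) +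
        (2 * Real.pi)⁻¹ * ∫ u in (y + h)..Real.pi, Fj K u := by
      rw [hfull, e2] at e1
      have e4 : ∫ u in y..(y + h), Fj K u = 2 * Real.pi - (∫ u in (-y)..Real.pi, Fj K u) - ∫ u in (y + h)..Real.pi, Fj K u := by
        linarith
      rw [e4]
      field_simp
      ring
    rw [e3, abs_of_nonneg (by positivity), abs_of_neg h2, abs_of_pos (by linarith : 0 < y + h)]
    linarith
  · rw [if_neg hc, zero_sub, abs_neg, Psi_eq]
    have a0 := Fj_int_nonneg K (a := y) (b := y + h) (by linarith)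
    rw [abs_of_nonneg (by positivity)]
    rcases le_or_gt 0 y with h1 | h1
    · have a1 := Fj_tail' hK (d := y) (b := y + h) h1 (by linarith) (by linarith)
      rw [abs_of_nonneg h1] at hpos1 ⊢
      linarith
    · have h2 : y ≤ -h := by
        by_contra h3
        exact hc ⟨not_le.1 h3, h1⟩
      have e2 : ∫ u in y..(y + h), Fj K u = ∫ u in (-(y + h))..(-y), Fj K u := by
        have := Fj_int_neg K (-(y + h)) (-y)
        rw [neg_neg, neg_neg] at this
        exact this
      have a1 := Fj_tail' hK (d := -(y + h)) (b := -y) (by linarith) (by linarith) (by linarith)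
      rw [e2]
      rw [abs_of_nonpos (by linarith : y + h ≤ 0)] at hpos2 ⊢
      linarith

open Classical in
/-- **Smoothed counts and sharp counts.** -/
theorem phys {ι : Type} (S : Finset ι) (x l : ι → ℝ) (hx : ∀ i ∈ S, 0 ≤ x i) (K : ℕ) (hK : 1 ≤ K) (Q : ℝ)
    (hcell : ∀ u : ℝ, ∑ i ∈ S.filter (fun i => u ≤ l i ∧ l i < u + 1 / K), x i ≤ Q / K) (hQ : 0 ≤ Q)
    (v h : ℝ) (hh : 0 ≤ h) (hh1 : h ≤ 1) (hv : ∀ i ∈ S, |l i - v| ≤ 3) :
    |∑ i ∈ S.filter (fun i => v - h < l i ∧ l i < v), x i -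
      (2 * Real.pi)⁻¹ * ∫ s in (0 : ℝ)..h, ∑ i ∈ S, x i * Fj K (l i - v + s)| ≤
      112 * Q * (1 + Real.log (4 * K + 2)) / K := by
  have e1 : (2 * Real.pi)⁻¹ * ∫ s in (0 : ℝ)..h, ∑ i ∈ S, x i * Fj K (l i - v + s) = ∑ i ∈ S, x i * Psi K h (l i - v) := by
    rw [intervalIntegral.integral_finsetSum]
    · rw [mul_sum]
      apply sum_congr rfl
      intro i _
      rw [intervalIntegral.integral_const_mul]
      unfold Psi
      ring
    · intro i _
      apply Continuous.intervalIntegrable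
      have := Fj_cont K
      fun_prop
  rw [e1, sum_filter, ← sum_sub_distrib]
  refine (abs_sum_le_sum_abs _ _).trans ?_
  have h1 : ∀ i ∈ S, |(if v - h < l i ∧ l i < v then x i else 0) - x i * Psi K h (l i - v)| ≤
      x i * (14 / (1 + K * |l i - v|)) + x i * (14 / (1 + K * |l i - (v - h)|)) := by
    intro i hi
    have h2 := Psi_near hK hh hh1 (hv i hi)
    have e2 : (if v - h < l i ∧ l i < v then x i else 0) - x i * Psi K h (l i - v) =
        x i * ((if -h < l i - v ∧ l i - v < 0 then (1 : ℝ) else 0) - Psi K h (l i - v)) := by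
      by_cases hc : v - h < l i ∧ l i < v
      · rw [if_pos hc, if_pos ⟨by linarith [hc.1], by linarith [hc.2]⟩]; ring
      · rw [if_neg hc, if_neg (fun h3 => hc ⟨by linarith [h3.1], by linarith [h3.2]⟩)]; ring
    rw [e2, abs_mul, abs_of_nonneg (hx i hi), ← mul_add]
    apply mul_le_mul_of_nonneg_left _ (hx i hi)
    have e3 : l i - (v - h) = l i - v + h := by ring
    rw [e3]
    exact h2
  refine (sum_le_sum h1).trans ?_
  rw [sum_add_distrib]
  have b1 := cell_log S x l hx K hK Q hcell hQ v (fun i hi => (hv i hi).trans (by norm_num))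
  have b2 := cell_log S x l hx K hK Q hcell hQ (v - h) (fun i hi => by
    have := abs_le.1 (hv i hi)
    rw [abs_le]
    constructor <;> linarith)
  calc _ ≤ 56 * Q * (1 + Real.log (4 * K + 2)) / K + 56 * Q * (1 + Real.log (4 * K + 2)) / K := add_le_add b1 b2
    _ = _ := by ring

end Pool.Agent.Y851.PS
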