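import Pool.Agent.Y851.PS.G3
import Pool.Agent.Y851.PS.G4

/-! Sharp counts at two scales. -/

set_option autoImplicit false

namespace Pool.Agent.Y851.PS
open Finset MeasureTheory intervalIntegral
open Pool.Agent.H376R2.MR (Fj FK ch Fj_nonneg Fj_le Fj_le_sq fej_exp fej_eq_norm ls_norm_ch ls_ch_mul ls_ch_cont ls_orth ls_sq)

open Classical in
/-- the sharp trilinear count -/
noncomputable def Sh {γ ι : Type} (A : Finset ℕ) (C : Finset γ) (m : γ → ℝ) (S : Finset ι) (x l : ι → ℝ) (h : ℝ) : ℝ :=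
  ∑ a ∈ A, ∑ c ∈ C, ∑ i ∈ S.filter (fun i => Real.log a + m c - h < l i ∧ l i < Real.log a + m c), x i

lemma FS_cont {γ ι : Type} (A : Finset ℕ) (C : Finset γ) (m : γ → ℝ) (S : Finset ι) (x l : ι → ℝ) (K : ℕ) :
    Continuous (fun s => FS A C m S x l K s) := by
  unfold FS
  have := Fj_cont K
  fun_prop

open Classical in
lemma Sh_near {γ ι : Type} (A : Finset ℕ) (C : Finset γ) (m : γ → ℝ) (S : Finset ι) (x l : ι → ℝ) (hx : ∀ i ∈ S, 0 ≤ x i)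
    (K : ℕ) (hK : 1 ≤ K) (Q : ℝ)
    (hcell : ∀ u : ℝ, ∑ i ∈ S.filter (fun i => u ≤ l i ∧ l i < u + 1 / K), x i ≤ Q / K) (hQ : 0 ≤ Q)
    (h : ℝ) (hh : 0 ≤ h) (hh1 : h ≤ 1) (hv : ∀ a ∈ A, ∀ c ∈ C, ∀ i ∈ S, |l i - (Real.log a + m c)| ≤ 3) :
    |Sh A C m S x l h - (2 * Real.pi)⁻¹ * ∫ s in (0 : ℝ)..h, FS A C m S x l K s| ≤
      112 * Q * (1 + Real.log (4 * K + 2)) / K * (A.card * C.card) := by
  have e1 : (2 * Real.pi)⁻¹ * ∫ s in (0 : ℝ)..h, FS A C m S x l K s =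
      ∑ a ∈ A, ∑ c ∈ C, (2 * Real.pi)⁻¹ * ∫ s in (0 : ℝ)..h, ∑ i ∈ S, x i * Fj K (l i - (Real.log a + m c) + s) := by
    unfold FS
    have hc := Fj_cont K
    rw [intervalIntegral.integral_finsetSum (fun a _ => Continuous.intervalIntegrable (by fun_prop) _ _), mul_sum]
    apply sum_congr rfl
    intro a _
    rw [intervalIntegral.integral_finsetSum (fun c _ => Continuous.intervalIntegrable (by fun_prop) _ _), mul_sum]
    apply sum_congr rfl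
    intro c _
    congr 1
    apply intervalIntegral.integral_congr
    intro s _
    simp only
    apply sum_congr rfl
    intro i _
    congr 2
    ring
  rw [e1]
  unfold Sh
  rw [← sum_sub_distrib]
  refine (abs_sum_le_sum_abs _ _).trans ?_
  have h1 : ∀ a ∈ A, |∑ c ∈ C, ∑ i ∈ S.filter (fun i => Real.log a + m c - h < l i ∧ l i < Real.log a + m c), x i -
      ∑ c ∈ C, (2 * Real.pi)⁻¹ * ∫ s in (0 : ℝ)..h, ∑ i ∈ S, x i * Fj K (l i - (Real.log a + m c) + s)| ≤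
      C.card * (112 * Q * (1 + Real.log (4 * K + 2)) / K) := by
    intro a ha
    rw [← sum_sub_distrib]
    refine (abs_sum_le_sum_abs _ _).trans ?_
    have h2 : ∀ c ∈ C, |∑ i ∈ S.filter (fun i => Real.log a + m c - h < l i ∧ l i < Real.log a + m c), x i -
        (2 * Real.pi)⁻¹ * ∫ s in (0 : ℝ)..h, ∑ i ∈ S, x i * Fj K (l i - (Real.log a + m c) + s)| ≤
        112 * Q * (1 + Real.log (4 * K + 2)) / K := by
      intro c hc
      exact phys S x l hx K hK Q hcell hQ (Real.log a + m c) h hh hh1 (hv a ha c hc)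
    refine (sum_le_sum h2).trans ?_
    rw [sum_const, nsmul_eq_mul]
  refine (sum_le_sum h1).trans ?_
  rw [sum_const, nsmul_eq_mul]
  apply le_of_eq
  ring

/-- averages of functions which are close to each other -/
lemma avg_close (f g : ℝ → ℝ) (hf : Continuous f) (hg : Continuous g) (h h2 Δ : ℝ) (hh : 0 < h) (hh2 : 0 < h2)
    (hfg : ∀ s s' : ℝ, 0 ≤ s → s ≤ h → 0 ≤ s' → s' ≤ h2 → |f s - g s'| ≤ Δ) :
    |(∫ s in (0 : ℝ)..h, f s) / h - (∫ s in (0 : ℝ)..h2, g s) / h2| ≤ Δ := by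
  have key : ∀ s : ℝ, 0 ≤ s → s ≤ h → |f s - (∫ s in (0 : ℝ)..h2, g s) / h2| ≤ Δ := by
    intro s hs1 hs2
    have e1 : f s - (∫ s in (0 : ℝ)..h2, g s) / h2 = (∫ t in (0 : ℝ)..h2, (f s - g t)) / h2 := by
      rw [intervalIntegral.integral_sub (by simp) (hg.intervalIntegrable _ _), intervalIntegral.integral_const, smul_eq_mul,
        sub_zero, sub_div, mul_div_assoc, mul_comm, div_mul_cancel₀ _ hh2.ne']
    rw [e1, abs_div, abs_of_pos hh2, div_le_iff₀ hh2]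
    have h1 := intervalIntegral.norm_integral_le_of_norm_le_const (a := (0 : ℝ)) (b := h2) (C := Δ) (f := fun t => f s - g t) (by
      intro t ht
      rw [Set.uIoc_of_le hh2.le] at ht
      rw [Real.norm_eq_abs]
      exact hfg s t hs1 hs2 ht.1.le ht.2)
    rw [Real.norm_eq_abs, sub_zero, abs_of_pos hh2] at h1
    exact h1
  set c := (∫ s in (0 : ℝ)..h2, g s) / h2 with hc
  have e1 : (∫ s in (0 : ℝ)..h, f s) / h - c = (∫ t in (0 : ℝ)..h, (f t - c)) / h := by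
    rw [intervalIntegral.integral_sub (hf.intervalIntegrable _ _) (by simp), intervalIntegral.integral_const, smul_eq_mul,
      sub_zero, sub_div, mul_comm h c, mul_div_assoc, div_self hh.ne', mul_one]
  rw [e1, abs_div, abs_of_pos hh, div_le_iff₀ hh]
  have h1 := intervalIntegral.norm_integral_le_of_norm_le_const (a := (0 : ℝ)) (b := h) (C := Δ) (f := fun t => f t - c) (by
    intro t ht
    rw [Set.uIoc_of_le hh.le] at ht
    rw [Real.norm_eq_abs]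
    exact key t ht.1.le ht.2)
  rw [Real.norm_eq_abs, sub_zero, abs_of_pos hh] at h1
  exact h1

open Classical in
/-- **Two scales**: the averages of the sharp counts over `A × C` at the scales `h` and `h2`. -/
theorem two_scales {γ ι : Type} (A Sν : Finset ℕ) (ν : ℕ → ℝ) (hAS : A ⊆ Sν) (hν0 : ∀ n ∈ Sν, 0 ≤ ν n) (hν1 : ∀ a ∈ A, 1 ≤ ν a)
    (C : Finset γ) (mc : γ → ℝ) (S : Finset ι) (x l : ι → ℝ) (hx : ∀ i ∈ S, 0 ≤ x i) (K K₁ : ℕ) (hK₁ : 1 ≤ K₁)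
    (hK : K₁ ≤ K) (T T0 : ℕ) (μ κ η BC Q P h h2 : ℝ) (hκ : 0 ≤ κ) (hη : 0 ≤ η) (hμ : 0 ≤ μ) (hQ : 0 ≤ Q) (hBC : 0 ≤ BC)
    (hh : 0 < h) (hh1 : h ≤ 1) (hh2 : 0 < h2) (hh21 : h2 ≤ 1)
    (hm : ∑ n ∈ Sν, ν n ≤ μ * A.card)
    (hfar : ∀ k ∈ FK K, ∀ l ∈ FK K, (T0 : ℤ) < |k - l| → ‖TF Sν ν (fun n : ℕ => Real.log n) (k - l)‖ ≤ κ * A.card)
    (hP : ∑ i ∈ S, x i ≤ P)
    (hcell : ∀ u : ℝ, ∑ i ∈ S.filter (fun i => u ≤ l i ∧ l i < u + 1 / K), x i ≤ Q / K)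
    (hcell1 : ∀ u : ℝ, ∑ i ∈ S.filter (fun i => u ≤ l i ∧ l i < u + 1 / K₁), x i ≤ Q / K₁)
    (hcellC : ∀ u : ℝ, ((C.filter (fun c => u ≤ mc c ∧ mc c < u + 1 / K)).card : ℝ) ≤ BC * C.card / K)
    (hl : ∀ i ∈ S, ∀ j ∈ S, |l i - l j| ≤ 4) (hmc : ∀ c ∈ C, ∀ c' ∈ C, |mc c - mc c'| ≤ 4)
    (hv : ∀ a ∈ A, ∀ c ∈ C, ∀ i ∈ S, |l i - (Real.log a + mc c)| ≤ 3)
    (hsup : ∀ k ∈ FK K, (T : ℤ) < |k| → ‖TF S x l k‖ ≤ η) :
    |Sh A C mc S x l h / h - Sh A C mc S x l h2 / h2| ≤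
      (112 * Q * (1 + Real.log (4 * K + 2)) / (K * h) + 112 * Q * (1 + Real.log (4 * K₁ + 2)) / (K₁ * h2) +
      ((2 * T + 1) * T * (1 / K + 1 / K₁ + h + h2) * P +
        √(6400 * BC * ((2 * T0 + 1) * μ * η ^ 2 + κ * (P * (1600 * Q)))))) * (A.card * C.card) := by
  have hpi := Real.pi_gt_d2
  have hpi0 := Real.pi_pos
  have hK0 : (0 : ℝ) < K := by exact_mod_cast hK₁.trans hK
  have hK₁0 : (0 : ℝ) < K₁ := by exact_mod_cast hK₁
  have hP0 : 0 ≤ P := (sum_nonneg hx).trans hP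
  have hEP := energy_le S x l hx K (hK₁.trans hK) Q P hcell hQ hP hl
  have hEC : ∑ k ∈ FK K, wt K k * ‖TF C (fun _ => (1 : ℝ)) mc k‖ ^ 2 ≤ (1600 * BC) * (C.card : ℝ) ^ 2 := by
    have h1 := energy_le C (fun _ => (1 : ℝ)) mc (fun _ _ => zero_le_one) K (hK₁.trans hK) (BC * C.card) C.card (by
      intro u
      rw [sum_const, nsmul_eq_mul, mul_one]
      have := hcellC u
      exact this) (by positivity) (by simp) hmc
    refine h1.trans (le_of_eq ?_)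
    ring
  have hfreq : ∀ s s' : ℝ, 0 ≤ s → s ≤ h → 0 ≤ s' → s' ≤ h2 → |FS A C mc S x l K s - FS A C mc S x l K₁ s'| ≤
      ((2 * T + 1) * T * (1 / K + 1 / K₁ + h + h2) * P +
        √(6400 * BC * ((2 * T0 + 1) * μ * η ^ 2 + κ * (P * (1600 * Q))))) * (A.card * C.card) := by
    intro s s' hs1 hs2 hs3 hs4
    refine (freq A Sν ν hAS hν0 hν1 C mc S x l hx K K₁ hK₁ hK s s' T T0 μ κ η (1600 * BC) (P * (1600 * Q)) P hκ hη hμ hm hfar hP
      hEC hEP hsup).trans ?_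
    apply mul_le_mul_of_nonneg_right _ (by positivity)
    rw [abs_of_nonneg hs1, abs_of_nonneg hs3]
    have e : 4 * (1600 * BC) = 6400 * BC := by ring
    rw [e]
    gcongr
  have h3 := avg_close _ _ (FS_cont A C mc S x l K) (FS_cont A C mc S x l K₁) h h2 _ hh hh2 hfreq
  have h4 := Sh_near A C mc S x l hx K (hK₁.trans hK) Q hcell hQ h hh.le hh1 hv
  have h5 := Sh_near A C mc S x l hx K₁ hK₁ Q hcell1 hQ h2 hh2.le hh21 hv
  set I1 := ∫ s in (0 : ℝ)..h, FS A C mc S x l K s with hI1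
  set I2 := ∫ s in (0 : ℝ)..h2, FS A C mc S x l K₁ s with hI2
  set D := ((2 * T + 1) * T * (1 / K + 1 / K₁ + h + h2) * P +
        √(6400 * BC * ((2 * T0 + 1) * μ * η ^ 2 + κ * (P * (1600 * Q))))) * (A.card * C.card : ℝ) with hD
  have hD0 : 0 ≤ D := by rw [hD]; positivity
  have h6 : |Sh A C mc S x l h / h - (2 * Real.pi)⁻¹ * (I1 / h)| ≤
      112 * Q * (1 + Real.log (4 * K + 2)) / (K * h) * (A.card * C.card) := by
    have e : Sh A C mc S x l h / h - (2 * Real.pi)⁻¹ * (I1 / h) = (Sh A C mc S x l h - (2 * Real.pi)⁻¹ * I1) / h := by ring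
    rw [e, abs_div, abs_of_pos hh, div_le_iff₀ hh]
    refine h4.trans (le_of_eq ?_)
    field_simp
  have h7 : |Sh A C mc S x l h2 / h2 - (2 * Real.pi)⁻¹ * (I2 / h2)| ≤
      112 * Q * (1 + Real.log (4 * K₁ + 2)) / (K₁ * h2) * (A.card * C.card) := by
    have e : Sh A C mc S x l h2 / h2 - (2 * Real.pi)⁻¹ * (I2 / h2) = (Sh A C mc S x l h2 - (2 * Real.pi)⁻¹ * I2) / h2 := by ring
    rw [e, abs_div, abs_of_pos hh2, div_le_iff₀ hh2]
    refine h5.trans (le_of_eq ?_)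
    field_simp
  have h8 : |(2 * Real.pi)⁻¹ * (I1 / h) - (2 * Real.pi)⁻¹ * (I2 / h2)| ≤ D := by
    rw [← mul_sub, abs_mul, abs_of_pos (by positivity)]
    have h9 : (2 * Real.pi)⁻¹ ≤ 1 := by
      apply inv_le_one_of_one_le₀; linarith
    calc (2 * Real.pi)⁻¹ * |I1 / h - I2 / h2| ≤ 1 * D := mul_le_mul h9 h3 (abs_nonneg _) zero_le_one
      _ = D := one_mul _
  have h9 : Sh A C mc S x l h / h - Sh A C mc S x l h2 / h2 =
      (Sh A C mc S x l h / h - (2 * Real.pi)⁻¹ * (I1 / h)) + ((2 * Real.pi)⁻¹ * (I1 / h) - (2 * Real.pi)⁻¹ * (I2 / h2)) -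
      (Sh A C mc S x l h2 / h2 - (2 * Real.pi)⁻¹ * (I2 / h2)) := by ring
  rw [h9, add_mul, add_mul, ← hD]
  have a1 := abs_le.1 h6
  have a2 := abs_le.1 h7
  have a3 := abs_le.1 h8
  rw [abs_le]
  constructor <;> linarith [a1.1, a1.2, a2.1, a2.2, a3.1, a3.2]

end Pool.Agent.Y851.PS
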