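import Pool.Agent.Y851.PS.G2
import Pool.Agent.Y851.HZ.S4
import Pool.Agent.W301.SS.Asym
import Pool.Agent.Helper923.PPS.BT

/-! The family of primes. -/

set_option autoImplicit false

namespace Pool.Agent.Y851.PS
open Finset
open Pool.Agent.H376R2.MR (Fj FK ch Fj_nonneg Fj_le kern_ch_er ls_norm_ch er)
open Pool.Agent.H376R2.MR renaming w → tw
open Pool.Agent.Y851.HZ (tw_nonneg tw_le tw_supp PW star_P lam_tent)

/-- the trapezoid -/
noncomputable def g3 (s : ℝ) : ℝ := tw (s - 1) + tw s + tw (s + 1)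

lemma g3_nonneg (s : ℝ) : 0 ≤ g3 s := by
  unfold g3
  have := tw_nonneg (s - 1)
  have := tw_nonneg s
  have := tw_nonneg (s + 1)
  linarith

lemma g3_le (s : ℝ) : g3 s ≤ 3 := by
  unfold g3
  have := tw_le (s - 1)
  have := tw_le s
  have := tw_le (s + 1)
  linarith

lemma g3_one {s : ℝ} (hs : |s| ≤ 1) : g3 s = 1 := by
  unfold g3
  have hs' := abs_le.1 hs
  rcases le_total 0 s with h | h
  · have e1 : tw s = 1 - s := by
      unfold Pool.Agent.H376R2.MR.w
      rw [abs_of_nonneg h, max_eq_right (by linarith)]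
    have e2 : tw (s - 1) = s := by
      unfold Pool.Agent.H376R2.MR.w
      rw [abs_of_nonpos (by linarith), max_eq_right (by linarith)]
      ring
    have e3 : tw (s + 1) = 0 := tw_supp _ (by rw [abs_of_nonneg (by linarith)]; linarith)
    rw [e1, e2, e3]; ring
  · have e1 : tw s = 1 + s := by
      unfold Pool.Agent.H376R2.MR.w
      rw [abs_of_nonpos h, max_eq_right (by linarith)]
      ring
    have e2 : tw (s + 1) = -s := by
      unfold Pool.Agent.H376R2.MR.w
      rw [abs_of_nonneg (by linarith), max_eq_right (by linarith)]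
      ring
    have e3 : tw (s - 1) = 0 := tw_supp _ (by rw [abs_of_nonpos (by linarith)]; linarith)
    rw [e1, e2, e3]; ring

/-- the primes near `e ^ Y` -/
noncomputable def SPr (Y : ℝ) : Finset ℕ :=
  (Icc 1 ⌈Real.exp (Y + 2)⌉₊).filter (fun p => p.Prime ∧ |Real.log p - Y| < 2)

noncomputable def xP (Y : ℝ) (p : ℕ) : ℝ := Real.log p / p * g3 (Real.log p - Y)

lemma xP_nonneg (Y : ℝ) (p : ℕ) : 0 ≤ xP Y p := by
  unfold xP
  have := g3_nonneg (Real.log p - Y)
  have := Real.log_natCast_nonneg p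
  positivity

lemma mem_SPr {Y : ℝ} {p : ℕ} (hp : p.Prime) (h : |Real.log p - Y| < 2) : p ∈ SPr Y := by
  unfold SPr
  rw [mem_filter, mem_Icc]
  refine ⟨⟨hp.one_lt.le, ?_⟩, hp, h⟩
  have hp0 : (0 : ℝ) < p := by exact_mod_cast hp.pos
  have h1 : (p : ℝ) ≤ Real.exp (Y + 2) := by
    rw [← Real.log_le_iff_le_exp hp0]
    linarith [(abs_lt.1 h).2]
  have h2 : (p : ℝ) ≤ (⌈Real.exp (Y + 2)⌉₊ : ℕ) := h1.trans (Nat.le_ceil _)
  exact_mod_cast h2

lemma TF_prime (Y : ℝ) (k : ℤ) : TF (SPr Y) (xP Y) (fun p : ℕ => Real.log p) k =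
    PW ⌈Real.exp (Y + 2)⌉₊ (-(k : ℝ)) (Y + 1) + PW ⌈Real.exp (Y + 2)⌉₊ (-(k : ℝ)) Y + PW ⌈Real.exp (Y + 2)⌉₊ (-(k : ℝ)) (Y - 1) := by
  unfold TF PW
  rw [← sum_add_distrib, ← sum_add_distrib]
  symm
  have hsub : SPr Y ⊆ (Icc 1 ⌈Real.exp (Y + 2)⌉₊).filter Nat.Prime := by
    intro p hp
    unfold SPr at hp
    rw [mem_filter] at hp ⊢
    exact ⟨hp.1, hp.2.1⟩
  rw [← sum_subset hsub]
  · apply sum_congr rfl
    intro p _
    unfold xP g3
    rw [kern_ch_er]
    have e1 : Real.log (p : ℝ) - (Y + 1) = Real.log p - Y - 1 := by ring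
    have e2 : Real.log (p : ℝ) - (Y - 1) = Real.log p - Y + 1 := by ring
    rw [e1, e2]
    push_cast
    ring
  · intro p hp hp2
    rw [mem_filter] at hp
    have h1 : 2 ≤ |Real.log p - Y| := by
      by_contra h
      exact hp2 (mem_SPr hp.2 (not_le.1 h))
    have h2 : tw (Real.log p - (Y + 1)) = 0 := by
      apply tw_supp
      rcases le_abs.1 h1 with h | h
      · rw [abs_of_nonneg (by linarith)]; linarith
      · rw [abs_of_nonpos (by linarith)]; linarith
    have h3 : tw (Real.log p - Y) = 0 := tw_supp _ (by linarith)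
    have h4 : tw (Real.log p - (Y - 1)) = 0 := by
      apply tw_supp
      rcases le_abs.1 h1 with h | h
      · rw [abs_of_nonneg (by linarith)]; linarith
      · rw [abs_of_nonpos (by linarith)]; linarith
    rw [h2, h3, h4]
    simp

lemma SPr_total (Y : ℝ) : ∑ p ∈ SPr Y, xP Y p ≤ 144 := by
  have key : ∀ V : ℝ, ∑ p ∈ SPr Y, ArithmeticFunction.vonMangoldt p / p * tw (Real.log p - V) ≤ 48 := by
    intro V
    refine le_trans (le_of_eq ?_) (lam_tent (SPr Y) (by
      intro n hn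
      unfold SPr at hn
      rw [mem_filter, mem_Icc] at hn
      exact hn.1.1) V)
    apply sum_congr rfl
    intro n _
    ring
  have h1 := key (Y + 1)
  have h2 := key Y
  have h3 := key (Y - 1)
  have e : ∑ p ∈ SPr Y, xP Y p = ∑ p ∈ SPr Y, ArithmeticFunction.vonMangoldt p / p * tw (Real.log p - (Y + 1)) +
      ∑ p ∈ SPr Y, ArithmeticFunction.vonMangoldt p / p * tw (Real.log p - Y) +
      ∑ p ∈ SPr Y, ArithmeticFunction.vonMangoldt p / p * tw (Real.log p - (Y - 1)) := by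
    rw [← sum_add_distrib, ← sum_add_distrib]
    apply sum_congr rfl
    intro p hp
    unfold SPr at hp
    rw [mem_filter] at hp
    unfold xP g3
    rw [ArithmeticFunction.vonMangoldt_apply_prime hp.2.1]
    have e1 : Real.log (p : ℝ) - (Y + 1) = Real.log p - Y - 1 := by ring
    have e2 : Real.log (p : ℝ) - (Y - 1) = Real.log p - Y + 1 := by ring
    rw [e1, e2]
    ring
  rw [e]; linarith

lemma SPr_sup (η : ℝ) (hη : 0 < η) : ∃ (T : ℕ) (Y₀ : ℝ), ∀ Y : ℝ, Y₀ ≤ Y → ∀ k : ℤ, (T : ℤ) < |k| →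
    |(k : ℝ)| ≤ Real.exp Y → ‖TF (SPr Y) (xP Y) (fun p : ℕ => Real.log p) k‖ ≤ η := by
  obtain ⟨T₀, Y₀, hT₀, hY₀, h⟩ := star_P 2 (η / 3) (by positivity)
  refine ⟨⌈T₀⌉₊, Y₀ + 2, fun Y hY k hk hk2 => ?_⟩
  have h1 : T₀ ≤ |(-(k : ℝ))| := by
    rw [abs_neg]
    have h2 : ((⌈T₀⌉₊ : ℤ) : ℝ) < ((|k| : ℤ) : ℝ) := by exact_mod_cast hk
    rw [Int.cast_abs] at h2
    have h3 := Nat.le_ceil T₀
    push_cast at h2
    linarith
  have key : ∀ V : ℝ, Y - 1 ≤ V → V ≤ Y + 1 → ‖PW ⌈Real.exp (Y + 2)⌉₊ (-(k : ℝ)) V‖ ≤ η / 3 := by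
    intro V hV1 hV2
    apply h V (by linarith) (-(k : ℝ)) h1
    · rw [abs_neg]
      refine hk2.trans (Real.exp_le_exp.2 ?_)
      push_cast
      linarith
    · refine (Real.exp_le_exp.2 (by linarith)).trans (Nat.le_ceil _)
  rw [TF_prime]
  have h2 := key (Y + 1) (by linarith) le_rfl
  have h3 := key Y (by linarith) (by linarith)
  have h4 := key (Y - 1) le_rfl (by linarith)
  refine (norm_add_le _ _).trans ?_
  have h5 := norm_add_le (PW ⌈Real.exp (Y + 2)⌉₊ (-(k : ℝ)) (Y + 1)) (PW ⌈Real.exp (Y + 2)⌉₊ (-(k : ℝ)) Y)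
  linarith

/-- Brun–Titchmarsh in cells -/
lemma SPr_cell (ε : ℝ) (hε : 0 < ε) (_hε1 : ε < 1) : ∃ (Q Y₀ : ℝ), 1 ≤ Q ∧ ∀ Y : ℝ, Y₀ ≤ Y → ∀ K : ℕ, 1 ≤ K →
    (K : ℝ) ≤ Real.exp ((1 - ε) * Y) → ∀ u : ℝ,
    ∑ p ∈ (SPr Y).filter (fun p : ℕ => u ≤ Real.log p ∧ Real.log p < u + 1 / K), xP Y p ≤ Q / K := by
  obtain ⟨C, hC, hBT⟩ := Pool.Agent.Helper923.PPS.brun_titchmarsh
  refine ⟨100 * C / ε + 1, 10 / ε + 10, by
    have : 0 ≤ 100 * C / ε := by positivity
    linarith, ?_⟩
  intro Y hY K hK1 hK u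
  have hK0 : (0 : ℝ) < K := by exact_mod_cast hK1
  have hK1r : (1 : ℝ) ≤ K := by exact_mod_cast hK1
  have hε10 : 10 / ε ≤ Y := by linarith
  have hεY : 10 ≤ ε * Y := by
    rw [div_le_iff₀ hε] at hε10; linarith
  have hY10 : 10 ≤ Y := by
    have : 0 < 10 / ε := by positivity
    linarith
  rcases (filter (fun p : ℕ => u ≤ Real.log p ∧ Real.log p < u + 1 / K) (SPr Y)).eq_empty_or_nonempty with he | ⟨p₀, hp₀⟩
  · rw [he, sum_empty]
    positivity
  have hu : Y - 3 ≤ u ∧ u ≤ Y + 2 := by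
    rw [mem_filter] at hp₀
    have h1 := hp₀.1
    unfold SPr at h1
    rw [mem_filter] at h1
    have h2 := abs_lt.1 h1.2.2
    have h3 : 1 / (K : ℝ) ≤ 1 := by rw [div_le_one hK0]; exact hK1r
    constructor
    · linarith [hp₀.2.2]
    · linarith [hp₀.2.1]
  set E := Real.exp u / K with hE
  have hE0 : 0 < E := by rw [hE]; positivity
  have hElow : Real.exp (ε * Y - 3) ≤ E := by
    rw [hE, le_div_iff₀ hK0]
    calc Real.exp (ε * Y - 3) * K ≤ Real.exp (ε * Y - 3) * Real.exp ((1 - ε) * Y) := by gcongr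
      _ = Real.exp (Y - 3) := by rw [← Real.exp_add]; congr 1; ring
      _ ≤ Real.exp u := Real.exp_le_exp.2 hu.1
  have hE7 : 7 ≤ E := by
    have h1 : (ε * Y - 3) + 1 ≤ Real.exp (ε * Y - 3) := Real.add_one_le_exp _
    linarith
  set L : ℕ := ⌈4 * E⌉₊ with hL
  have hL1 : 4 * E ≤ L := Nat.le_ceil _
  have hL2 : (L : ℝ) < 4 * E + 1 := Nat.ceil_lt_add_one (by positivity)
  have hL2n : 2 ≤ L := by
    have : (2 : ℝ) ≤ L := by linarith
    exact_mod_cast this
  have hbt := hBT ⌊Real.exp u⌋₊ 1 L hL2n (Or.inl rfl)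
  -- the count
  have hcount : (((SPr Y).filter (fun p : ℕ => u ≤ Real.log p ∧ Real.log p < u + 1 / K)).card : ℝ) ≤
      (((Finset.range L).filter (fun k => (⌊Real.exp u⌋₊ + k * 1).Prime)).card : ℝ) := by
    apply Nat.cast_le.2
    apply card_le_card_of_injOn (fun p => p - ⌊Real.exp u⌋₊)
    · intro p hp
      rw [mem_coe, mem_filter] at hp
      have h1 := hp.1
      unfold SPr at h1
      rw [mem_filter] at h1
      have hp0 : (0 : ℝ) < p := by exact_mod_cast h1.2.1.pos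
      have h2 : Real.exp u ≤ p := by
        rw [← Real.le_log_iff_exp_le hp0]; exact hp.2.1
      have h3 : (p : ℝ) < Real.exp (u + 1 / K) := by
        rw [← Real.log_lt_iff_lt_exp hp0]; exact hp.2.2
      have h4 : ⌊Real.exp u⌋₊ ≤ p := by
        have : (⌊Real.exp u⌋₊ : ℝ) ≤ p := (Nat.floor_le (Real.exp_pos _).le).trans h2
        exact_mod_cast this
      rw [mem_coe, mem_filter, mem_range]
      constructor
      · have h5 : ((p - ⌊Real.exp u⌋₊ : ℕ) : ℝ) < L := by
          rw [Nat.cast_sub h4]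
          have h6 : Real.exp u < ⌊Real.exp u⌋₊ + 1 := Nat.lt_floor_add_one _
          have h7 : Real.exp (1 / K : ℝ) - 1 ≤ 2 * (1 / K) := by
            have h8 : |(1 / K : ℝ)| ≤ 1 := by
              rw [abs_of_pos (by positivity), div_le_one hK0]; exact hK1r
            have h9 := Real.abs_exp_sub_one_le h8
            rw [abs_of_pos (by positivity : (0 : ℝ) < 1 / K)] at h9
            exact (le_abs_self _).trans h9
          have h8 : Real.exp (u + 1 / K) ≤ Real.exp u + 2 * E := by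
            rw [Real.exp_add]
            have h9 : Real.exp u * Real.exp (1 / K : ℝ) ≤ Real.exp u * (1 + 2 * (1 / K)) := by
              apply mul_le_mul_of_nonneg_left _ (Real.exp_pos _).le
              linarith
            refine h9.trans (le_of_eq ?_)
            rw [hE]; ring
          linarith
        exact_mod_cast h5
      · have h5 : ⌊Real.exp u⌋₊ + (p - ⌊Real.exp u⌋₊) * 1 = p := by omega
        rw [h5]
        exact h1.2.1
    · intro p hp q hq hpq
      have key : ∀ r ∈ (↑((SPr Y).filter (fun p : ℕ => u ≤ Real.log p ∧ Real.log p < u + 1 / K)) : Set ℕ), ⌊Real.exp u⌋₊ ≤ r := by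
        intro r hr
        rw [mem_coe, mem_filter] at hr
        have h1 := hr.1
        unfold SPr at h1
        rw [mem_filter] at h1
        have hp0 : (0 : ℝ) < r := by exact_mod_cast h1.2.1.pos
        have h2 : Real.exp u ≤ r := by
          rw [← Real.le_log_iff_exp_le hp0]; exact hr.2.1
        have : (⌊Real.exp u⌋₊ : ℝ) ≤ r := (Nat.floor_le (Real.exp_pos _).le).trans h2
        exact_mod_cast this
      have h1 := key p hp
      have h2 := key q hq
      simp only at hpq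
      omega
  -- the weights
  have hw : ∀ p ∈ (SPr Y).filter (fun p : ℕ => u ≤ Real.log p ∧ Real.log p < u + 1 / K), xP Y p ≤ 3 * (Y + 2) / Real.exp u := by
    intro p hp
    rw [mem_filter] at hp
    have h1 := hp.1
    unfold SPr at h1
    rw [mem_filter] at h1
    have hp0 : (0 : ℝ) < p := by exact_mod_cast h1.2.1.pos
    have h2 : Real.exp u ≤ p := by
      rw [← Real.le_log_iff_exp_le hp0]; exact hp.2.1
    have h3 : Real.log p ≤ Y + 2 := by linarith [(abs_lt.1 h1.2.2).2]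
    have h4 := g3_le (Real.log p - Y)
    have h5 := g3_nonneg (Real.log p - Y)
    have h6 : 0 ≤ Real.log (p : ℝ) := Real.log_natCast_nonneg p
    unfold xP
    calc Real.log p / p * g3 (Real.log p - Y) ≤ (Y + 2) / Real.exp u * 3 := by gcongr
      _ = _ := by ring
  have hlogL : ε * Y / 2 ≤ Real.log L := by
    have h1 : Real.exp (ε * Y - 3) ≤ L := by linarith
    have h2 : ε * Y - 3 ≤ Real.log L := by
      rw [Real.le_log_iff_exp_le (by linarith)]; exact h1
    linarith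
  calc ∑ p ∈ (SPr Y).filter (fun p : ℕ => u ≤ Real.log p ∧ Real.log p < u + 1 / K), xP Y p
      ≤ ∑ p ∈ (SPr Y).filter (fun p : ℕ => u ≤ Real.log p ∧ Real.log p < u + 1 / K), 3 * (Y + 2) / Real.exp u := sum_le_sum hw
    _ = (((SPr Y).filter (fun p : ℕ => u ≤ Real.log p ∧ Real.log p < u + 1 / K)).card : ℝ) * (3 * (Y + 2) / Real.exp u) := by
        rw [sum_const, nsmul_eq_mul]
    _ ≤ (C * L / Real.log L) * (3 * (Y + 2) / Real.exp u) := by
        apply mul_le_mul_of_nonneg_right (hcount.trans hbt) (by positivity)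
    _ ≤ (C * (5 * E) / (ε * Y / 2)) * (3 * (2 * Y) / Real.exp u) := by
        gcongr
        · linarith
        · linarith
    _ = 60 * C / ε / K := by
        rw [hE]
        have hY0 : Y ≠ 0 := by linarith
        have := (Real.exp_pos u).ne'
        field_simp
        norm_num
    _ ≤ (100 * C / ε + 1) / K := by
        apply div_le_div_of_nonneg_right _ hK0.le
        have : 60 * C / ε ≤ 100 * C / ε := by gcongr; norm_num
        linarith

end Pool.Agent.Y851.PS
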