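import Pool.Agent.Y851.PS.G5
import Pool.Agent.Y851.PS.G6

/-! The prime number theorem in short windows of constant relative length, and the block theorem. -/

set_option autoImplicit false

namespace Pool.Agent.Y851.PS
open Finset
open Pool.Agent.H376R2.MR (Fj FK ch Fj_nonneg Fj_le kern_ch_er ls_norm_ch er)
open Pool.Agent.H376R2.MR renaming w → tw

lemma theta_floor (x : ℝ) (hx : 0 ≤ x) : Chebyshev.theta x = Chebyshev.theta ((⌊x⌋₊ : ℕ) : ℝ) := by
  rw [Chebyshev.theta_eq_sum_Icc, Chebyshev.theta_eq_sum_Icc, Nat.floor_natCast]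

lemma theta_unif (δ : ℝ) (hδ : 0 < δ) : ∃ Y₀ : ℝ, 1 ≤ Y₀ ∧ ∀ Y : ℝ, Y₀ ≤ Y → ∀ b : ℝ, 0 ≤ b → b ≤ Real.exp (Y + 1) →
    |Chebyshev.theta b - b| ≤ δ * Real.exp Y := by
  obtain ⟨N₀, hN₀⟩ := Filter.eventually_atTop.1 (Pool.Agent.W301.SS.pnt_unif 1)
  refine ⟨max (max 1 N₀) (20 / δ), (le_max_left _ _).trans (le_max_left _ _), ?_⟩
  intro Y hY b hb0 hb
  have hY1 : 1 ≤ Y := ((le_max_left _ _).trans (le_max_left _ _)).trans hY
  have hY2 : (N₀ : ℝ) ≤ Y := ((le_max_right _ _).trans (le_max_left _ _)).trans hY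
  have hY3 : 20 / δ ≤ Y := (le_max_right _ _).trans hY
  rw [div_le_iff₀ hδ] at hY3
  set N := ⌈Real.exp (Y + 1)⌉₊ with hN
  have hN1 : Real.exp (Y + 1) ≤ N := Nat.le_ceil _
  have hN2 : (N : ℝ) < Real.exp (Y + 1) + 1 := Nat.ceil_lt_add_one (Real.exp_pos _).le
  have hYe : Y + 1 ≤ Real.exp Y := Real.add_one_le_exp Y
  have he1 : Real.exp (Y + 1) ≤ 3 * Real.exp Y := by
    rw [Real.exp_add]
    have := Real.exp_one_lt_d9
    have := Real.exp_pos Y
    nlinarith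
  have hYe1 : Y ≤ Real.exp (Y + 1) := by
    have := Real.add_one_le_exp (Y + 1)
    linarith
  have hNN : N₀ ≤ N := by
    have : (N₀ : ℝ) ≤ N := by linarith
    exact_mod_cast this
  have hm : ⌊b⌋₊ ≤ 4 * N := by
    have h1 : (⌊b⌋₊ : ℝ) ≤ ((4 * N : ℕ) : ℝ) := by
      push_cast
      have := Nat.floor_le hb0
      linarith [Real.exp_pos (Y + 1)]
    exact_mod_cast h1
  have h1 := hN₀ N hNN ⌊b⌋₊ hm
  rw [pow_one] at h1
  have hlogN : Y + 1 ≤ Real.log N := by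
    rw [Real.le_log_iff_exp_le (by linarith [Real.exp_pos (Y + 1)])]
    exact hN1
  have h2 : (N : ℝ) / Real.log N ≤ 4 * Real.exp Y / Y := by
    apply div_le_div₀ (by positivity) (by linarith) (by linarith) (by linarith)
  have h3 : |((⌊b⌋₊ : ℕ) : ℝ) - b| ≤ 1 := by
    rw [abs_sub_comm, abs_of_nonneg (by linarith [Nat.floor_le hb0])]
    linarith [Nat.lt_floor_add_one b]
  rw [theta_floor b hb0]
  have h4 : Chebyshev.theta ((⌊b⌋₊ : ℕ) : ℝ) - b = (Chebyshev.theta ((⌊b⌋₊ : ℕ) : ℝ) - ((⌊b⌋₊ : ℕ) : ℝ)) + (((⌊b⌋₊ : ℕ) : ℝ) - b) := by ring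
  rw [h4]
  refine (abs_add_le _ _).trans ?_
  have hY0 : 0 < Y := by linarith
  have h5 : 4 * Real.exp Y / Y ≤ δ / 2 * Real.exp Y := by
    rw [div_le_iff₀ hY0]
    have := Real.exp_pos Y
    nlinarith
  have h6 : 1 ≤ δ / 2 * Real.exp Y := by nlinarith
  linarith

open Classical in
/-- the sharp count of primes near `v` in a window of constant length -/
lemma pnt_win (h2 δ : ℝ) (hh2 : 0 < h2) (hh21 : h2 ≤ 1 / 2) (hδ : 0 < δ) : ∃ Y₀ : ℝ, ∀ Y : ℝ, Y₀ ≤ Y →
    ∀ v : ℝ, |v - Y| ≤ 1 / 2 →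
    |∑ p ∈ (SPr Y).filter (fun p : ℕ => v - h2 < Real.log p ∧ Real.log p < v), xP Y p - h2| ≤ h2 ^ 2 + δ := by
  obtain ⟨Y₀, hY₀1, hY₀⟩ := theta_unif (δ / 40) (by positivity)
  refine ⟨max Y₀ (max 2 (40 / δ)), ?_⟩
  intro Y hY v hv
  have hY1 : Y₀ ≤ Y := (le_max_left _ _).trans hY
  have hY2 : 2 ≤ Y := ((le_max_left _ _).trans (le_max_right _ _)).trans hY
  have hY3 : 40 / δ ≤ Y := ((le_max_right _ _).trans (le_max_right _ _)).trans hY
  rw [div_le_iff₀ hδ] at hY3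
  have hv' := abs_le.1 hv
  set a := Real.exp (v - h2) with ha
  set b := Real.exp v with hb
  have ha0 : 0 < a := Real.exp_pos _
  have hb0 : 0 < b := Real.exp_pos _
  have hab : a < b := by rw [ha, hb, Real.exp_lt_exp]; linarith
  have hbY : Real.exp Y ≤ 2 * b := by
    rw [hb]
    have h1 : Real.exp Y ≤ Real.exp (1 / 2 + v) := Real.exp_le_exp.2 (by linarith)
    rw [Real.exp_add] at h1
    have h2' : Real.exp (1 / 2 : ℝ) ≤ 2 := by
      have h3 : Real.exp (1 / 2 : ℝ) ^ 2 = Real.exp 1 := by rw [← Real.exp_nat_mul]; norm_num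
      have := Real.exp_one_lt_d9
      nlinarith [Real.exp_pos (1 / 2 : ℝ)]
    have := Real.exp_pos v
    nlinarith
  have hba : b ≤ 2 * a := by
    rw [hb, ha]
    have h1 : Real.exp v ≤ Real.exp (1 / 2 + (v - h2)) := Real.exp_le_exp.2 (by linarith)
    rw [Real.exp_add] at h1
    have h2' : Real.exp (1 / 2 : ℝ) ≤ 2 := by
      have h3 : Real.exp (1 / 2 : ℝ) ^ 2 = Real.exp 1 := by rw [← Real.exp_nat_mul]; norm_num
      have := Real.exp_one_lt_d9
      nlinarith [Real.exp_pos (1 / 2 : ℝ)]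
    have := Real.exp_pos (v - h2)
    nlinarith
  have hta := hY₀ Y hY1 a ha0.le (Real.exp_le_exp.2 (by linarith))
  have htb := hY₀ Y hY1 b hb0.le (Real.exp_le_exp.2 (by linarith))
  set F := (SPr Y).filter (fun p : ℕ => v - h2 < Real.log p ∧ Real.log p < v) with hF
  -- the elements
  have hFmem : ∀ p : ℕ, p ∈ F ↔ p.Prime ∧ a < p ∧ (p : ℝ) < b := by
    intro p
    rw [hF, mem_filter]
    constructor
    · rintro ⟨h1, h3, h4⟩
      unfold SPr at h1
      rw [mem_filter] at h1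
      have hp0 : (0 : ℝ) < p := by exact_mod_cast h1.2.1.pos
      refine ⟨h1.2.1, ?_, ?_⟩
      · rw [ha, ← Real.lt_log_iff_exp_lt hp0]; exact h3
      · rw [hb, ← Real.log_lt_iff_lt_exp hp0]; exact h4
    · rintro ⟨h1, h3, h4⟩
      have hp0 : (0 : ℝ) < p := by exact_mod_cast h1.pos
      have h5 : v - h2 < Real.log p := by rw [Real.lt_log_iff_exp_lt hp0]; exact h3
      have h6 : Real.log p < v := by rw [Real.log_lt_iff_lt_exp hp0]; exact h4
      refine ⟨mem_SPr h1 ?_, h5, h6⟩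
      rw [abs_lt]
      constructor <;> linarith
  have hxP : ∀ p ∈ F, xP Y p = Real.log p / p := by
    intro p hp
    rw [hFmem] at hp
    have hp0 : (0 : ℝ) < p := by exact_mod_cast hp.1.pos
    have h5 : v - h2 < Real.log p := by rw [Real.lt_log_iff_exp_lt hp0]; exact hp.2.1
    have h6 : Real.log p < v := by rw [Real.log_lt_iff_lt_exp hp0]; exact hp.2.2
    unfold xP
    rw [g3_one (by rw [abs_le]; constructor <;> linarith), mul_one]
  -- the sum of the logarithms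
  have hΘ1 : ∑ p ∈ F, Real.log (p : ℝ) ≤ Chebyshev.theta b - Chebyshev.theta a := by
    rw [Chebyshev.theta_eq_sum_Icc, Chebyshev.theta_eq_sum_Icc]
    have h1 : (Icc 0 ⌊a⌋₊).filter Nat.Prime ⊆ (Icc 0 ⌊b⌋₊).filter Nat.Prime := by
      intro p hp
      rw [mem_filter, mem_Icc] at hp ⊢
      exact ⟨⟨hp.1.1, hp.1.2.trans (Nat.floor_mono hab.le)⟩, hp.2⟩
    rw [← sum_sdiff_eq_sub h1]
    apply sum_le_sum_of_subset_of_nonneg
    · intro p hp
      rw [hFmem] at hp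
      rw [mem_sdiff, mem_filter, mem_filter, mem_Icc, mem_Icc]
      refine ⟨⟨⟨Nat.zero_le _, Nat.le_floor hp.2.2.le⟩, hp.1⟩, ?_⟩
      rintro ⟨⟨_, h3⟩, _⟩
      have h4 : (p : ℝ) ≤ a := (Nat.le_floor_iff ha0.le).1 h3
      linarith [hp.2.1]
    · intro p _ _
      exact Real.log_natCast_nonneg p
  have hΘ2 : Chebyshev.theta b - Chebyshev.theta a - v ≤ ∑ p ∈ F, Real.log (p : ℝ) := by
    rw [Chebyshev.theta_eq_sum_Icc, Chebyshev.theta_eq_sum_Icc]
    have h1 : (Icc 0 ⌊a⌋₊).filter Nat.Prime ⊆ (Icc 0 ⌊b⌋₊).filter Nat.Prime := by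
      intro p hp
      rw [mem_filter, mem_Icc] at hp ⊢
      exact ⟨⟨hp.1.1, hp.1.2.trans (Nat.floor_mono hab.le)⟩, hp.2⟩
    rw [← sum_sdiff_eq_sub h1]
    have h2' : (Icc 0 ⌊b⌋₊).filter Nat.Prime \ (Icc 0 ⌊a⌋₊).filter Nat.Prime ⊆ insert ⌊b⌋₊ F := by
      intro p hp
      rw [mem_sdiff, mem_filter, mem_filter, mem_Icc, mem_Icc] at hp
      rw [mem_insert, hFmem]
      by_cases h3 : p = ⌊b⌋₊
      · exact Or.inl h3
      · right
        refine ⟨hp.1.2, ?_, ?_⟩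
        · by_contra h4
          push Not at h4
          exact hp.2 ⟨⟨Nat.zero_le _, Nat.le_floor h4⟩, hp.1.2⟩
        · have h5 : p < ⌊b⌋₊ := lt_of_le_of_ne hp.1.1.2 h3
          have h6 : (p : ℝ) < (⌊b⌋₊ : ℕ) := by exact_mod_cast h5
          exact h6.trans_le (Nat.floor_le hb0.le)
    have h3 : ∑ p ∈ (Icc 0 ⌊b⌋₊).filter Nat.Prime \ (Icc 0 ⌊a⌋₊).filter Nat.Prime, Real.log (p : ℝ) ≤
        ∑ p ∈ insert ⌊b⌋₊ F, Real.log (p : ℝ) :=
      sum_le_sum_of_subset_of_nonneg h2' fun p _ _ => Real.log_natCast_nonneg p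
    have h4 : ∑ p ∈ insert ⌊b⌋₊ F, Real.log (p : ℝ) ≤ Real.log ((⌊b⌋₊ : ℕ) : ℝ) + ∑ p ∈ F, Real.log (p : ℝ) := by
      by_cases h5 : ⌊b⌋₊ ∈ F
      · rw [insert_eq_of_mem h5]
        linarith [Real.log_natCast_nonneg ⌊b⌋₊]
      · rw [sum_insert h5]
    have h5 : Real.log ((⌊b⌋₊ : ℕ) : ℝ) ≤ v := by
      have hb1 : 1 ≤ b := by rw [hb]; exact Real.one_le_exp (by linarith)
      have h6 : 1 ≤ ⌊b⌋₊ := by
        apply Nat.le_floor; simpa using hb1
      have h7 : (0 : ℝ) < (⌊b⌋₊ : ℕ) := by exact_mod_cast h6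
      rw [Real.log_le_iff_le_exp h7]
      exact Nat.floor_le hb0.le
    linarith
  -- upper and lower bounds
  have hup : ∑ p ∈ F, xP Y p ≤ (∑ p ∈ F, Real.log (p : ℝ)) / a := by
    rw [sum_div]
    apply sum_le_sum
    intro p hp
    rw [hxP p hp]
    rw [hFmem] at hp
    exact div_le_div_of_nonneg_left (Real.log_natCast_nonneg p) ha0 hp.2.1.le
  have hlow : (∑ p ∈ F, Real.log (p : ℝ)) / b ≤ ∑ p ∈ F, xP Y p := by
    rw [sum_div]
    apply sum_le_sum
    intro p hp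
    rw [hxP p hp]
    rw [hFmem] at hp
    exact div_le_div_of_nonneg_left (Real.log_natCast_nonneg p) (by exact_mod_cast hp.1.pos) hp.2.2.le
  have hta' := abs_le.1 hta
  have htb' := abs_le.1 htb
  have hEb : δ / 40 * Real.exp Y ≤ δ / 20 * b := by
    calc δ / 40 * Real.exp Y ≤ δ / 40 * (2 * b) := by gcongr
      _ = δ / 20 * b := by ring
  have hvb : v ≤ δ / 10 * b := by
    have h1 : v ^ 2 / 2 ≤ b := by
      have h2' := Real.quadratic_le_exp_of_nonneg (x := v) (by linarith)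
      rw [← hb] at h2'
      linarith
    have h3 : 40 ≤ δ * (v * 2) := by nlinarith
    nlinarith
  have hab1 : b = a * Real.exp h2 := by rw [ha, hb, ← Real.exp_add]; congr 1; ring
  have hexp1 : h2 ≤ Real.exp h2 - 1 := by linarith [Real.add_one_le_exp h2]
  have hexp2 : Real.exp h2 - 1 ≤ h2 + h2 ^ 2 := by
    have h1 := Real.abs_exp_sub_one_sub_id_le (x := h2) (by rw [abs_of_pos hh2]; linarith)
    have := le_abs_self (Real.exp h2 - 1 - h2)
    linarith
  have hexp3 : 1 - Real.exp (-h2) ≥ h2 - h2 ^ 2 := by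
    have h1 := Real.abs_exp_sub_one_sub_id_le (x := -h2) (by rw [abs_neg, abs_of_pos hh2]; linarith)
    rw [neg_sq] at h1
    have := le_abs_self (Real.exp (-h2) - 1 - (-h2))
    linarith
  have hab2 : a = b * Real.exp (-h2) := by rw [ha, hb, ← Real.exp_add]; congr 1
  rw [abs_le]
  constructor
  · have h1 : (b - a - δ / 5 * b) / b ≤ (∑ p ∈ F, Real.log (p : ℝ)) / b := by
      apply div_le_div_of_nonneg_right _ hb0.le
      linarith
    have h3 : (b - a - δ / 5 * b) / b = 1 - Real.exp (-h2) - δ / 5 := by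
      rw [hab2]; field_simp
    linarith
  · have h1 : (∑ p ∈ F, Real.log (p : ℝ)) / a ≤ (b - a + δ / 10 * b) / a := by
      apply div_le_div_of_nonneg_right _ ha0.le
      linarith
    have h3 : (b - a + δ / 10 * b) / a ≤ (b - a) / a + δ / 5 := by
      rw [add_div]
      have : δ / 10 * b / a ≤ δ / 5 := by
        rw [div_le_iff₀ ha0]; nlinarith
      linarith
    have h4 : (b - a) / a = Real.exp h2 - 1 := by
      rw [hab1]; field_simp
    linarith

end Pool.Agent.Y851.PS
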